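import Pool.Agent.Y890.MV.Sys
import Pool.Agent.Y99.MV.Close
import Pool.Agent.Y710.MV.Taylor
import Pool.Agent.Y232.MV.ChartsM

/-!
# All degrees, heights, number fields and systems at once, bases of any dimension
-/

set_option autoImplicit false
set_option linter.unusedSectionVars false

open NumberField Filter

namespace Pool.Agent.Y890.MV

open Pool.Agent.Y890.SP (sz_count exists_omega)
open Pool.Agent.Y124 (Cov)

theorem stmZ : StmZ := Pool.Agent.Y99.MV.t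

theorem stmClose : StmClose := Pool.Agent.Y99.MV.close

theorem stmCharts : StmCharts := Pool.Agent.Y232.MV.t Pool.Agent.Y710.MV.t

theorem sz_count' {X K : Type} [Fintype X] [DecidableEq X] [Nonempty X] [Field K] (D : MvPolynomial X ℂ)
    (hD : D ≠ 0) (e : K →+* ℂ) (B : Set K) (hB : B.Finite) :
    {s : X → K | (∀ j, s j ∈ B) ∧ MvPolynomial.eval (fun j => e (s j)) D = 0}.ncard ≤
      D.totalDegree * B.ncard ^ (Fintype.card X - 1) := by
  classical
  obtain ⟨n, hn⟩ : ∃ n, Fintype.card X = n + 1 :=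
    ⟨Fintype.card X - 1, (Nat.succ_pred_eq_of_pos Fintype.card_pos).symm⟩
  let τ : X ≃ Fin (n + 1) := Fintype.equivFinOfCardEq hn
  have h1 := sz_count (MvPolynomial.rename τ D) (by
    rw [Ne, (MvPolynomial.rename_injective τ τ.injective).eq_iff' (map_zero _)]
    exact hD) e B hB
  rw [hn, Nat.add_sub_cancel]
  have h2 : (MvPolynomial.rename τ D).totalDegree ≤ D.totalDegree := MvPolynomial.totalDegree_rename_le _ _
  refine le_trans ?_ (h1.trans (Nat.mul_le_mul_right _ h2))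
  refine Set.ncard_le_ncard_of_injOn (fun s j => s (τ.symm j)) ?_ ?_ ?_
  · rintro s ⟨hs, hs'⟩
    refine ⟨fun j => hs _, ?_⟩
    rw [MvPolynomial.eval_rename, ← hs']
    congr 2
    funext x
    simp
  · intro s _ s' _ hss
    funext x
    have := congrFun hss (τ x)
    simpa using this
  · refine (Set.Finite.pi' (fun _ : Fin (n + 1) => hB)).subset fun s hs => ?_
    exact hs.1

theorem cov_count {X K : Type} [Fintype X] [DecidableEq X] [Nonempty X] [Field K] {D m : ℕ} (e : K →+* ℂ)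
    (B : Set K) (hB : B.Finite) (E : Set (X → K)) (hE : ∀ s ∈ E, ∀ j, s j ∈ B)
    (h : Cov D m ((fun (s : X → K) j => e (s j)) '' E)) :
    E.Finite ∧ E.ncard ≤ m * (D * B.ncard ^ (Fintype.card X - 1)) := by
  classical
  obtain ⟨Φ, h1, h2, h3⟩ := h
  refine ⟨(Set.Finite.pi' (fun _ : X => hB)).subset hE, ?_⟩
  have hZfin : ∀ P : MvPolynomial X ℂ,
      {s : X → K | (∀ j, s j ∈ B) ∧ MvPolynomial.eval (fun j => e (s j)) P = 0}.Finite := fun P =>
    (Set.Finite.pi' (fun _ : X => hB)).subset fun s hs => hs.1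
  have hsub : E ⊆ ⋃ P ∈ Φ, {s : X → K | (∀ j, s j ∈ B) ∧ MvPolynomial.eval (fun j => e (s j)) P = 0} := by
    intro s hs
    obtain ⟨P, hP, hP'⟩ := h3 _ ⟨s, hs, rfl⟩
    rw [Set.mem_iUnion₂]
    exact ⟨P, hP, hE s hs, hP'⟩
  calc E.ncard ≤ (⋃ P ∈ Φ, {s : X → K | (∀ j, s j ∈ B) ∧ MvPolynomial.eval (fun j => e (s j)) P = 0}).ncard :=
        Set.ncard_le_ncard hsub (Set.Finite.biUnion (Finset.finite_toSet _) fun P _ => hZfin P)
    _ ≤ ∑ P ∈ Φ, {s : X → K | (∀ j, s j ∈ B) ∧ MvPolynomial.eval (fun j => e (s j)) P = 0}.ncard :=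
        Finset.set_ncard_biUnion_le _ _
    _ ≤ ∑ _P ∈ Φ, D * B.ncard ^ (Fintype.card X - 1) := by
        refine Finset.sum_le_sum fun P hP => ?_
        exact (sz_count' P (h2 P hP).1 e B hB).trans (Nat.mul_le_mul_right _ (h2 P hP).2)
    _ = Φ.card * (D * B.ncard ^ (Fintype.card X - 1)) := by rw [Finset.sum_const, smul_eq_mul]
    _ ≤ _ := Nat.mul_le_mul_right _ h1

/-- the points of the closed ball of radius `k` at distance at least `1 / k` from the complement of `U` (sup norm) -/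
def InnerM {X : Type} [Fintype X] (U : Set (X → ℂ)) (k : ℕ) : Set (X → ℂ) :=
  {z | ‖z‖ ≤ k ∧ Metric.ball z (k : ℝ)⁻¹ ⊆ U}

theorem innerM_compact {X : Type} [Fintype X] (U : Set (X → ℂ)) (k : ℕ) : IsCompact (InnerM U k) := by
  have h1 : IsClosed (InnerM U k) := by
    rw [← isSeqClosed_iff_isClosed]
    intro z a hz ha
    refine ⟨?_, ?_⟩
    · exact le_of_tendsto ha.norm (Eventually.of_forall fun i => (hz i).1)
    · intro y hy
      rw [Metric.mem_ball] at hy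
      have h2 : Tendsto (fun i => dist y (z i)) atTop (nhds (dist y a)) := tendsto_const_nhds.dist ha
      obtain ⟨i, hi⟩ := (h2.eventually (gt_mem_nhds hy)).exists
      exact (hz i).2 (Metric.mem_ball.2 hi)
  refine Metric.isCompact_of_isClosed_isBounded h1 ?_
  refine (Metric.isBounded_closedBall (x := (0 : X → ℂ)) (r := k)).subset ?_
  intro z hz
  rw [mem_closedBall_zero_iff]
  exact hz.1

theorem innerM_sub {X : Type} [Fintype X] (U : Set (X → ℂ)) {k : ℕ} (hk : 0 < k) : InnerM U k ⊆ U := by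
  intro z hz
  exact hz.2 (Metric.mem_ball_self (by positivity))

/-- **All degrees, heights, number fields and systems at once, bases of any dimension.** -/
theorem excM_omega {X σ : Type} [Fintype X] [DecidableEq X] [Nonempty X] [Fintype σ] [DecidableEq σ]
    {U : Set (X → ℂ)} {f : σ → (X → ℂ) → ℂ} (hU : IsPreconnected U) (hUo : IsOpen U) (hne : U.Nonempty)
    (hf : ∀ i, AnalyticOnNhd ℂ (f i) U) (hreg : RegularM U f) :
    ∃ (ω : ℝ → ℕ) (T₀ : ℝ), Tendsto ω atTop atTop ∧ Monotone ω ∧ ∀ T, T₀ ≤ T → 0 < ω T ∧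
      ∀ (K : Type) [Field K] [NumberField K], Module.finrank ℚ K ≤ ω T → ∀ (io : K →+* ℂ)
        (Ξ : Fin (ω T) → (σ → Fin (ω T + 1)) → Fin (ω T) → ℂ),
        Cov ⌊T ^ ((ω T : ℝ)⁻¹)⌋₊ ⌊T ^ ((ω T : ℝ)⁻¹)⌋₊
          ((fun (s : X → K) j => io (s j)) '' ExcM U f (InnerM U (ω T)) K io Ξ (ω T) T) ∧
        (ExcM U f (InnerM U (ω T)) K io Ξ (ω T) T).Finite ∧
        ((ExcM U f (InnerM U (ω T)) K io Ξ (ω T) T).ncard : ℝ) ≤
          T ^ ((ω T : ℝ)⁻¹) * ({x : K | Y120.HtLe K T x}.ncard : ℝ) ^ (Fintype.card X - 1) := by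
  classical
  let S : ℕ → ℝ → Prop := fun k T => ∀ (K : Type) [Field K] [NumberField K], Module.finrank ℚ K ≤ k →
    ∀ (io : K →+* ℂ) (Ξ : Fin k → (σ → Fin (k + 1)) → Fin k → ℂ),
      Cov ⌊T ^ ((k : ℝ)⁻¹)⌋₊ ⌊T ^ ((k : ℝ)⁻¹)⌋₊
          ((fun (s : X → K) j => io (s j)) '' ExcM U f (InnerM U k) K io Ξ k T) ∧
        (ExcM U f (InnerM U k) K io Ξ k T).Finite ∧
        ((ExcM U f (InnerM U k) K io Ξ k T).ncard : ℝ) ≤
          T ^ ((k : ℝ)⁻¹) * ({x : K | Y120.HtLe K T x}.ncard : ℝ) ^ (Fintype.card X - 1)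
  refine exists_omega S fun k => ?_
  set κ : ℝ := ((k + 1 : ℕ) : ℝ)⁻¹ with hκ
  have hκ0 : 0 < κ := by positivity
  obtain ⟨D, C, T₀, hC, hT₀, H⟩ := excM_cov stmZ stmClose stmCharts hU hUo hne hf hreg (InnerM U (k + 1))
    (innerM_compact _ _) (innerM_sub _ (Nat.succ_pos k)) (k + 1) (Fin (k + 1)) (Fin (k + 1)) (k + 1)
    ((k + 1 : ℕ) : ℝ) (κ / 3) (by positivity)
  -- constants are powers of `T`
  have hpow : ∀ C : ℝ, 0 ≤ C → ∃ T₁ : ℝ, ∀ T, 1 ≤ T → T₁ ≤ T → C ≤ T ^ (κ / 3) := by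
    intro C hC
    refine ⟨C ^ (3 * (k + 1)), fun T hT hT1 => ?_⟩
    have h4 : C = (C ^ (3 * (k + 1))) ^ (κ / 3) := by
      rw [← Real.rpow_natCast, ← Real.rpow_mul hC]
      have : ((3 * (k + 1) : ℕ) : ℝ) * (κ / 3) = 1 := by
        rw [hκ]
        push_cast
        have : ((k : ℝ) + 1) ≠ 0 := by positivity
        field_simp
      rw [this, Real.rpow_one]
    rw [h4]
    exact Real.rpow_le_rpow (by positivity) hT1 (by positivity)
  obtain ⟨T₁, hT₁⟩ := hpow C hC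
  obtain ⟨T₂, hT₂⟩ := hpow D (Nat.cast_nonneg _)
  refine ⟨max T₀ (max T₁ T₂), fun T hT K _ _ hK io Ξ => ?_⟩
  have h0 : T₀ ≤ T := (le_max_left _ _).trans hT
  have h1 : T₁ ≤ T := ((le_max_left _ _).trans (le_max_right _ _)).trans hT
  have h2 : T₂ ≤ T := ((le_max_right _ _).trans (le_max_right _ _)).trans hT
  have hT1 : 1 ≤ T := by linarith
  have hTp : 0 < T := by linarith
  have h3 := hT₁ T hT1 h1
  have h4 := hT₂ T hT1 h2
  have hcov := H K hK io Ξ T h0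
  have h5 : T ^ (κ / 3) * T ^ (κ / 3) ≤ T ^ κ := by
    rw [← Real.rpow_add hTp]
    exact Real.rpow_le_rpow_of_exponent_le hT1 (by linarith)
  have h6 : T ^ (κ / 3) ≤ T ^ κ := Real.rpow_le_rpow_of_exponent_le hT1 (by linarith)
  have hm : C * T ^ (κ / 3) ≤ T ^ (κ / 3) * T ^ (κ / 3) := mul_le_mul_of_nonneg_right h3 (by positivity)
  refine ⟨hcov.mono ?_ ?_ (Set.Subset.refl _), ?_⟩
  · exact Nat.le_floor (h4.trans h6)
  · exact Nat.floor_mono (hm.trans h5)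
  obtain ⟨h7, h8⟩ := cov_count io {x : K | Y120.HtLe K T x} (Y120.HtLe_fin K T) _ (fun s hs => hs.1) hcov
  refine ⟨h7, ?_⟩
  have h9 : ((⌊C * T ^ (κ / 3)⌋₊ : ℕ) : ℝ) ≤ T ^ (κ / 3) * T ^ (κ / 3) :=
    (Nat.floor_le (by positivity)).trans hm
  have h10 : ((ExcM U f (InnerM U (k + 1)) K io Ξ ((k + 1 : ℕ) : ℝ) T).ncard : ℝ) ≤
      (⌊C * T ^ (κ / 3)⌋₊ : ℝ) * (D * ({x : K | Y120.HtLe K T x}.ncard : ℝ) ^ (Fintype.card X - 1)) := by
    exact_mod_cast h8
  refine h10.trans ?_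
  rw [← mul_assoc]
  refine mul_le_mul_of_nonneg_right ?_ (by positivity)
  calc (⌊C * T ^ (κ / 3)⌋₊ : ℝ) * (D : ℝ) ≤ (T ^ (κ / 3) * T ^ (κ / 3)) * T ^ (κ / 3) :=
        mul_le_mul h9 h4 (Nat.cast_nonneg _) (by positivity)
    _ = T ^ κ := by
        rw [← Real.rpow_add hTp, ← Real.rpow_add hTp]
        congr 1
        ring

end Pool.Agent.Y890.MV
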