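import Pool.Agent.Y120.Loc
import Pool.Agent.Y124.Ultra

/-!
# Several complex variables: charts, analytic independence, and the statements of the parts

`cm x α = ∏ i, x i ^ α i` is the monomial (from `Y120.Star`), `mv` the monomial with exponent a finitely supported
function, `Cov D C S` says that `S` is covered by `C` hypersurfaces of degree at most `D` (`Y124.Ultra`).
-/

set_option autoImplicit false

open Finset Filter Topology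

namespace Pool.Agent.Y890.MV

open Pool.Agent.Y120 (cm mv)

/-- uniform families of functions of several variables with Taylor expansions -/
structure Charts (X σ : Type) [Fintype X] [DecidableEq X] where
  /-- index set -/
  Θ : Type
  /-- centres -/
  τ : Θ → X → ℂ
  /-- domains -/
  dom : Θ → Set (X → ℂ)
  /-- functions -/
  u : Θ → σ → (X → ℂ) → ℂ
  /-- Taylor coefficients of the monomials in the coordinates and the functions -/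
  a : Θ → (X ⊕ σ →₀ ℕ) → (X → ℕ) → ℂ
  τb : ∃ C : ℝ, ∀ θ i, ‖τ θ i‖ ≤ C
  ab : ∀ j p, ∃ C : ℝ, ∀ θ, ‖a θ j p‖ ≤ C
  approx : ∀ j P, ∃ C : ℝ, ∀ θ, ∀ t ∈ dom θ,
    ‖mv (Sum.elim t (fun i => u θ i t)) j -
      ∑ p : X → Fin P, a θ j (fun i => (p i : ℕ)) * cm (fun i => t i - τ θ i) (fun i => (p i : ℕ))‖ ≤
        C * ‖t - τ θ‖ ^ P
  nd : ∀ 𝓜 : Finset (X ⊕ σ →₀ ℕ), ∃ N₀ : ℕ, ∃ c₀ : ℝ, 0 < c₀ ∧ ∀ θ, ∀ g : (X ⊕ σ →₀ ℕ) → ℂ,
    ∃ p : X → ℕ, (∀ i, p i ≤ N₀) ∧ ∀ j ∈ 𝓜, c₀ * ‖g j‖ ≤ ‖∑ j' ∈ 𝓜, g j' * a θ j' p‖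

/-- the germs at `t0` of the coordinates and of the functions `f i` are algebraically independent over `ℂ` -/
def LocIndM {X σ : Type} (f : σ → (X → ℂ) → ℂ) (t0 : X → ℂ) : Prop :=
  ∀ P : MvPolynomial (X ⊕ σ) ℂ,
    (∀ᶠ t in 𝓝 t0, MvPolynomial.eval (Sum.elim t (fun i => f i t)) P = 0) → P = 0

/-! ## Statements of the parts -/

/-- A: Taylor expansions in several complex variables, with remainder uniform near a point -/
def StmTaylor : Prop :=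
  ∀ (X : Type) [Fintype X] [DecidableEq X], ∃ tcX : ((X → ℂ) → ℂ) → (X → ℕ) → (X → ℂ) → ℂ,
    (∀ (F : (X → ℂ) → ℂ) (c : X → ℂ) (α : X → ℕ), AnalyticAt ℂ F c → ContinuousAt (tcX F α) c) ∧
    (∀ (F : (X → ℂ) → ℂ) (c : X → ℂ) (P : ℕ), AnalyticAt ℂ F c → ∃ C ρ : ℝ, 0 ≤ C ∧ 0 < ρ ∧
      ∀ x : X → ℂ, ‖x - c‖ ≤ ρ → ∀ w : X → ℂ, ‖w‖ ≤ ρ →
        ‖F (x + w) - ∑ p : X → Fin P, tcX F (fun i => (p i : ℕ)) x * cm w (fun i => (p i : ℕ))‖ ≤ C * ‖w‖ ^ P) ∧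
    (∀ (F : (X → ℂ) → ℂ) (c : X → ℂ), AnalyticAt ℂ F c →
      (∀ P : ℕ, ∃ C ρ : ℝ, 0 < ρ ∧ ∀ w : X → ℂ, ‖w‖ ≤ ρ → ‖F (c + w)‖ ≤ C * ‖w‖ ^ P) → ∀ᶠ x in 𝓝 c, F x = 0)

/-- B: charts of functions which are analytic and independent on a compact set -/
def StmCharts : Prop :=
  ∀ (X σ : Type) [Fintype X] [DecidableEq X] [Fintype σ] [DecidableEq σ] (f : σ → (X → ℂ) → ℂ) (K : Set (X → ℂ)),
    IsCompact K → (∀ i, ∀ t ∈ K, AnalyticAt ℂ (f i) t) → (∀ t ∈ K, LocIndM f t) →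
    ∃ (Ch : Charts X σ) (r : ℝ), 0 < r ∧ ∀ t ∈ K, ∃ θ : Ch.Θ, Ch.τ θ = t ∧ Metric.closedBall t r ⊆ Ch.dom θ ∧
      Ch.u θ = f

/-- C1: determinants of vectors close to a space of small dimension, non-archimedean -/
def StmClose : Prop :=
  ∀ (K : Type) [Field K] (w : AbsoluteValue K ℝ), IsNonarchimedean w → ∀ (I B : Type) [Fintype I] [DecidableEq I]
    [Fintype B] [DecidableEq B] (V : I → I → K) (x : I → B → K) (Cv : B → I → K) (E : I → I → K) (Y Φ η : ℝ),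
    0 ≤ Y → 0 ≤ Φ → 0 ≤ η → η ≤ 1 → (∀ b a, V b a = (∑ β, x b β * Cv β a) + E b a) → (∀ b β, w (x b β) ≤ Y) →
    (∀ β a, w (Cv β a) ≤ Φ) → (∀ b a, w (E b a) ≤ Y * Φ * η) →
    w (Matrix.of V).det ≤ (Y * Φ) ^ Fintype.card I * η ^ (Fintype.card I - Fintype.card B)

/-- C2: a power series with integral coefficients, one of them a unit, is not small at infinitely many points in
general position -/
def StmZ : Prop :=
  ∀ (K : Type) [Field K] (w : AbsoluteValue K ℝ), IsNonarchimedean w → ∀ (X : Type) [Fintype X] [DecidableEq X]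
    [Nonempty X] (ρ Γ : ℝ), 0 < ρ → ρ < 1 → 0 < Γ → ∀ (x : ℕ → X → K) (τ : X → K),
    (∀ k i, w (x k i - τ i) ≤ ρ) → (∀ i, w (τ i) ≤ 1) →
    (∀ (N D : ℕ) (m : Fin N → X → ℕ), Function.Injective m → (∀ l i, m l i < D) → ∀ pts : Fin N → ℕ,
      Function.Injective pts → Γ ^ (N * D) ≤ w (Matrix.of fun a l => cm (x (pts a)) (m l)).det) →
    ∀ (f : ℕ → K) (b : (X → ℕ) → K), (∀ p, w (b p) ≤ 1) → (∃ p, w (b p) = 1) →
    (∀ (P : ℕ) (k : ℕ), w (f k - ∑ p : X → Fin P, b (fun i => (p i : ℕ)) *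
      cm (fun i => x k i - τ i) (fun i => (p i : ℕ))) ≤ ρ ^ P) →
    ∃ h : ℝ, 0 < h ∧ {k | w (f k) < h}.Finite

end Pool.Agent.Y890.MV
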