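import Pool.Agent.Y890.SP.BN
import Pool.Agent.Y890.MV.Base

/-!
# The field generated by analytic functions of several variables
-/

set_option autoImplicit false
set_option linter.unusedSectionVars false

open Polynomial Filter Topology

namespace Pool.Agent.Y890.MV

/-- the value at `x` of a polynomial in the functions `f` with coefficients in `ℂ[x_i, i ∈ X]` -/
noncomputable def evM {X σ : Type} (f : σ → (X → ℂ) → ℂ) (x : X → ℂ) (p : MvPolynomial σ (MvPolynomial X ℂ)) : ℂ :=
  MvPolynomial.eval₂ (MvPolynomial.eval x) (fun i => f i x) p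

/-- `ℂ(x)` is algebraically closed in the field generated by the coordinates `x` and the functions `f` on `U`: if on
some nonempty open set `V ⊆ U` an analytic function `g` is a quotient of polynomials in `x` and `f`, and is algebraic
over `ℂ(x)`, then it is a rational function of `x` -/
def RegularM {X σ : Type} [Fintype X] (U : Set (X → ℂ)) (f : σ → (X → ℂ) → ℂ) : Prop :=
  ∀ (V : Set (X → ℂ)) (g : (X → ℂ) → ℂ) (P Q : MvPolynomial σ (MvPolynomial X ℂ)) (R : (MvPolynomial X ℂ)[X]),
    IsOpen V → V.Nonempty → V ⊆ U → AnalyticOnNhd ℂ g V → R ≠ 0 → (∀ x ∈ V, evM f x Q ≠ 0) →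
    (∀ x ∈ V, evM f x Q * g x = evM f x P) →
    (∀ x ∈ V, (R.map (MvPolynomial.eval x)).eval (g x) = 0) →
    ∃ p q : MvPolynomial X ℂ, q ≠ 0 ∧ ∀ x ∈ V, MvPolynomial.eval x q * g x = MvPolynomial.eval x p

variable {X σ : Type} [Fintype X] {U : Set (X → ℂ)} {f : σ → (X → ℂ) → ℂ}

theorem evM_add (x : X → ℂ) (p q : MvPolynomial σ (MvPolynomial X ℂ)) : evM f x (p + q) = evM f x p + evM f x q :=
  MvPolynomial.eval₂_add _ _

theorem evM_mul (x : X → ℂ) (p q : MvPolynomial σ (MvPolynomial X ℂ)) : evM f x (p * q) = evM f x p * evM f x q :=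
  MvPolynomial.eval₂_mul _ _

theorem evM_C (x : X → ℂ) (a : MvPolynomial X ℂ) : evM f x (MvPolynomial.C a) = MvPolynomial.eval x a :=
  MvPolynomial.eval₂_C _ _ _

theorem evM_X (x : X → ℂ) (i : σ) : evM f x (MvPolynomial.X i) = f i x := MvPolynomial.eval₂_X _ _ _

theorem evM_an (hf : ∀ i, AnalyticOnNhd ℂ (f i) U) (p : MvPolynomial σ (MvPolynomial X ℂ)) :
    AnalyticOnNhd ℂ (fun x => evM f x p) U := by
  intro x hx
  induction p using MvPolynomial.induction_on with
  | C a =>
    have h1 : (fun x => evM f x (MvPolynomial.C a)) = fun x => MvPolynomial.eval x a := by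
      funext x
      rw [evM_C]
    rw [h1]
    exact (AnalyticOnNhd.eval_mvPolynomial a) x trivial
  | add p q hp hq =>
    have h1 : (fun x => evM f x (p + q)) = fun x => evM f x p + evM f x q := funext fun x => evM_add x p q
    rw [h1]
    exact hp.add hq
  | mul_X p i hp =>
    have h1 : (fun x => evM f x (p * MvPolynomial.X i)) = fun x => evM f x p * f i x := by
      funext x
      rw [evM_mul, evM_X]
    rw [h1]
    exact hp.mul (hf i x hx)

/-- a product of analytic functions on a connected set vanishes only if one factor does -/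
theorem zero_or_zero {f g : (X → ℂ) → ℂ} (hf : AnalyticOnNhd ℂ f U) (hg : AnalyticOnNhd ℂ g U) (hU : IsPreconnected U)
    (h : ∀ᶠ x in 𝓝ˢ U, f x * g x = 0) : (∀ x ∈ U, f x = 0) ∨ ∀ x ∈ U, g x = 0 := by
  by_contra hcon
  push Not at hcon
  obtain ⟨⟨x0, hx0, hfx0⟩, x1, hx1, hgx1⟩ := hcon
  apply hgx1
  have h1 : ∀ᶠ x in 𝓝 x0, f x ≠ 0 := (hf x0 hx0).continuousAt.eventually_ne hfx0
  have h2 : ∀ᶠ x in 𝓝 x0, f x * g x = 0 := h.filter_mono (nhds_le_nhdsSet hx0)
  have h3 : ∀ᶠ x in 𝓝 x0, g x = 0 := by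
    filter_upwards [h1, h2] with x ha hb
    exact (mul_eq_zero.1 hb).resolve_left ha
  exact hg.eqOn_zero_of_preconnected_of_eventuallyEq_zero hU hx0 h3 hx1

/-- a polynomial which vanishes on a nonempty open set is zero -/
theorem poly_zero (hUo : IsOpen U) (hne : U.Nonempty) (a : MvPolynomial X ℂ)
    (h : ∀ x ∈ U, MvPolynomial.eval x a = 0) : a = 0 := by
  obtain ⟨x0, hx0⟩ := hne
  obtain ⟨r, hr, hball⟩ := Metric.isOpen_iff.1 hUo x0 hx0
  refine MvPolynomial.funext_set (fun i => Metric.ball (x0 i) r) (fun i => ?_) ?_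
  · exact infinite_of_mem_nhds (x0 i) (Metric.ball_mem_nhds _ hr)
  · intro x hx
    rw [map_zero]
    apply h x
    apply hball
    rw [Metric.mem_ball, dist_pi_lt_iff hr]
    intro i
    exact hx i trivial

/-- the relations between the functions -/
noncomputable def relM (U : Set (X → ℂ)) (f : σ → (X → ℂ) → ℂ) : Ideal (MvPolynomial σ (MvPolynomial X ℂ)) where
  carrier := {p | ∀ x ∈ U, evM f x p = 0}
  add_mem' := by
    intro p q hp hq x hx
    rw [evM_add, hp x hx, hq x hx, add_zero]
  zero_mem' := fun x _ => MvPolynomial.eval₂_zero _ _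
  smul_mem' := by
    intro p q hq x hx
    rw [smul_eq_mul, evM_mul, hq x hx, mul_zero]

theorem relM_prime (hU : IsPreconnected U) (hUo : IsOpen U) (hne : U.Nonempty) (hf : ∀ i, AnalyticOnNhd ℂ (f i) U) :
    (relM U f).IsPrime := by
  refine ⟨?_, ?_⟩
  · rw [Ideal.ne_top_iff_one]
    intro h
    obtain ⟨x, hx⟩ := hne
    have h1 := h x hx
    simp [evM] at h1
  · intro p q hpq
    refine zero_or_zero (evM_an hf p) (evM_an hf q) hU ?_
    rw [hUo.nhdsSet_eq, eventually_principal]
    intro x hx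
    rw [← evM_mul]
    exact hpq x hx

/-- the field generated by the functions -/
theorem exists_fieldM (hU : IsPreconnected U) (hUo : IsOpen U) (hne : U.Nonempty)
    (hf : ∀ i, AnalyticOnNhd ℂ (f i) U) :
    ∃ (L : Type) (_ : Field L) (_ : Algebra (MvPolynomial X ℂ) L) (_ : FaithfulSMul (MvPolynomial X ℂ) L) (F : σ → L),
      (∀ p : MvPolynomial σ (MvPolynomial X ℂ), MvPolynomial.aeval F p = 0 ↔ ∀ x ∈ U, evM f x p = 0) ∧
      ∀ l : L, ∃ p q : MvPolynomial σ (MvPolynomial X ℂ), MvPolynomial.aeval F q ≠ 0 ∧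
        MvPolynomial.aeval F q * l = MvPolynomial.aeval F p := by
  classical
  have hprime : (relM U f).IsPrime := relM_prime hU hUo hne hf
  let A : Type := MvPolynomial X ℂ
  let B : Type := MvPolynomial σ (MvPolynomial X ℂ) ⧸ relM U f
  let iB : CommRing B := Ideal.Quotient.commRing (relM U f)
  have hdom : IsDomain B := Ideal.Quotient.isDomain (relM U f)
  let L : Type := FractionRing B
  let F : σ → L := fun i => algebraMap B L (Ideal.Quotient.mk (relM U f) (MvPolynomial.X i))
  have hF : ∀ p : MvPolynomial σ (MvPolynomial X ℂ),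
      MvPolynomial.aeval F p = algebraMap B L (Ideal.Quotient.mk (relM U f) p) := by
    intro p
    induction p using MvPolynomial.induction_on with
    | C a =>
      rw [MvPolynomial.aeval_C, IsScalarTower.algebraMap_apply (MvPolynomial X ℂ) B L]
      rfl
    | add p q hp hq => rw [map_add, map_add, map_add, hp, hq]
    | mul_X p i hp => rw [map_mul, map_mul, map_mul, hp, MvPolynomial.aeval_X]
  have hinj : Function.Injective (algebraMap B L) := IsFractionRing.injective B L
  have hz : ∀ p : MvPolynomial σ (MvPolynomial X ℂ), MvPolynomial.aeval F p = 0 ↔ ∀ x ∈ U, evM f x p = 0 := by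
    intro p
    rw [hF, map_eq_zero_iff _ hinj, Ideal.Quotient.eq_zero_iff_mem]
    rfl
  refine ⟨L, inferInstance, inferInstance, ?_, F, hz, ?_⟩
  · rw [faithfulSMul_iff_algebraMap_injective, injective_iff_map_eq_zero]
    intro a ha
    have h1 : MvPolynomial.aeval F (MvPolynomial.C a) = 0 := by
      rw [MvPolynomial.aeval_C]
      exact ha
    rw [hz] at h1
    refine poly_zero hUo hne a fun x hx => ?_
    rw [← evM_C (f := f)]
    exact h1 x hx
  · intro l
    obtain ⟨a, b, hb, rfl⟩ := IsFractionRing.div_surjective (A := B) l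
    obtain ⟨p, rfl⟩ := Ideal.Quotient.mk_surjective a
    obtain ⟨q, rfl⟩ := Ideal.Quotient.mk_surjective b
    have hq : MvPolynomial.aeval F q ≠ 0 := by
      rw [hF, Ne, map_eq_zero_iff _ hinj]
      exact nonZeroDivisors.ne_zero hb
    refine ⟨p, q, hq, ?_⟩
    rw [← hF, ← hF, mul_div_cancel₀ _ hq]

theorem isOpen_neM (hUo : IsOpen U) (hf : ∀ i, AnalyticOnNhd ℂ (f i) U) (q : MvPolynomial σ (MvPolynomial X ℂ)) :
    IsOpen {x | x ∈ U ∧ evM f x q ≠ 0} := by
  have h1 : ContinuousOn (fun x => evM f x q) U := (evM_an hf q).continuousOn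
  exact h1.isOpen_inter_preimage hUo isOpen_compl_singleton

/-- regularity in terms of the field -/
theorem reg_fieldM (hU : IsPreconnected U) (hUo : IsOpen U) (hf : ∀ i, AnalyticOnNhd ℂ (f i) U)
    (hreg : RegularM U f) {L : Type} [Field L] [Algebra (MvPolynomial X ℂ) L] [FaithfulSMul (MvPolynomial X ℂ) L]
    (F : σ → L)
    (hz : ∀ p : MvPolynomial σ (MvPolynomial X ℂ), MvPolynomial.aeval F p = 0 ↔ ∀ x ∈ U, evM f x p = 0)
    (hfrac : ∀ l : L, ∃ p q : MvPolynomial σ (MvPolynomial X ℂ), MvPolynomial.aeval F q ≠ 0 ∧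
        MvPolynomial.aeval F q * l = MvPolynomial.aeval F p) (a : L) (ha : IsAlgebraic (MvPolynomial X ℂ) a) :
    ∃ p q : MvPolynomial X ℂ, q ≠ 0 ∧
      algebraMap (MvPolynomial X ℂ) L q * a = algebraMap (MvPolynomial X ℂ) L p := by
  classical
  obtain ⟨P, Q, hQ, hPQ⟩ := hfrac a
  obtain ⟨R, hR, hRa⟩ := ha
  set V : Set (X → ℂ) := {x | x ∈ U ∧ evM f x Q ≠ 0} with hV
  have hVo : IsOpen V := isOpen_neM hUo hf Q
  have hVne : V.Nonempty := by
    by_contra hcon
    apply hQ
    rw [hz]
    intro x hx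
    by_contra hne
    exact hcon ⟨x, hx, hne⟩
  let g : (X → ℂ) → ℂ := fun x => evM f x P / evM f x Q
  have hg : AnalyticOnNhd ℂ g V := fun x hx => (evM_an hf P x hx.1).div (evM_an hf Q x hx.1) hx.2
  -- the homogenized equation
  set n := R.natDegree with hn
  let W : MvPolynomial σ (MvPolynomial X ℂ) :=
    ∑ i ∈ Finset.range (n + 1), MvPolynomial.C (R.coeff i) * P ^ i * Q ^ (n - i)
  have hW : MvPolynomial.aeval F W = 0 := by
    have h1 : MvPolynomial.aeval F W = MvPolynomial.aeval F Q ^ n * aeval a R := by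
      rw [aeval_eq_sum_range, map_sum, Finset.mul_sum]
      refine Finset.sum_congr rfl fun i hi => ?_
      have hi' : i ≤ n := Nat.lt_succ_iff.1 (Finset.mem_range.1 hi)
      rw [map_mul, map_mul, map_pow, map_pow, MvPolynomial.aeval_C, ← hPQ, Algebra.smul_def]
      have h2 : (MvPolynomial.aeval F Q : L) ^ n = MvPolynomial.aeval F Q ^ i * MvPolynomial.aeval F Q ^ (n - i) := by
        rw [← pow_add]
        congr 1
        omega
      rw [h2]
      ring
    rw [h1, hRa, mul_zero]
  rw [hz] at hW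
  obtain ⟨p, q, hq, hpq⟩ := hreg V g P Q R hVo hVne (fun x hx => hx.1) hg hR (fun x hx => hx.2)
    (fun x hx => mul_div_cancel₀ _ hx.2) (by
      intro x hx
      have h1 := hW x hx.1
      have h2 : evM f x W = evM f x Q ^ n * (R.map (MvPolynomial.eval x)).eval (g x) := by
        have h3 : evM f x W = ∑ i ∈ Finset.range (n + 1),
            MvPolynomial.eval x (R.coeff i) * evM f x P ^ i * evM f x Q ^ (n - i) := by
          simp only [evM, W, MvPolynomial.eval₂_sum, MvPolynomial.eval₂_mul, MvPolynomial.eval₂_pow,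
            MvPolynomial.eval₂_C]
        rw [h3, eval_map, eval₂_eq_sum_range, Finset.mul_sum]
        refine Finset.sum_congr rfl fun i hi => ?_
        have hi' : i ≤ n := Nat.lt_succ_iff.1 (Finset.mem_range.1 hi)
        have h4 : evM f x Q ^ n = evM f x Q ^ i * evM f x Q ^ (n - i) := by
          rw [← pow_add]
          congr 1
          omega
        have h5 : evM f x P = evM f x Q * g x := (mul_div_cancel₀ _ hx.2).symm
        rw [h4, h5]
        ring
      rw [h2] at h1
      rcases mul_eq_zero.1 h1 with h3 | h3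
      · exact absurd h3 (pow_ne_zero _ hx.2)
      · exact h3)
  refine ⟨p, q, hq, ?_⟩
  have h1 : MvPolynomial.aeval F (MvPolynomial.C q * P - MvPolynomial.C p * Q) = 0 := by
    rw [hz]
    have h2 := evM_an hf (MvPolynomial.C q * P - MvPolynomial.C p * Q)
    obtain ⟨x0, hx0⟩ := hVne
    have h3 : ∀ᶠ x in 𝓝 x0, evM f x (MvPolynomial.C q * P - MvPolynomial.C p * Q) = 0 := by
      filter_upwards [hVo.mem_nhds hx0] with x hx
      have h4 := hpq x hx
      have h5 : evM f x P = evM f x Q * g x := (mul_div_cancel₀ _ hx.2).symm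
      have h6 : evM f x (MvPolynomial.C q * P - MvPolynomial.C p * Q) =
          MvPolynomial.eval x q * evM f x P - MvPolynomial.eval x p * evM f x Q := by
        simp [evM]
      rw [h6, h5, ← h4]
      ring
    exact h2.eqOn_zero_of_preconnected_of_eventuallyEq_zero hU hx0.1 h3
  rw [map_sub, map_mul, map_mul, MvPolynomial.aeval_C, MvPolynomial.aeval_C, ← hPQ, sub_eq_zero] at h1
  have h2 : MvPolynomial.aeval F Q * (algebraMap (MvPolynomial X ℂ) L q * a) =
      MvPolynomial.aeval F Q * algebraMap (MvPolynomial X ℂ) L p := by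
    rw [← mul_comm (algebraMap (MvPolynomial X ℂ) L p), ← h1]
    ring
  exact mul_left_cancel₀ hQ h2

theorem ev_sum {I : Type} (ι : I → σ) (P : MvPolynomial (I ⊕ X) ℂ) (t : X → ℂ) :
    evM f t (MvPolynomial.rename ι (MvPolynomial.sumAlgEquiv ℂ I X P)) =
      MvPolynomial.eval (Sum.elim (fun y => f (ι y) t) t) P := by
  have h1 : (MvPolynomial.eval₂Hom (MvPolynomial.eval t) (fun i => f i t)).comp
      ((MvPolynomial.rename ι : MvPolynomial I (MvPolynomial X ℂ) →ₐ[MvPolynomial X ℂ]
        MvPolynomial σ (MvPolynomial X ℂ)).toRingHom.comp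
        (MvPolynomial.sumAlgEquiv ℂ I X).toAlgHom.toRingHom) =
      MvPolynomial.eval (Sum.elim (fun y => f (ι y) t) t) := by
    refine MvPolynomial.ringHom_ext ?_ ?_
    · intro a
      change MvPolynomial.eval₂Hom (MvPolynomial.eval t) (fun i => f i t)
        (MvPolynomial.rename ι (MvPolynomial.sumAlgEquiv ℂ I X (MvPolynomial.C a))) = _
      simp
    · intro o
      change MvPolynomial.eval₂Hom (MvPolynomial.eval t) (fun i => f i t)
        (MvPolynomial.rename ι (MvPolynomial.sumAlgEquiv ℂ I X (MvPolynomial.X o))) = _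
      cases o with
      | inl i => simp
      | inr i => simp
  exact RingHom.congr_fun h1 P

/-- local independence of the chosen coordinates -/
theorem locIndM_of (hU : IsPreconnected U) (hf : ∀ i, AnalyticOnNhd ℂ (f i) U) {L : Type} [Field L]
    [Algebra (MvPolynomial X ℂ) L]
    (F : σ → L) (hz : ∀ p : MvPolynomial σ (MvPolynomial X ℂ), MvPolynomial.aeval F p = 0 ↔ ∀ x ∈ U, evM f x p = 0)
    {I : Type} (ι : I → σ) (hind : AlgebraicIndependent (MvPolynomial X ℂ) (F ∘ ι)) (t0 : X → ℂ) (ht0 : t0 ∈ U) :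
    LocIndM (fun i t => f (ι i) t) t0 := by
  intro P hP
  set P' : MvPolynomial (I ⊕ X) ℂ := MvPolynomial.rename Sum.swap P with hP'
  set p := MvPolynomial.sumAlgEquiv ℂ I X P' with hp
  have hev : ∀ t, evM f t (MvPolynomial.rename ι p) =
      MvPolynomial.eval (Sum.elim t (fun i => f (ι i) t)) P := by
    intro t
    rw [hp, ev_sum ι P' t, hP', MvPolynomial.eval_rename]
    congr 2
    funext o
    rcases o with i | i <;> rfl
  have h1 : ∀ x ∈ U, evM f x (MvPolynomial.rename ι p) = 0 := by
    have h2 := evM_an hf (MvPolynomial.rename ι p)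
    refine h2.eqOn_zero_of_preconnected_of_eventuallyEq_zero hU ht0 ?_
    filter_upwards [hP] with t ht
    rw [hev]
    exact ht
  rw [← hz, MvPolynomial.aeval_rename] at h1
  have h2 : p = 0 := (algebraicIndependent_iff.1 hind) p h1
  have h3 : P' = 0 := (MvPolynomial.sumAlgEquiv ℂ I X).injective (h2.trans (map_zero _).symm)
  have hinj : Function.Injective (MvPolynomial.rename (R := ℂ) (Sum.swap : X ⊕ I → I ⊕ X)) :=
    MvPolynomial.rename_injective _ (Sum.swap_leftInverse.injective)
  exact hinj (h3.trans (map_zero _).symm)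

end Pool.Agent.Y890.MV
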