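import Pool.Agent.Y890.MV.TorSig

/-!
# Sparsity of the points with exceptional relations, for families with torsors
-/

set_option autoImplicit false
set_option linter.unusedSectionVars false

open NumberField Filter

namespace Pool.Agent.Y890.MV

open Pool.Agent.Y890.SP (exists_omega Qbar)
open Pool.Agent.Y124 (Cov)

/-- points at which some relation with small coefficients holds which does not hold on the torsor -/
def ExcT {X σ h : Type} [Fintype σ] [DecidableEq σ] [Fintype h] (δ : ℕ) (f : σ → (X → ℂ) → ℂ)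
    (Tor : (X → ℂ) → Set (σ → ℂ)) (Lc : Set (X → ℂ)) (K : Type) [Field K] [NumberField K] (io : K →+* ℂ)
    (ξ : h → ℂ) (A T : ℝ) : Set (X → K) :=
  {s | (∀ j, Y120.HtLe K T (s j)) ∧ (fun j => io (s j)) ∈ Lc ∧ ∃ c : (σ → Fin (δ + 1)) → h → 𝓞 K,
    (∀ l i (φ : K →+* ℂ), ‖φ (c l i : K)‖ ≤ T ^ A) ∧
    ∑ l, (∑ i, ξ i * io (c l i : K)) * ∏ y, f y (fun j => io (s j)) ^ (l y : ℕ) = 0 ∧
    ¬ ∀ Y ∈ Tor (fun j => io (s j)), ∑ l, (∑ i, ξ i * io (c l i : K)) * ∏ y, Y y ^ (l y : ℕ) = 0}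

theorem excT_sub {X σ h : Type} [Fintype X] [Fintype σ] [DecidableEq σ] [Fintype h] [DecidableEq h] (δ : ℕ)
    {U : Set (X → ℂ)} {f : σ → (X → ℂ) → ℂ} {Tor : (X → ℂ) → Set (σ → ℂ)} (hT : TorM U f Tor)
    {Lc : Set (X → ℂ)} (hLU : Lc ⊆ U) (K : Type) [Field K] [NumberField K] (io : K →+* ℂ) (ξ : h → ℂ) (A T : ℝ) :
    ExcT δ f Tor Lc K io ξ A T ⊆
      ExcM (h := (σ → Fin (δ + 1)) × h) (r := Unit) U f Lc K io (fun _ l p => if p.1 = l then ξ p.2 else 0) A T := by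
  classical
  rintro s ⟨h1, h2, c, h3, h4, h5⟩
  have hsum : ∀ (w : (σ → Fin (δ + 1)) × h → ℂ) (l : σ → Fin (δ + 1)),
      ∑ p : (σ → Fin (δ + 1)) × h, (if p.1 = l then ξ p.2 else 0) * w p = ∑ i, ξ i * w (l, i) := by
    intro w l
    rw [Fintype.sum_prod_type, Finset.sum_eq_single l]
    · simp
    · intro b _ hb
      simp [hb]
    · simp
  refine ⟨h1, h2, fun p => c p.1 p.2, fun p φ => h3 p.1 p.2 φ, ?_, ?_⟩
  · intro _
    simp only [hsum]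
    exact h4
  · rintro ⟨G, hG1, hG2⟩
    apply h5
    set P : MvPolynomial σ (MvPolynomial X ℂ) := ∑ l : σ → Fin (δ + 1),
      MvPolynomial.C (∑ i, MvPolynomial.C (ξ i) * MvPolynomial.map (algebraMap Qbar ℂ) (G (l, i))) *
        ∏ y, MvPolynomial.X y ^ (l y : ℕ) with hP
    have hev : ∀ (x : X → ℂ) (Y : σ → ℂ), evX x Y P =
        ∑ l, (∑ i, ξ i * MvPolynomial.aeval x (G (l, i))) * ∏ y, Y y ^ (l y : ℕ) := by
      intro x Y
      have h6 : evX x Y P = MvPolynomial.eval₂Hom (MvPolynomial.eval x) Y P := rfl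
      rw [h6, hP]
      simp only [map_sum, map_mul, map_prod, map_pow, MvPolynomial.eval₂Hom_C, MvPolynomial.eval₂Hom_X',
        MvPolynomial.eval_C, MvPolynomial.eval_map]
      rfl
    have h6 : ∀ x ∈ U, evM f x P = 0 := by
      intro x hx
      have h7 := hG2 x hx ()
      simp only [hsum] at h7
      rw [evM_eq, hev]
      exact h7
    intro Y hY
    have h7 := hT.inv P h6 _ (hLU h2) Y hY
    rw [hev] at h7
    simp only [hG1] at h7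
    exact h7

/-- all parameters at once -/
theorem omega_gen {X : Type} [Fintype X] [DecidableEq X] [Nonempty X] (P : ℕ → Type)
    (E : ∀ (k : ℕ) (K : Type) [Field K] [NumberField K], (K →+* ℂ) → P k → ℝ → Set (X → K))
    (hE : ∀ (k : ℕ) (K : Type) [Field K] [NumberField K] (io : K →+* ℂ) (p : P k) (T : ℝ),
      ∀ s ∈ E k K io p T, ∀ j, Y120.HtLe K T (s j))
    (H : ∀ (k : ℕ) (ε : ℝ), 0 < ε → ∃ (D : ℕ) (C T₀ : ℝ), 0 ≤ C ∧ 2 ≤ T₀ ∧
      ∀ (K : Type) [Field K] [NumberField K], Module.finrank ℚ K ≤ k → ∀ (io : K →+* ℂ) (p : P k) (T : ℝ),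
        T₀ ≤ T → Cov D ⌊C * T ^ ε⌋₊ ((fun (s : X → K) j => io (s j)) '' E k K io p T)) :
    ∃ (ω : ℝ → ℕ) (T₀ : ℝ), Tendsto ω atTop atTop ∧ Monotone ω ∧ ∀ T, T₀ ≤ T → 0 < ω T ∧
      ∀ (K : Type) [Field K] [NumberField K], Module.finrank ℚ K ≤ ω T → ∀ (io : K →+* ℂ) (p : P (ω T)),
        Cov ⌊T ^ ((ω T : ℝ)⁻¹)⌋₊ ⌊T ^ ((ω T : ℝ)⁻¹)⌋₊ ((fun (s : X → K) j => io (s j)) '' E (ω T) K io p T) ∧
        (E (ω T) K io p T).Finite ∧
        ((E (ω T) K io p T).ncard : ℝ) ≤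
          T ^ ((ω T : ℝ)⁻¹) * ({x : K | Y120.HtLe K T x}.ncard : ℝ) ^ (Fintype.card X - 1) := by
  classical
  let S : ℕ → ℝ → Prop := fun k T => ∀ (K : Type) [Field K] [NumberField K], Module.finrank ℚ K ≤ k →
    ∀ (io : K →+* ℂ) (p : P k),
      Cov ⌊T ^ ((k : ℝ)⁻¹)⌋₊ ⌊T ^ ((k : ℝ)⁻¹)⌋₊ ((fun (s : X → K) j => io (s j)) '' E k K io p T) ∧
        (E k K io p T).Finite ∧
        ((E k K io p T).ncard : ℝ) ≤
          T ^ ((k : ℝ)⁻¹) * ({x : K | Y120.HtLe K T x}.ncard : ℝ) ^ (Fintype.card X - 1)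
  refine exists_omega S fun k => ?_
  set κ : ℝ := ((k + 1 : ℕ) : ℝ)⁻¹ with hκ
  have hκ0 : 0 < κ := by positivity
  obtain ⟨D, C, T₀, hC, hT₀, H⟩ := H (k + 1) (κ / 3) (by positivity)
  -- constants are powers of `T`
  have hpow : ∀ C : ℝ, 0 ≤ C → ∃ T₁ : ℝ, ∀ T, 1 ≤ T → T₁ ≤ T → C ≤ T ^ (κ / 3) := by
    intro C hC
    refine ⟨C ^ (3 * (k + 1)), fun T hT hT1 => ?_⟩
    have h4 : C = (C ^ (3 * (k + 1))) ^ (κ / 3) := by
      rw [← Real.rpow_natCast, ← Real.rpow_mul hC]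
      have : ((3 * (k + 1) : ℕ) : ℝ) * (κ / 3) = 1 := by
        rw [hκ]
        push_cast
        have : ((k : ℝ) + 1) ≠ 0 := by positivity
        field_simp
      rw [this, Real.rpow_one]
    rw [h4]
    exact Real.rpow_le_rpow (by positivity) hT1 (by positivity)
  obtain ⟨T₁, hT₁⟩ := hpow C hC
  obtain ⟨T₂, hT₂⟩ := hpow D (Nat.cast_nonneg _)
  refine ⟨max T₀ (max T₁ T₂), fun T hT K _ _ hK io p => ?_⟩
  have h0 : T₀ ≤ T := (le_max_left _ _).trans hT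
  have h1 : T₁ ≤ T := ((le_max_left _ _).trans (le_max_right _ _)).trans hT
  have h2 : T₂ ≤ T := ((le_max_right _ _).trans (le_max_right _ _)).trans hT
  have hT1 : 1 ≤ T := by linarith
  have hTp : 0 < T := by linarith
  have h3 := hT₁ T hT1 h1
  have h4 := hT₂ T hT1 h2
  have hcov := H K hK io p T h0
  have h5 : T ^ (κ / 3) * T ^ (κ / 3) ≤ T ^ κ := by
    rw [← Real.rpow_add hTp]
    exact Real.rpow_le_rpow_of_exponent_le hT1 (by linarith)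
  have h6 : T ^ (κ / 3) ≤ T ^ κ := Real.rpow_le_rpow_of_exponent_le hT1 (by linarith)
  have hm : C * T ^ (κ / 3) ≤ T ^ (κ / 3) * T ^ (κ / 3) := mul_le_mul_of_nonneg_right h3 (by positivity)
  refine ⟨hcov.mono ?_ ?_ (Set.Subset.refl _), ?_⟩
  · exact Nat.le_floor (h4.trans h6)
  · exact Nat.floor_mono (hm.trans h5)
  obtain ⟨h7, h8⟩ := cov_count io {x : K | Y120.HtLe K T x} (Y120.HtLe_fin K T) _
    (fun s hs => hE _ _ _ _ _ s hs) hcov
  refine ⟨h7, ?_⟩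
  have h9 : ((⌊C * T ^ (κ / 3)⌋₊ : ℕ) : ℝ) ≤ T ^ (κ / 3) * T ^ (κ / 3) :=
    (Nat.floor_le (by positivity)).trans hm
  have h10 : ((E (k + 1) K io p T).ncard : ℝ) ≤
      (⌊C * T ^ (κ / 3)⌋₊ : ℝ) * (D * ({x : K | Y120.HtLe K T x}.ncard : ℝ) ^ (Fintype.card X - 1)) := by
    exact_mod_cast h8
  refine h10.trans ?_
  rw [← mul_assoc]
  refine mul_le_mul_of_nonneg_right ?_ (by positivity)
  calc (⌊C * T ^ (κ / 3)⌋₊ : ℝ) * (D : ℝ) ≤ (T ^ (κ / 3) * T ^ (κ / 3)) * T ^ (κ / 3) :=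
        mul_le_mul h9 h4 (Nat.cast_nonneg _) (by positivity)
    _ = T ^ κ := by
        rw [← Real.rpow_add hTp, ← Real.rpow_add hTp]
        congr 1
        ring

/-- **Sparsity of exceptional relations, families with torsors.** -/
theorem excT_cov {X σ : Type} [Fintype X] [DecidableEq X] [Nonempty X] [Fintype σ] [DecidableEq σ]
    {U : Set (X → ℂ)} {f : σ → (X → ℂ) → ℂ} {Tor : (X → ℂ) → Set (σ → ℂ)} (hU : IsPreconnected U)
    (hUo : IsOpen U) (hne : U.Nonempty) (hf : ∀ i, AnalyticOnNhd ℂ (f i) U) (hT : TorM U f Tor) (Lc : Set (X → ℂ))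
    (hLc : IsCompact Lc) (hLU : Lc ⊆ U) (δ : ℕ) (h : Type) [Fintype h] [DecidableEq h] (m : ℕ) (A ε : ℝ)
    (hε : 0 < ε) : ∃ (D : ℕ) (C T₀ : ℝ), 0 ≤ C ∧ 2 ≤ T₀ ∧
      ∀ (K : Type) [Field K] [NumberField K], Module.finrank ℚ K ≤ m → ∀ (io : K →+* ℂ) (ξ : h → ℂ) (T : ℝ),
        T₀ ≤ T → Cov D ⌊C * T ^ ε⌋₊ ((fun (s : X → K) j => io (s j)) '' ExcT δ f Tor Lc K io ξ A T) := by
  classical
  obtain ⟨D, C, T₀, hC, hT₀, H⟩ := excM_cov stmZ stmClose stmCharts hU hUo hne hf (hT.reg hU hf) Lc hLc hLU δ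
    ((σ → Fin (δ + 1)) × h) Unit m A ε hε
  refine ⟨D, C, T₀, hC, hT₀, fun K _ _ hK io ξ T hT0 => ?_⟩
  exact (H K hK io (fun _ l p => if p.1 = l then ξ p.2 else 0) T hT0).mono le_rfl le_rfl
    (Set.image_mono (excT_sub δ hT hLU K io ξ A T))

end Pool.Agent.Y890.MV
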