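import Pool.Agent.Y890.MV.Star

/-!
# The abstract theorem in several variables (adapted from `Y120.Abs`)
-/

set_option autoImplicit false

open Finset Filter

namespace Pool.Agent.Y890.MV

open Pool.Agent.Y120 (cm mv eval_mv w_sum_le coeff_bound exists_points)

section
variable {K : Type} [Field K] {w : AbsoluteValue K ℝ} {X τ : Type}

/-- Taylor coefficients of a polynomial in the functions -/
noncomputable def tcm (a : (τ →₀ ℕ) → (X → ℕ) → K) (G : MvPolynomial τ K) (p : X → ℕ) : K :=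
  ∑ j ∈ G.support, G.coeff j * a j p

theorem tcm_le (hw : IsNonarchimedean w) (a : (τ →₀ ℕ) → (X → ℕ) → K) (ha : ∀ j p, w (a j p) ≤ 1)
    (G : MvPolynomial τ K) (M : ℝ) (hM : 0 ≤ M) (hG : ∀ j, w (G.coeff j) ≤ M) (p : X → ℕ) : w (tcm a G p) ≤ M := by
  refine w_sum_le hw _ _ _ hM fun j _ => ?_
  rw [map_mul]
  calc w (G.coeff j) * w (a j p) ≤ M * 1 := mul_le_mul (hG j) (ha j p) (w.nonneg _) hM
    _ = M := mul_one M

theorem tcm_approx [Fintype X] [DecidableEq X] (hw : IsNonarchimedean w) {ρ : ℝ} (hρ0 : 0 < ρ)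
    (a : (τ →₀ ℕ) → (X → ℕ) → K) (y : ℕ → τ → K) (z : ℕ → X → K)
    (hf : ∀ j (P k : ℕ), w (mv (y k) j - ∑ p : X → Fin P, a j (fun i => (p i : ℕ)) * cm (z k) (fun i => (p i : ℕ))) ≤
      ρ ^ P)
    (G : MvPolynomial τ K) (M : ℝ) (hM : 0 ≤ M) (hG : ∀ j, w (G.coeff j) ≤ M) (P k : ℕ) :
    w (MvPolynomial.eval (y k) G - ∑ p : X → Fin P, tcm a G (fun i => (p i : ℕ)) * cm (z k) (fun i => (p i : ℕ))) ≤
      M * ρ ^ P := by
  have h1 : ∑ p : X → Fin P, tcm a G (fun i => (p i : ℕ)) * cm (z k) (fun i => (p i : ℕ)) =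
      ∑ j ∈ G.support, G.coeff j * ∑ p : X → Fin P, a j (fun i => (p i : ℕ)) * cm (z k) (fun i => (p i : ℕ)) := by
    simp only [tcm, Finset.sum_mul, Finset.mul_sum]
    rw [Finset.sum_comm]
    refine Finset.sum_congr rfl fun j _ => Finset.sum_congr rfl fun p _ => by ring
  rw [h1, eval_mv, ← Finset.sum_sub_distrib]
  refine w_sum_le hw _ _ _ (by positivity) fun j _ => ?_
  rw [← mul_sub, map_mul]
  exact mul_le_mul (hG j) (hf j P k) (w.nonneg _) hM

end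

theorem num_aux (K' cst h H N D q s mm : ℕ) (hcard : (2 * (2 * K' + 3) ^ q) * h ≤ H) (hN : N = D ^ q * H)
    (hD : D = cst + 1) (hs : s = h * mm ^ q) (hmm : mm = (2 * K' + 3) * D) (hNpos : 0 < N) :
    N * (K' * D + cst) < mm * (N - s) := by
  have h1 : 2 * s ≤ N := by
    rw [hs, hN, hmm, mul_pow]
    calc 2 * (h * ((2 * K' + 3) ^ q * D ^ q)) = D ^ q * ((2 * (2 * K' + 3) ^ q) * h) := by ring
      _ ≤ D ^ q * H := Nat.mul_le_mul_left _ hcard
  have h2 : N ≤ 2 * (N - s) := by omega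
  have h3 : 2 * (N * (K' * D + cst)) < 2 * (mm * (N - s)) := by
    calc 2 * (N * (K' * D + cst)) = N * (2 * K' * D + 2 * cst) := by ring
      _ < N * ((2 * K' + 3) * D) := by
          refine Nat.mul_lt_mul_of_pos_left ?_ hNpos
          rw [hD]
          nlinarith
      _ = mm * N := by rw [hmm, mul_comm]
      _ ≤ mm * (2 * (N - s)) := Nat.mul_le_mul_left _ h2
      _ = 2 * (mm * (N - s)) := by ring
  omega

/-- the abstract theorem in several variables -/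
theorem abstract_false (hZ0 : StmZ) (hCl : StmClose) {K : Type} [Field K] {w : AbsoluteValue K ℝ}
    (hw : IsNonarchimedean w) {X σ S : Type} [Fintype X] [DecidableEq X] [Nonempty X] [Fintype S]
    (E : Finset (σ →₀ ℕ)) {ρ : ℝ} (hρ0 : 0 < ρ) (hρ : ρ < 1)
    (x : ℕ → X → K) (y : ℕ → σ → K) (τ : X → K) (hτ : ∀ i, w (τ i) ≤ 1)
    (hx : ∀ k i, w (x k i - τ i) ≤ ρ)
    (a : (X ⊕ σ →₀ ℕ) → (X → ℕ) → K) (ha : ∀ j p, w (a j p) ≤ 1)
    (hf : ∀ j (P k : ℕ), w (mv (Sum.elim (x k) (y k)) j -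
      ∑ p : X → Fin P, a j (fun i => (p i : ℕ)) * cm (fun i => x k i - τ i) (fun i => (p i : ℕ))) ≤ ρ ^ P)
    (hND : ∀ 𝓜 : Finset (X ⊕ σ →₀ ℕ), ∃ N₀ : ℕ, ∀ g : (X ⊕ σ →₀ ℕ) → K, ∃ p : X → ℕ, (∀ i, p i ≤ N₀) ∧
      ∀ j ∈ 𝓜, w (g j) ≤ w (∑ j' ∈ 𝓜, g j' * a j' p))
    (κ : S → K) (c : ℕ → S × E → K) (Y : ℝ) (hY : 1 ≤ Y) (hcY : ∀ k i, w (c k i) ≤ Y)
    (hrel : ∀ k, ∑ e : E, (∑ s, κ s * c k (s, e)) * mv (y k) (e : σ →₀ ℕ) = 0)
    (hgood : ∀ k, ∃ e : E, ∑ s, κ s * c k (s, e) ≠ 0)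
    (Γ : ℝ) (hΓ : 0 < Γ)
    (hgp : ∀ (N D : ℕ) (m : Fin N → X → ℕ), Function.Injective m → (∀ l i, m l i < D) → ∀ pts : Fin N → ℕ,
      Function.Injective pts → Γ ^ (N * D) ≤ w (Matrix.of fun a l => cm (x (pts a)) (m l)).det)
    (harith : ∀ (D δ N : ℕ) (pts : Fin N → ℕ) (m : Fin N → (X → ℕ) × (S × E → ℕ)), (∀ l i, (m l).1 i < D) →
      (∀ l, ∑ i, (m l).2 i = δ) →
      (Matrix.of fun a' l => cm (x (pts a')) (m l).1 * cm (c (pts a')) (m l).2).det ≠ 0 →
      Γ ^ (N * (D + δ)) ≤ w (Matrix.of fun a' l => cm (x (pts a')) (m l).1 * cm (c (pts a')) (m l).2).det) :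
    False := by
  classical
  set v : ℕ → X ⊕ σ → K := fun k => Sum.elim (x k) (y k) with hv
  set Ω := Filter.Germ (hyperfilter ℕ : Filter ℕ) K with hΩ
  let fΩ : Field Ω := Filter.Germ.instField
  set φ : (ℕ → K) →+* Ω := Filter.Germ.coeRingHom (hyperfilter ℕ : Filter ℕ) with hφ
  let aΩ : Algebra K Ω := (φ.comp (algebraMap K (ℕ → K))).toAlgebra
  set Φ : (ℕ → K) →ₐ[K] Ω := { φ with commutes' := fun r => rfl } with hΦ
  have hΦeq : ∀ f g : ℕ → K, Φ f = Φ g → ∀ᶠ k in (hyperfilter ℕ : Filter ℕ), f k = g k := fun f g h =>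
    Filter.Germ.coe_eq.1 h
  have hev : ∀ {ι : Type} (z : ι → ℕ → K) (G : MvPolynomial ι K),
      MvPolynomial.aeval (fun i => Φ (z i)) G = Φ (fun k => MvPolynomial.eval (fun i => z i k) G) := by
    intro ι z G
    rw [← MvPolynomial.comp_aeval_apply]
    congr 1
    funext k
    have h1 : (MvPolynomial.aeval z G) k = Pi.evalAlgHom K (fun _ : ℕ => K) k (MvPolynomial.aeval z G) := rfl
    rw [h1, MvPolynomial.comp_aeval_apply]
    rfl
  -- Lemma Z
  have hZ : ∀ G : MvPolynomial (X ⊕ σ) K, G ≠ 0 → ∃ h : ℝ, 0 < h ∧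
      {k | w (MvPolynomial.eval (v k) G) < h}.Finite := by
    intro G hG
    obtain ⟨j₀, hj₀, hmax⟩ := G.support.exists_max_image (fun j => w (G.coeff j)) (MvPolynomial.support_nonempty.2 hG)
    have hc0 : G.coeff j₀ ≠ 0 := MvPolynomial.mem_support_iff.1 hj₀
    have hwc : 0 < w (G.coeff j₀) := w.pos hc0
    have hmax' : ∀ j, w (G.coeff j) ≤ w (G.coeff j₀) := by
      intro j
      by_cases hj : j ∈ G.support
      · exact hmax j hj
      · rw [MvPolynomial.notMem_support_iff.1 hj, map_zero]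
        exact hwc.le
    obtain ⟨N₀, hN₀⟩ := hND G.support
    obtain ⟨p₀, -, hp₀⟩ := hN₀ (fun j => G.coeff j)
    have hble : ∀ p, w (tcm a G p / G.coeff j₀) ≤ 1 := by
      intro p
      rw [map_div₀, div_le_one hwc]
      exact tcm_le hw a ha G _ hwc.le hmax' p
    obtain ⟨h, hh, hfin⟩ := hZ0 K w hw X ρ Γ hρ0 hρ hΓ x τ hx hτ hgp
      (fun k => MvPolynomial.eval (v k) G / G.coeff j₀) (fun p => tcm a G p / G.coeff j₀) hble
      ⟨p₀, le_antisymm (hble p₀) (by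
        rw [map_div₀, one_le_div hwc]
        exact hp₀ j₀ hj₀)⟩ (by
        intro P k
        have h1 := tcm_approx hw hρ0 a v (fun k i => x k i - τ i) hf G _ hwc.le hmax' P k
        have h2 : MvPolynomial.eval (v k) G / G.coeff j₀ - ∑ p : X → Fin P, tcm a G (fun i => (p i : ℕ)) /
            G.coeff j₀ * cm (fun i => x k i - τ i) (fun i => (p i : ℕ)) =
            (MvPolynomial.eval (v k) G - ∑ p : X → Fin P, tcm a G (fun i => (p i : ℕ)) *
              cm (fun i => x k i - τ i) (fun i => (p i : ℕ))) / G.coeff j₀ := by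
          rw [sub_div, Finset.sum_div]
          congr 1
          refine Finset.sum_congr rfl fun p _ => by ring
        rw [h2, map_div₀, div_le_iff₀ hwc, mul_comm]
        exact h1)
    refine ⟨h * w (G.coeff j₀), by positivity, hfin.subset ?_⟩
    intro k hk
    simp only [Set.mem_ofPred_eq] at hk ⊢
    rw [map_div₀, div_lt_iff₀ hwc]
    exact hk
  set ys : X ⊕ σ → Ω := fun i => Φ (fun k => v k i) with hys
  have hZΩ : ∀ G : MvPolynomial (X ⊕ σ) K, MvPolynomial.aeval ys G = 0 → G = 0 := by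
    intro G hG
    by_contra hne
    obtain ⟨h, hh, hfin⟩ := hZ G hne
    rw [hys, hev] at hG
    rw [← map_zero Φ] at hG
    have h1 := hΦeq _ _ hG
    have h2 : ∀ᶠ k in (hyperfilter ℕ : Filter ℕ), ¬ w (MvPolynomial.eval (v k) G) < h :=
      hfin.compl_mem_hyperfilter
    obtain ⟨k, hk1, hk2⟩ := (h1.and h2).exists
    apply hk2
    have hk1' : MvPolynomial.eval (v k) G = 0 := hk1
    rw [hk1']
    simpa using hh
  have hysind : AlgebraicIndependent K ys := by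
    rw [algebraicIndependent_iff]
    exact hZΩ
  -- the relation
  set cs : S × E → Ω := fun i => Φ (fun k => c k i) with hcs
  set L : MvPolynomial σ Ω := ∑ e : E, MvPolynomial.monomial (e : σ →₀ ℕ) (∑ s, κ s • cs (s, e)) with hL
  have hLcoef : ∀ e : E, L.coeff (e : σ →₀ ℕ) = ∑ s, κ s • cs (s, e) := by
    intro e
    rw [hL, MvPolynomial.coeff_sum]
    simp only [MvPolynomial.coeff_monomial]
    rw [Finset.sum_eq_single e]
    · simp
    · intro e' _ hne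
      rw [if_neg]
      intro h
      exact hne (Subtype.ext h)
    · simp
  have hsumΦ : ∀ e : E, ∑ s, κ s • cs (s, e) = Φ (fun k => ∑ s, κ s * c k (s, e)) := by
    intro e
    have h1 : (fun k => ∑ s, κ s * c k (s, e)) = ∑ s, κ s • (fun k => c k (s, e)) := by
      funext k
      simp [Finset.sum_apply]
    rw [h1, map_sum]
    refine Finset.sum_congr rfl fun s _ => ?_
    rw [map_smul]
  have hL0 : L ≠ 0 := by
    intro h0
    have h1 : ∀ e : E, ∀ᶠ k in (hyperfilter ℕ : Filter ℕ), ∑ s, κ s * c k (s, e) = 0 := by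
      intro e
      have h2 := hLcoef e
      rw [h0, MvPolynomial.coeff_zero, hsumΦ e, ← map_zero Φ] at h2
      exact (hΦeq _ _ h2).mono fun k hk => hk.symm
    have h2 : ∀ᶠ k in (hyperfilter ℕ : Filter ℕ), ∀ e : E, ∑ s, κ s * c k (s, e) = 0 := by
      rw [Filter.eventually_all]
      exact h1
    obtain ⟨k, hk⟩ := h2.exists
    obtain ⟨e, he⟩ := hgood k
    exact he (hk e)
  have hLu : MvPolynomial.eval (fun i => ys (Sum.inr i)) L = 0 := by
    rw [hL, map_sum]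
    have h1 : ∀ e : E, MvPolynomial.eval (fun i => ys (Sum.inr i)) (MvPolynomial.monomial (e : σ →₀ ℕ)
        (∑ s, κ s • cs (s, e))) = Φ (fun k => (∑ s, κ s * c k (s, e)) * mv (y k) (e : σ →₀ ℕ)) := by
      intro e
      rw [MvPolynomial.eval_monomial, hsumΦ]
      have h2 : (fun k => (∑ s, κ s * c k (s, e)) * mv (y k) (e : σ →₀ ℕ)) =
          (fun k => (∑ s, κ s * c k (s, e))) * ∏ i ∈ (e : σ →₀ ℕ).support,
            (fun k => y k i) ^ ((e : σ →₀ ℕ) i) := by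
        funext k
        simp [mv, Finset.prod_apply]
      rw [h2, map_mul, map_prod]
      congr 1
    simp only [h1]
    rw [← map_sum]
    have h2 : (∑ e : E, fun k => (∑ s, κ s * c k (s, e)) * mv (y k) (e : σ →₀ ℕ)) = 0 := by
      funext k
      simp only [Finset.sum_apply, Pi.zero_apply]
      exact hrel k
    rw [h2, map_zero]
  have hLc : ∀ e, L.coeff e ∈ Submodule.span K (Set.range cs) := by
    intro e
    rw [hL, MvPolynomial.coeff_sum]
    refine Submodule.sum_mem _ fun e' _ => ?_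
    rw [MvPolynomial.coeff_monomial]
    split_ifs
    · exact Submodule.sum_mem _ fun s _ => Submodule.smul_mem _ _ (Submodule.subset_span ⟨_, rfl⟩)
    · exact Submodule.zero_mem _
  -- powers of ρ
  obtain ⟨K', hK'⟩ : ∃ K' : ℕ, ρ ^ K' < Γ := exists_pow_lt_of_lt_one hΓ hρ
  set nX : ℕ := Fintype.card X with hnX
  obtain ⟨δ, 𝒮, 𝒮₂, h𝒮, h𝒮₂, hcard, hpos, hli, q, hq, r, hr⟩ :=
    star ys hysind cs L hL0 hLu hLc (2 * (2 * K' + 3) ^ nX)
  have hq0 : q ≠ 0 := by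
    rintro rfl
    exact hq (map_zero _)
  obtain ⟨hq1, hq1pos, hqfin⟩ := hZ q hq0
  -- the good set
  have hcmΦ : ∀ {ι : Type} [Fintype ι] (z : ι → ℕ → K) (μ : ι → ℕ),
      cm (fun i => Φ (z i)) μ = Φ (fun k => cm (fun i => z i k) μ) := by
    intro ι _ z μ
    have h1 : (fun k => cm (fun i => z i k) μ) = ∏ i, (z i) ^ μ i := by
      funext k
      simp [cm, Finset.prod_apply]
    rw [h1, map_prod]
    simp only [map_pow, cm]
  have hrel2 : ∀ᶠ k in (hyperfilter ℕ : Filter ℕ), ∀ μ ∈ 𝒮, MvPolynomial.eval (v k) q * cm (c k) μ =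
      ∑ ν ∈ 𝒮₂, MvPolynomial.eval (v k) (r μ ν) * cm (c k) ν := by
    rw [Filter.eventually_all_finset]
    intro μ hμ
    apply hΦeq
    have h1 := hr μ hμ
    have h2 : (fun k => MvPolynomial.eval (v k) q * cm (c k) μ) =
        (fun k => MvPolynomial.eval (v k) q) * (fun k => cm (c k) μ) := rfl
    have h3 : (fun k => ∑ ν ∈ 𝒮₂, MvPolynomial.eval (v k) (r μ ν) * cm (c k) ν) =
        ∑ ν ∈ 𝒮₂, (fun k => MvPolynomial.eval (v k) (r μ ν)) * (fun k => cm (c k) ν) := by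
      funext k
      simp [Finset.sum_apply]
    rw [h2, h3, map_mul, map_sum]
    simp only [map_mul]
    have h4 : ∀ G : MvPolynomial (X ⊕ σ) K, Φ (fun k => MvPolynomial.eval (v k) G) = MvPolynomial.aeval ys G :=
      fun G => (hev (fun i k => v k i) G).symm
    have h5 : ∀ ν : S × E → ℕ, Φ (fun k => cm (c k) ν) = cm cs ν := fun ν => (hcmΦ (fun i k => c k i) ν).symm
    simp only [h4, h5]
    exact h1
  have hAmem : ∀ᶠ k in (hyperfilter ℕ : Filter ℕ), hq1 ≤ w (MvPolynomial.eval (v k) q) ∧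
      ∀ μ ∈ 𝒮, MvPolynomial.eval (v k) q * cm (c k) μ =
        ∑ ν ∈ 𝒮₂, MvPolynomial.eval (v k) (r μ ν) * cm (c k) ν := by
    have h2 : ∀ᶠ k in (hyperfilter ℕ : Filter ℕ), ¬ w (MvPolynomial.eval (v k) q) < hq1 :=
      hqfin.compl_mem_hyperfilter
    filter_upwards [h2, hrel2] with k hk1 hk2
    exact ⟨not_lt.1 hk1, hk2⟩
  set A : Set ℕ := {k | hq1 ≤ w (MvPolynomial.eval (v k) q) ∧
      ∀ μ ∈ 𝒮, MvPolynomial.eval (v k) q * cm (c k) μ =
        ∑ ν ∈ 𝒮₂, MvPolynomial.eval (v k) (r μ ν) * cm (c k) ν} with hA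
  -- constants
  choose Mr hMr0 hMr using fun μ ν : S × E → ℕ => coeff_bound (w := w) (r μ ν)
  set Φ' : ℝ := 1 + ∑ μ ∈ 𝒮, ∑ ν ∈ 𝒮₂, Mr μ ν with hΦ'
  have hMrΦ : ∀ μ ∈ 𝒮, ∀ ν ∈ 𝒮₂, Mr μ ν ≤ Φ' := by
    intro μ hμ ν hν
    have h1 : Mr μ ν ≤ ∑ ν ∈ 𝒮₂, Mr μ ν := Finset.single_le_sum (fun ν _ => hMr0 μ ν) hν
    have h2 : ∑ ν ∈ 𝒮₂, Mr μ ν ≤ ∑ μ ∈ 𝒮, ∑ ν ∈ 𝒮₂, Mr μ ν :=
      Finset.single_le_sum (f := fun μ => ∑ ν ∈ 𝒮₂, Mr μ ν) (fun μ _ => Finset.sum_nonneg fun ν _ => hMr0 μ ν) hμ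
    linarith
  have hΦ'0 : 0 < Φ' := by
    have : 0 ≤ ∑ μ ∈ 𝒮, ∑ ν ∈ 𝒮₂, Mr μ ν := Finset.sum_nonneg fun μ _ => Finset.sum_nonneg fun ν _ => hMr0 μ ν
    linarith
  obtain ⟨k1, hk1⟩ : ∃ k1 : ℕ, ρ ^ k1 < hq1 := exists_pow_lt_of_lt_one hq1pos hρ
  obtain ⟨k2, hk2⟩ : ∃ k2 : ℕ, ρ ^ k2 < (Y ^ (δ + 1) * Φ')⁻¹ := exists_pow_lt_of_lt_one (by positivity) hρ
  set cst : ℕ := K' * (δ + 1) + k1 + k2 with hcst
  set D : ℕ := cst + 1 with hD
  set N : ℕ := D ^ nX * 𝒮.card with hN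
  have h𝒮pos : 0 < 𝒮.card := lt_of_lt_of_le (by positivity) hcard
  have hNpos : 0 < N := by positivity
  set mm : ℕ := (2 * K' + 3) * D with hmm
  -- enumeration of the monomials
  have hcardN : Fintype.card ((X → Fin D) × 𝒮) = N := by
    rw [Fintype.card_prod, Fintype.card_fun, Fintype.card_fin, Fintype.card_coe]
  set en : Fin N ≃ (X → Fin D) × 𝒮 := (Fintype.equivFinOfCardEq hcardN).symm with hen
  set f : Fin N → ℕ → K := fun l k => cm (x k) (fun i => ((en l).1 i : ℕ)) * cm (c k) ((en l).2 : S × E → ℕ)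
    with hfdef
  obtain ⟨pts, hpts, hdet⟩ := exists_points (K := K) A f (by
    intro l hl
    have h1 : ∀ᶠ k in (hyperfilter ℕ : Filter ℕ), ∑ i, l i * f i k = 0 := hAmem.mono fun k hk => hl k hk
    have h2 : ∑ i, l i • (cm (fun j => ys (Sum.inl j)) (fun j => ((en i).1 j : ℕ)) *
        cm cs ((en i).2 : S × E → ℕ)) = 0 := by
      have h3 : ∀ i, cm (fun j => ys (Sum.inl j)) (fun j => ((en i).1 j : ℕ)) * cm cs ((en i).2 : S × E → ℕ) =
          Φ (f i) := by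
        intro i
        have h4 : f i = (fun k => cm (x k) (fun j => ((en i).1 j : ℕ))) * (fun k => cm (c k) ((en i).2 : S × E → ℕ)) :=
          rfl
        have h5 : Φ (fun k => cm (c k) ((en i).2 : S × E → ℕ)) = cm cs ((en i).2 : S × E → ℕ) :=
          (hcmΦ (fun i k => c k i) _).symm
        have h6 : Φ (fun k => cm (x k) (fun j => ((en i).1 j : ℕ))) =
            cm (fun j => ys (Sum.inl j)) (fun j => ((en i).1 j : ℕ)) :=
          (hcmΦ (fun j k => x k j) _).symm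
        rw [h4, map_mul, h5, h6]
      simp only [h3]
      have h5 : ∑ i, l i • Φ (f i) = Φ (∑ i, l i • f i) := by
        rw [map_sum]
        refine Finset.sum_congr rfl fun i _ => ?_
        rw [map_smul]
      rw [h5, ← map_zero Φ]
      refine Filter.Germ.coe_eq.2 ?_
      filter_upwards [h1] with k hk
      simp only [Finset.sum_apply, Pi.smul_apply, smul_eq_mul, Pi.zero_apply]
      exact hk
    have h3 := (Fintype.linearIndependent_iff.1 ((hli D).comp en en.injective)) l h2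
    funext i
    exact h3 i)
  set Δ := (Matrix.of fun a' l => f l (pts a')).det with hΔ
  have hlow : Γ ^ (N * (D + (δ + 1))) ≤ w Δ :=
    harith D (δ + 1) N pts (fun l => ((fun i => ((en l).1 i : ℕ)), ((en l).2 : S × E → ℕ)))
      (fun l i => ((en l).1 i).2) (fun l => h𝒮 _ (en l).2.2) hdet
  -- the upper bound
  set qa : Fin N → K := fun a' => MvPolynomial.eval (v (pts a')) q with hqa
  set G : Fin N → 𝒮₂ → MvPolynomial (X ⊕ σ) K := fun l ν =>
    MvPolynomial.monomial (Finsupp.embDomain Function.Embedding.inl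
      (Finsupp.equivFunOnFinite.symm fun i => ((en l).1 i : ℕ))) 1 * r ((en l).2 : S × E → ℕ) ν with hG
  have hGM : ∀ l ν j, w ((G l ν).coeff j) ≤ Φ' := by
    intro l ν j
    rw [hG]
    simp only
    rw [MvPolynomial.coeff_monomial_mul']
    split_ifs
    · rw [one_mul]
      exact (hMr _ _ _).trans (hMrΦ _ (en l).2.2 _ ν.2)
    · simpa using hΦ'0.le
  have hGeval : ∀ l (ν : 𝒮₂) k, MvPolynomial.eval (v k) (G l ν) =
      cm (x k) (fun i => ((en l).1 i : ℕ)) * MvPolynomial.eval (v k) (r ((en l).2 : S × E → ℕ) ν) := by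
    intro l ν k
    rw [hG]
    simp only
    rw [map_mul, MvPolynomial.eval_monomial, one_mul]
    congr 1
    rw [Finsupp.prod_embDomain, Finsupp.prod_fintype _ _ (fun _ => pow_zero _)]
    rfl
  set err : Fin N → Fin N → K := fun a' l => ∑ ν : 𝒮₂, cm (c (pts a')) (ν : S × E → ℕ) *
    (MvPolynomial.eval (v (pts a')) (G l ν) -
      ∑ p : X → Fin mm, tcm a (G l ν) (fun i => (p i : ℕ)) *
        cm (fun i => x (pts a') i - τ i) (fun i => (p i : ℕ))) with herr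
  have hcmY : ∀ k (ν : 𝒮₂), w (cm (c k) (ν : S × E → ℕ)) ≤ Y ^ (δ + 1) := by
    intro k ν
    rw [cm, map_prod]
    calc ∏ i, w (c k i ^ (ν : S × E → ℕ) i) ≤ ∏ i, Y ^ (ν : S × E → ℕ) i := by
          refine Finset.prod_le_prod (fun _ _ => w.nonneg _) fun i _ => ?_
          rw [map_pow]
          exact pow_le_pow_left₀ (w.nonneg _) (hcY k i) _
      _ = Y ^ (δ + 1) := by rw [Finset.prod_pow_eq_pow_sum, h𝒮₂ _ ν.2]
  have hcmz : ∀ k (p : X → ℕ), w (cm (fun i => x k i - τ i) p) ≤ 1 := by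
    intro k p
    rw [cm, map_prod]
    refine Finset.prod_le_one (fun _ _ => w.nonneg _) fun i _ => ?_
    rw [map_pow]
    exact pow_le_one₀ (w.nonneg _) ((hx k i).trans hρ.le)
  have hrow : ∀ a' l, qa a' * f l (pts a') =
      (∑ b : 𝒮₂ × (X → Fin mm), (cm (c (pts a')) (b.1 : S × E → ℕ) *
        cm (fun i => x (pts a') i - τ i) (fun i => (b.2 i : ℕ))) * tcm a (G l b.1) (fun i => (b.2 i : ℕ))) +
        err a' l := by
    intro a' l
    have h1 := (hpts a').2 _ (en l).2.2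
    have h2 : qa a' * f l (pts a') = cm (x (pts a')) (fun i => ((en l).1 i : ℕ)) *
        (MvPolynomial.eval (v (pts a')) q * cm (c (pts a')) ((en l).2 : S × E → ℕ)) := by
      rw [hqa, hfdef]
      ring
    rw [h2, h1, herr, ← Finset.sum_coe_sort 𝒮₂, Finset.mul_sum, Fintype.sum_prod_type]
    simp only
    rw [← Finset.sum_add_distrib]
    refine Finset.sum_congr rfl fun ν _ => ?_
    rw [mul_sub, hGeval, Finset.mul_sum]
    have h3 : ∀ p : X → Fin mm, cm (c (pts a')) (ν : S × E → ℕ) *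
        cm (fun i => x (pts a') i - τ i) (fun i => (p i : ℕ)) * tcm a (G l ν) (fun i => (p i : ℕ)) =
        cm (c (pts a')) (ν : S × E → ℕ) * (tcm a (G l ν) (fun i => (p i : ℕ)) *
          cm (fun i => x (pts a') i - τ i) (fun i => (p i : ℕ))) := fun p => by ring
    simp only [h3]
    ring
  have hup := hCl K w hw (Fin N) (𝒮₂ × (X → Fin mm)) (fun a' l => qa a' * f l (pts a'))
    (fun a' b => cm (c (pts a')) (b.1 : S × E → ℕ) * cm (fun i => x (pts a') i - τ i) (fun i => (b.2 i : ℕ)))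
    (fun b l => tcm a (G l b.1) (fun i => (b.2 i : ℕ))) err (Y ^ (δ + 1)) Φ' (ρ ^ mm) (by positivity) hΦ'0.le
    (by positivity) (pow_le_one₀ hρ0.le hρ.le) hrow
    (fun a' b => by
      rw [map_mul]
      calc _ ≤ Y ^ (δ + 1) * 1 := mul_le_mul (hcmY _ _) (hcmz _ _) (w.nonneg _) (by positivity)
        _ = Y ^ (δ + 1) := mul_one _)
    (fun b l => tcm_le hw a ha _ _ hΦ'0.le (hGM l b.1) _)
    (fun a' l => by
      rw [herr]
      refine w_sum_le hw _ _ _ (by positivity) fun ν _ => ?_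
      rw [map_mul, mul_assoc]
      exact mul_le_mul (hcmY _ ν) (tcm_approx hw hρ0 a v (fun k i => x k i - τ i) hf _ _ hΦ'0.le (hGM l ν) _ _)
        (w.nonneg _) (by positivity))
  have hdetq : (Matrix.of fun a' l => qa a' * f l (pts a')).det = (∏ a', qa a') * Δ := by
    rw [hΔ, ← Matrix.det_mul_column]
    congr 1
  have hup' : w ((∏ a', qa a') * Δ) ≤ (Y ^ (δ + 1) * Φ') ^ N * (ρ ^ mm) ^ (N - 𝒮₂.card * mm ^ nX) := by
    rw [← hdetq]
    refine hup.trans (le_of_eq ?_)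
    rw [Fintype.card_prod, Fintype.card_fin, Fintype.card_coe, Fintype.card_fun, Fintype.card_fin]
  rw [map_mul, map_prod, ← pow_mul] at hup'
  have hq2 : ρ ^ (k1 * N) ≤ ∏ a', w (qa a') := by
    calc ρ ^ (k1 * N) = ∏ _a' : Fin N, ρ ^ k1 := by
          rw [Finset.prod_const, Finset.card_univ, Fintype.card_fin, ← pow_mul]
      _ ≤ ∏ a', w (qa a') := Finset.prod_le_prod (fun _ _ => by positivity) fun a' _ =>
          hk1.le.trans (hpts a').1
  have hlow2 : ρ ^ (K' * (N * (D + (δ + 1)))) ≤ w Δ := by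
    refine le_trans ?_ hlow
    rw [pow_mul]
    exact pow_le_pow_left₀ (by positivity) hK'.le _
  have hYΦ : (Y ^ (δ + 1) * Φ') ^ N * ρ ^ (k2 * N) ≤ 1 := by
    rw [pow_mul ρ k2 N, ← mul_pow]
    refine pow_le_one₀ (by positivity) ?_
    have h1 : 0 < Y ^ (δ + 1) * Φ' := by positivity
    calc Y ^ (δ + 1) * Φ' * ρ ^ k2 ≤ Y ^ (δ + 1) * Φ' * (Y ^ (δ + 1) * Φ')⁻¹ :=
          mul_le_mul_of_nonneg_left hk2.le h1.le
      _ = 1 := mul_inv_cancel₀ h1.ne'
  have hfinal : ρ ^ (k1 * N) * ρ ^ (K' * (N * (D + (δ + 1)))) * ρ ^ (k2 * N) ≤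
      ρ ^ (mm * (N - 𝒮₂.card * mm ^ nX)) := by
    calc ρ ^ (k1 * N) * ρ ^ (K' * (N * (D + (δ + 1)))) * ρ ^ (k2 * N)
        ≤ ((∏ a', w (qa a')) * w Δ) * ρ ^ (k2 * N) := by
          refine mul_le_mul_of_nonneg_right (mul_le_mul hq2 hlow2 (by positivity)
            (Finset.prod_nonneg fun _ _ => w.nonneg _)) (by positivity)
      _ ≤ ((Y ^ (δ + 1) * Φ') ^ N * ρ ^ (mm * (N - 𝒮₂.card * mm ^ nX))) * ρ ^ (k2 * N) :=
          mul_le_mul_of_nonneg_right hup' (by positivity)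
      _ = ((Y ^ (δ + 1) * Φ') ^ N * ρ ^ (k2 * N)) * ρ ^ (mm * (N - 𝒮₂.card * mm ^ nX)) := by ring
      _ ≤ 1 * ρ ^ (mm * (N - 𝒮₂.card * mm ^ nX)) := mul_le_mul_of_nonneg_right hYΦ (by positivity)
      _ = ρ ^ (mm * (N - 𝒮₂.card * mm ^ nX)) := one_mul _
  rw [← pow_add, ← pow_add] at hfinal
  have hexp : k1 * N + K' * (N * (D + (δ + 1))) + k2 * N < mm * (N - 𝒮₂.card * mm ^ nX) := by
    have h1 := num_aux K' cst 𝒮₂.card 𝒮.card N D nX (𝒮₂.card * mm ^ nX) mm hcard hN hD rfl hmm hNpos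
    refine lt_of_eq_of_lt ?_ h1
    rw [hcst]
    ring
  have := pow_lt_pow_right_of_lt_one₀ hρ0 hρ hexp
  linarith

end Pool.Agent.Y890.MV
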