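import Pool.Agent.Y890.MV.Base

/-!
# Arithmetic: lower bound for determinants, and points in general position
-/

set_option autoImplicit false

open Finset

namespace Pool.Agent.Y890.MV

open Pool.Agent.Y120 (cm map_cm NormRing Pt low_zero norm_det_le)
open Pool.Agent.Y124 (Cov)

variable {g : ℕ} {R : Subring (Fin (g + 1) → ℂ)}

theorem cm_div {X : Type} [Fintype X] (a b : X → ℂ) (hb : ∀ x, b x ≠ 0) (m : X → ℕ) (D : ℕ) (hm : ∀ x, m x < D) :
    (∏ x, b x) ^ D * cm (fun x => a x / b x) m = ∏ x, (a x ^ m x * b x ^ (D - m x)) := by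
  rw [cm, ← Finset.prod_pow, ← Finset.prod_mul_distrib]
  refine Finset.prod_congr rfl fun x _ => ?_
  have h1 : b x ^ D = b x ^ (D - m x) * b x ^ m x := by
    rw [← pow_add]
    congr 1
    have := hm x
    omega
  rw [h1, div_pow]
  have := hb x
  field_simp

theorem det_lowM (hR : NormRing R) {N : ℕ} {X ι : Type} [Fintype X] [Fintype ι] {T : ℝ} (hT : 1 ≤ T) (A D δ : ℕ)
    (a b : Fin N → X → (Fin (g + 1) → ℂ)) (ha : ∀ i x, a i x ∈ R) (hb : ∀ i x, b i x ∈ R)
    (hb0 : ∀ i x, b i x 0 ≠ 0) (haT : ∀ i x s, ‖a i x s‖ ≤ T) (hbT : ∀ i x s, ‖b i x s‖ ≤ T)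
    (c : Fin N → ι → (Fin (g + 1) → ℂ)) (hc : ∀ i x, c i x ∈ R) (hcT : ∀ i x s, ‖c i x s‖ ≤ T ^ A)
    (m : Fin N → (X → ℕ) × (ι → ℕ)) (hm1 : ∀ l x, (m l).1 x < D) (hm2 : ∀ l, ∑ x, (m l).2 x = δ)
    (hdet : (Matrix.of fun i l => cm (fun x => a i x 0 / b i x 0) (m l).1 * cm (fun x => c i x 0) (m l).2).det ≠ 0) :
    ((N.factorial : ℝ) ^ g)⁻¹ * (T ^ (N * (g + 1) * (Fintype.card X * D + A * δ)))⁻¹ ≤
      ‖(Matrix.of fun i l => cm (fun x => a i x 0 / b i x 0) (m l).1 * cm (fun x => c i x 0) (m l).2).det‖ := by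
  classical
  have hTp : 0 < T := by linarith
  set q : ℕ := Fintype.card X with hq
  set M : Matrix (Fin N) (Fin N) R := Matrix.of fun i l =>
    (∏ x, ((⟨a i x, ha i x⟩ : R) ^ (m l).1 x * (⟨b i x, hb i x⟩ : R) ^ (D - (m l).1 x))) *
      cm (fun x => (⟨c i x, hc i x⟩ : R)) (m l).2 with hM
  set ev : Fin (g + 1) → (R →+* ℂ) := fun s => (Pi.evalRingHom (fun _ : Fin (g + 1) => ℂ) s).comp R.subtype with hev
  have hMs : ∀ s, (M.det : Fin (g + 1) → ℂ) s = (Matrix.of fun i l =>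
      (∏ x, ((a i x s) ^ (m l).1 x * (b i x s) ^ (D - (m l).1 x))) * cm (fun x => c i x s) (m l).2).det := by
    intro s
    have h1 : (M.det : Fin (g + 1) → ℂ) s = ev s M.det := rfl
    rw [h1, RingHom.map_det]
    congr 1
    ext i l
    simp only [RingHom.mapMatrix_apply, Matrix.map_apply, hM, Matrix.of_apply, map_mul, map_pow, map_cm, map_prod]
    rfl
  have hbd : ∀ s, ‖(M.det : Fin (g + 1) → ℂ) s‖ ≤ N.factorial * (T ^ (q * D + A * δ)) ^ N := by
    intro s
    rw [hMs]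
    refine norm_det_le _ _ fun i l => ?_
    rw [Matrix.of_apply, norm_mul, norm_prod, pow_add]
    have h1 : ∏ x, ‖a i x s ^ (m l).1 x * b i x s ^ (D - (m l).1 x)‖ ≤ T ^ (q * D) := by
      calc ∏ x, ‖a i x s ^ (m l).1 x * b i x s ^ (D - (m l).1 x)‖ ≤ ∏ _x : X, T ^ D := by
            refine Finset.prod_le_prod (fun _ _ => norm_nonneg _) fun x _ => ?_
            rw [norm_mul, norm_pow, norm_pow]
            calc ‖a i x s‖ ^ (m l).1 x * ‖b i x s‖ ^ (D - (m l).1 x) ≤ T ^ (m l).1 x * T ^ (D - (m l).1 x) :=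
                  mul_le_mul (pow_le_pow_left₀ (norm_nonneg _) (haT i x s) _)
                    (pow_le_pow_left₀ (norm_nonneg _) (hbT i x s) _)
                    (pow_nonneg (norm_nonneg _) _) (by positivity)
              _ = T ^ D := by
                  rw [← pow_add]
                  congr 1
                  have := hm1 l x
                  omega
        _ = T ^ (q * D) := by rw [Finset.prod_const, Finset.card_univ, ← pow_mul, mul_comm]
    have h2 : ‖cm (fun x => c i x s) (m l).2‖ ≤ T ^ (A * δ) := by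
      rw [cm, norm_prod]
      calc ∏ x, ‖c i x s ^ (m l).2 x‖ ≤ ∏ x, (T ^ A) ^ (m l).2 x := by
            refine Finset.prod_le_prod (fun _ _ => norm_nonneg _) fun x _ => ?_
            rw [norm_pow]
            exact pow_le_pow_left₀ (norm_nonneg _) (hcT i x s) _
        _ = T ^ (A * δ) := by rw [Finset.prod_pow_eq_pow_sum, hm2, pow_mul]
    exact mul_le_mul h1 h2 (norm_nonneg _) (by positivity)
  set Δ := (Matrix.of fun i l => cm (fun x => a i x 0 / b i x 0) (m l).1 * cm (fun x => c i x 0) (m l).2).det with hΔ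
  have hM0 : (M.det : Fin (g + 1) → ℂ) 0 = (∏ i, (∏ x, b i x 0) ^ D) * Δ := by
    rw [hMs, hΔ, ← Matrix.det_mul_column]
    congr 1
    ext i l
    simp only [Matrix.of_apply]
    rw [← mul_assoc, cm_div _ _ (hb0 i) _ _ (hm1 l)]
  have hMne : (M.det : Fin (g + 1) → ℂ) ≠ 0 := by
    intro h
    have h1 := congrFun h 0
    rw [hM0] at h1
    rcases mul_eq_zero.1 h1 with h2 | h2
    · rw [Finset.prod_eq_zero_iff] at h2
      obtain ⟨i, _, hi⟩ := h2
      have h3 : ∏ x, b i x 0 ≠ 0 := Finset.prod_ne_zero_iff.2 fun x _ => hb0 i x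
      exact (pow_ne_zero D h3) hi
    · exact hdet h2
  have h1 := low_zero hR M.det.2 hMne hbd
  rw [hM0, norm_mul] at h1
  set Z := ‖Δ‖ with hZ
  have h2 : ‖∏ i, (∏ x, b i x 0) ^ D‖ ≤ T ^ (N * (q * D)) := by
    rw [norm_prod]
    calc ∏ i, ‖(∏ x, b i x 0) ^ D‖ ≤ ∏ _i : Fin N, T ^ (q * D) := by
          refine Finset.prod_le_prod (fun _ _ => norm_nonneg _) fun i _ => ?_
          rw [norm_pow, norm_prod, pow_mul]
          refine pow_le_pow_left₀ (Finset.prod_nonneg fun _ _ => norm_nonneg _) ?_ _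
          calc ∏ x, ‖b i x 0‖ ≤ ∏ _x : X, T :=
                Finset.prod_le_prod (fun _ _ => norm_nonneg _) fun x _ => hbT i x 0
            _ = T ^ q := by rw [Finset.prod_const, Finset.card_univ]
      _ = T ^ (N * (q * D)) := by
          rw [Finset.prod_const, Finset.card_univ, Fintype.card_fin, ← pow_mul, mul_comm]
  have hZ0 : 0 ≤ Z := norm_nonneg _
  have hfac : (0 : ℝ) < N.factorial := by exact_mod_cast N.factorial_pos
  have h3 : 1 ≤ T ^ (N * (q * D)) * Z * ((N.factorial : ℝ) * (T ^ (q * D + A * δ)) ^ N) ^ g := by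
    refine h1.trans (mul_le_mul_of_nonneg_right (mul_le_mul_of_nonneg_right h2 hZ0) (by positivity))
  have h4 : T ^ (N * (q * D)) * Z * ((N.factorial : ℝ) * (T ^ (q * D + A * δ)) ^ N) ^ g ≤
      ((N.factorial : ℝ) ^ g * T ^ (N * (g + 1) * (q * D + A * δ))) * Z := by
    rw [mul_pow, ← pow_mul, ← pow_mul]
    have h5 : T ^ (N * (q * D)) * T ^ ((q * D + A * δ) * (N * g)) ≤ T ^ (N * (g + 1) * (q * D + A * δ)) := by
      rw [← pow_add]
      refine pow_le_pow_right₀ hT ?_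
      have : N * (g + 1) * (q * D + A * δ) = N * (q * D) + (q * D + A * δ) * (N * g) + N * (A * δ) := by ring
      omega
    calc T ^ (N * (q * D)) * Z * ((N.factorial : ℝ) ^ g * T ^ ((q * D + A * δ) * (N * g)))
        = (N.factorial : ℝ) ^ g * (T ^ (N * (q * D)) * T ^ ((q * D + A * δ) * (N * g))) * Z := by ring
      _ ≤ (N.factorial : ℝ) ^ g * T ^ (N * (g + 1) * (q * D + A * δ)) * Z := by
          refine mul_le_mul_of_nonneg_right (mul_le_mul_of_nonneg_left h5 (by positivity)) hZ0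
  have h5 := h3.trans h4
  rw [← mul_inv]
  have h6 : 0 < (N.factorial : ℝ) ^ g * T ^ (N * (g + 1) * (q * D + A * δ)) := by positivity
  rw [inv_le_iff_one_le_mul₀ h6]
  exact h5.trans (le_of_eq (mul_comm _ _))

end Pool.Agent.Y890.MV
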