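import Pool.Agent.Y890.MV.Base

/-!
# Points in general position in a set which is not covered by few hypersurfaces
-/

set_option autoImplicit false

open Finset

namespace Pool.Agent.Y890.MV

open Pool.Agent.Y120 (cm)
open Pool.Agent.Y124 (Cov)

section
variable {F X : Type} [Field F] [Fintype X]

/-- the exponent as a finitely supported function -/
noncomputable def fs (m : X → ℕ) : X →₀ ℕ := Finsupp.equivFunOnFinite.symm m

theorem fs_inj : Function.Injective (fs : (X → ℕ) → (X →₀ ℕ)) := Finsupp.equivFunOnFinite.symm.injective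

/-- the polynomial with given coefficients -/
noncomputable def mkP (𝓜 : Finset (X → ℕ)) (v : (X → ℕ) → F) : MvPolynomial X F :=
  ∑ m ∈ 𝓜, MvPolynomial.monomial (fs m) (v m)

theorem mkP_eval (𝓜 : Finset (X → ℕ)) (v : (X → ℕ) → F) (x : X → F) :
    MvPolynomial.eval x (mkP 𝓜 v) = ∑ m ∈ 𝓜, v m * cm x m := by
  rw [mkP, map_sum]
  refine Finset.sum_congr rfl fun m _ => ?_
  rw [MvPolynomial.eval_monomial, Finsupp.prod_fintype _ _ (fun _ => pow_zero _)]
  rfl

theorem mkP_ne (𝓜 : Finset (X → ℕ)) (v : (X → ℕ) → F) {m : X → ℕ} (hm : m ∈ 𝓜) (hv : v m ≠ 0) : mkP 𝓜 v ≠ 0 := by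
  classical
  intro h
  apply hv
  have h1 : (mkP 𝓜 v).coeff (fs m) = v m := by
    rw [mkP, MvPolynomial.coeff_sum, Finset.sum_eq_single m]
    · simp
    · intro m' _ hne
      rw [MvPolynomial.coeff_monomial, if_neg]
      intro h'
      exact hne (fs_inj h')
    · intro h'
      exact absurd hm h'
  rw [← h1, h, MvPolynomial.coeff_zero]

theorem mkP_deg (𝓜 : Finset (X → ℕ)) (v : (X → ℕ) → F) (D : ℕ) (hD : ∀ m ∈ 𝓜, ∀ i, m i ≤ D) :
    (mkP 𝓜 v).totalDegree ≤ Fintype.card X * D := by
  classical
  rw [mkP]
  refine MvPolynomial.totalDegree_finsetSum_le fun m hm => ?_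
  refine (MvPolynomial.totalDegree_monomial_le _ _).trans ?_
  rw [Finsupp.sum_fintype _ _ (fun _ => rfl)]
  calc ∑ i, (fs m) i ≤ ∑ _i : X, D := Finset.sum_le_sum fun i _ => hD m hm i
    _ = Fintype.card X * D := by rw [Finset.sum_const, Finset.card_univ, smul_eq_mul]

/-- the vector of values of the monomials -/
noncomputable def ev (𝓜 : Finset (X → ℕ)) (x : X → F) : 𝓜 → F := fun m => cm x (m : X → ℕ)

/-- a polynomial through few points -/
theorem exists_through (𝓜 : Finset (X → ℕ)) (I : Finset ℕ) (p : ℕ → X → F) (h : I.card < 𝓜.card) :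
    ∃ v : (X → ℕ) → F, (∃ m ∈ 𝓜, v m ≠ 0) ∧ ∀ i ∈ I, ∑ m ∈ 𝓜, v m * cm (p i) m = 0 := by
  classical
  let f : (𝓜 → F) →ₗ[F] (I → F) :=
    { toFun := fun u i => ∑ m : 𝓜, u m * cm (p i) (m : X → ℕ)
      map_add' := by
        intro u u'
        funext i
        simp only [Pi.add_apply, add_mul, Finset.sum_add_distrib]
      map_smul' := by
        intro r u
        funext i
        simp only [Pi.smul_apply, smul_eq_mul, RingHom.id_apply, Finset.mul_sum, mul_assoc] }
  have hker : LinearMap.ker f ≠ ⊥ := by
    apply LinearMap.ker_ne_bot_of_finrank_lt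
    simpa using h
  obtain ⟨u, hu, hu0⟩ := (Submodule.ne_bot_iff _).1 hker
  obtain ⟨m, hm⟩ := Function.ne_iff.1 hu0
  refine ⟨fun m => if h : m ∈ 𝓜 then u ⟨m, h⟩ else 0, ⟨m, m.2, ?_⟩, ?_⟩
  · simpa using hm
  · intro i hi
    have h1 := congrFun (LinearMap.mem_ker.1 hu) ⟨i, hi⟩
    rw [← Finset.sum_coe_sort]
    refine Eq.trans (Finset.sum_congr rfl fun m _ => ?_) h1
    beta_reduce
    rw [dif_pos m.2]

/-- the monomials of degree less than `D` in each variable -/
noncomputable def bx (X : Type) [Fintype X] (D : ℕ) : Finset (X → ℕ) :=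
  haveI := Classical.decEq X
  Fintype.piFinset fun _ : X => Finset.range D

theorem mem_bx {D : ℕ} {m : X → ℕ} : m ∈ bx X D ↔ ∀ i, m i < D := by
  classical
  simp [bx]

/-- the first `k` points are in general position with respect to the monomials of the box -/
def GPos (D : ℕ) (p : ℕ → X → F) (k : ℕ) : Prop :=
  ∀ (𝓜 : Finset (X → ℕ)), 𝓜 ⊆ bx X D → ∀ I : Finset ℕ, I ⊆ Finset.range k → I.card ≤ 𝓜.card →
    LinearIndependent F (fun i : I => ev 𝓜 (p i))

theorem exists_gp (k D : ℕ) : ∃ C D' : ℕ, ∀ S : Set (X → F), ¬ Cov D' C S → ∃ p : ℕ → X → F,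
    (∀ a < k, p a ∈ S) ∧ GPos D p k := by
  classical
  refine ⟨((Finset.range k).powerset ×ˢ (bx X D).powerset).card, Fintype.card X * D, ?_⟩
  intro S hS
  have key : ∀ j ≤ k, ∃ p : ℕ → X → F, (∀ a < j, p a ∈ S) ∧ GPos D p j := by
    intro j
    induction j with
    | zero =>
      intro _
      refine ⟨fun _ _ => 0, fun a ha => absurd ha (Nat.not_lt_zero _), ?_⟩
      intro 𝓜 _ I hI _
      have hI0 : I = ∅ := by simpa using hI
      subst hI0
      have : IsEmpty ((∅ : Finset ℕ) : Set ℕ) := by simp
      exact linearIndependent_empty_type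
    | succ j ih =>
      intro hj
      obtain ⟨p, hp, hgp⟩ := ih (by omega)
      choose! v hv1 hv2 using fun (I : Finset ℕ) (𝓜 : Finset (X → ℕ)) (h : I.card < 𝓜.card) =>
        exists_through 𝓜 I p h
      set J := ((Finset.range k).powerset ×ˢ (bx X D).powerset).filter (fun x => x.1.card < x.2.card) with hJ
      set Φ : Finset (MvPolynomial X F) := J.image fun x => mkP x.2 (v x.1 x.2) with hΦ
      have hnc : ¬ ∀ t ∈ S, ∃ P ∈ Φ, MvPolynomial.eval t P = 0 := by
        intro hall
        apply hS
        refine ⟨Φ, Finset.card_image_le.trans (Finset.card_filter_le _ _), ?_, hall⟩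
        intro P hP
        obtain ⟨x, hx, rfl⟩ := Finset.mem_image.1 hP
        rw [hJ, Finset.mem_filter, Finset.mem_product, Finset.mem_powerset, Finset.mem_powerset] at hx
        obtain ⟨m, hm, hvm⟩ := hv1 x.1 x.2 hx.2
        refine ⟨mkP_ne _ _ hm hvm, mkP_deg _ _ _ fun m hm i => ?_⟩
        exact (mem_bx.1 (hx.1.2 hm) i).le
      push Not at hnc
      obtain ⟨t, htS, ht⟩ := hnc
      refine ⟨Function.update p j t, ?_, ?_⟩
      · intro a ha
        rcases Nat.lt_succ_iff_lt_or_eq.1 ha with h | h
        · rw [Function.update_of_ne (by omega)]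
          exact hp a h
        · subst h
          rw [Function.update_self]
          exact htS
      · intro 𝓜 h𝓜 I hI hcard
        by_cases hjI : j ∈ I
        · set I' := I.erase j with hI'
          have hI'sub : I' ⊆ Finset.range j := by
            intro a ha
            have h1 := Finset.mem_range.1 (hI (Finset.mem_of_mem_erase ha))
            have h2 := Finset.ne_of_mem_erase ha
            rw [Finset.mem_range]
            omega
          have hI'card : I'.card < 𝓜.card := by
            rw [hI', Finset.card_erase_of_mem hjI]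
            have := Finset.card_pos.2 ⟨j, hjI⟩
            omega
          have hli := hgp 𝓜 h𝓜 I' hI'sub hI'card.le
          have hli' : LinearIndepOn F (fun i => ev 𝓜 (Function.update p j t i)) (I' : Set ℕ) := by
            have heq : (fun i : I' => ev 𝓜 (Function.update p j t i)) = fun i : I' => ev 𝓜 (p i) := by
              funext i
              have : (i : ℕ) ≠ j := Finset.ne_of_mem_erase i.2
              rw [Function.update_of_ne this]
            rw [LinearIndepOn]
            rw [← heq] at hli
            exact hli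
          have hnot : ev 𝓜 (Function.update p j t j) ∉
              Submodule.span F ((fun i => ev 𝓜 (Function.update p j t i)) '' (I' : Set ℕ)) := by
            intro hmem
            set φ : (𝓜 → F) →ₗ[F] F :=
              { toFun := fun u => ∑ m : 𝓜, v I' 𝓜 m * u m
                map_add' := by
                  intro u u'
                  simp only [Pi.add_apply, mul_add, Finset.sum_add_distrib]
                map_smul' := by
                  intro r u
                  simp only [Pi.smul_apply, smul_eq_mul, RingHom.id_apply, Finset.mul_sum]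
                  exact Finset.sum_congr rfl fun m _ => by ring } with hφ
            have h1 : Submodule.span F ((fun i => ev 𝓜 (Function.update p j t i)) '' (I' : Set ℕ)) ≤ LinearMap.ker φ := by
              rw [Submodule.span_le]
              rintro _ ⟨i, hi, rfl⟩
              rw [SetLike.mem_coe, LinearMap.mem_ker]
              have hij : i ≠ j := Finset.ne_of_mem_erase hi
              have h2 := hv2 I' 𝓜 hI'card i hi
              rw [← Finset.sum_coe_sort] at h2
              beta_reduce
              rw [Function.update_of_ne hij]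
              exact h2
            have h3 := h1 hmem
            rw [LinearMap.mem_ker, Function.update_self] at h3
            refine ht (mkP 𝓜 (v I' 𝓜)) ?_ ?_
            · rw [hΦ, Finset.mem_image]
              refine ⟨(I', 𝓜), ?_, rfl⟩
              rw [hJ, Finset.mem_filter, Finset.mem_product, Finset.mem_powerset, Finset.mem_powerset]
              refine ⟨⟨hI'sub.trans (fun a ha => ?_), h𝓜⟩, hI'card⟩
              rw [Finset.mem_range] at ha ⊢
              omega
            · rw [mkP_eval, ← Finset.sum_coe_sort]
              exact h3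
          have hins := (linearIndepOn_insert (K := F) (f := fun i => ev 𝓜 (Function.update p j t i)) (s := (I' : Set ℕ))
            (a := j) (by simp [hI'])).2 ⟨hli', hnot⟩
          have hII : insert j (I' : Set ℕ) = (I : Set ℕ) := by
            rw [← Finset.coe_insert, hI', Finset.insert_erase hjI]
          rw [hII] at hins
          exact hins
        · have hIsub : I ⊆ Finset.range j := by
            intro a ha
            have h1 := Finset.mem_range.1 (hI ha)
            have h2 : a ≠ j := fun h => hjI (h ▸ ha)
            rw [Finset.mem_range]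
            omega
          have hli := hgp 𝓜 h𝓜 I hIsub hcard
          have heq : (fun i : I => ev 𝓜 (Function.update p j t i)) = fun i : I => ev 𝓜 (p i) := by
            funext i
            have : (i : ℕ) ≠ j := fun h => hjI (h ▸ i.2)
            rw [Function.update_of_ne this]
          rw [heq]
          exact hli
  exact key k le_rfl

/-- general position gives nonzero determinants -/
theorem GPos.det_ne {D k : ℕ} {p : ℕ → X → F} (h : GPos D p k) {N : ℕ} (m : Fin N → X → ℕ)
    (hm : Function.Injective m) (hmD : ∀ l i, m l i < D) (idx : Fin N → ℕ) (hidx : Function.Injective idx)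
    (hk : ∀ a, idx a < k) : (Matrix.of fun a l => cm (p (idx a)) (m l)).det ≠ 0 := by
  classical
  set 𝓜 : Finset (X → ℕ) := Finset.univ.image m with h𝓜
  set I : Finset ℕ := Finset.univ.image idx with hI
  have h1 := h 𝓜 (by
    intro x hx
    obtain ⟨l, _, rfl⟩ := Finset.mem_image.1 hx
    exact mem_bx.2 (hmD l)) I (by
    intro x hx
    obtain ⟨a, _, rfl⟩ := Finset.mem_image.1 hx
    exact Finset.mem_range.2 (hk a)) (by
    rw [h𝓜, hI, Finset.card_image_of_injective _ hm, Finset.card_image_of_injective _ hidx])
  have h2 : LinearIndependent F (fun a : Fin N => ev 𝓜 (p (idx a))) :=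
    h1.comp (fun a : Fin N => (⟨idx a, Finset.mem_image_of_mem _ (Finset.mem_univ a)⟩ : I))
      (fun a b hab => hidx (congrArg Subtype.val hab))
  intro hdet
  obtain ⟨u, hu0, hu⟩ := Matrix.exists_vecMul_eq_zero_iff.2 hdet
  apply hu0
  have h3 := Fintype.linearIndependent_iff.1 h2 u (by
    funext ⟨x, hx⟩
    obtain ⟨l, _, rfl⟩ := Finset.mem_image.1 hx
    have h4 := congrFun hu l
    simp only [Matrix.vecMul, dotProduct, Matrix.of_apply, Pi.zero_apply] at h4
    simpa [ev, Finset.sum_apply] using h4)
  funext a
  exact h3 a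

end

end Pool.Agent.Y890.MV
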