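import Pool.Agent.Y890.MV.Loc
import Pool.Agent.Y124.OneR

/-!
# Several complex variables: the exceptional points lie on at most `C T ^ ε` hypersurfaces of bounded degree,
# over rings of integers of bounded degree and for arbitrary constants
-/

set_option autoImplicit false

open Filter Topology

namespace Pool.Agent.Y890.MV

open Pool.Agent.Y120 (mv NormRing Pt ExcN EE0 encE encE_val mv_enc)
open Pool.Agent.Y124 (Cov RelR flagR flagC)

/-- finitely many balls around points of the set -/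
theorem exists_net {X : Type} [Fintype X] {M r : ℝ} (hM : 0 ≤ M) (hr : 0 < r) (hr1 : r ≤ 1) (S : Set (X → ℂ))
    (hS : ∀ t ∈ S, ∀ i, ‖t i‖ ≤ M) : ∃ J : Finset (X → ℂ), (∀ τ ∈ J, τ ∈ S) ∧
      (J.card : ℝ) ≤ ((4 * M + 3) ^ 2 * (r ^ 2)⁻¹) ^ Fintype.card X ∧ ∀ t ∈ S, ∃ τ ∈ J, ‖t - τ‖ ≤ r := by
  classical
  set s : ℝ := r / 2 with hs
  have hs0 : 0 < s := by positivity
  set φ : (X → ℂ) → X → ℤ × ℤ := fun z i => (⌊(z i).re / s⌋, ⌊(z i).im / s⌋) with hφ
  set N : ℤ := ⌈M / s⌉ with hN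
  have hcell : ∀ x : ℝ, |x| ≤ M → ⌊x / s⌋ ∈ Finset.Icc (-N) N := by
    intro x hx
    rw [abs_le] at hx
    have h1 : M / s ≤ N := Int.le_ceil _
    rw [Finset.mem_Icc]
    constructor
    · rw [Int.le_floor]
      push_cast
      have h2 : -(M / s) ≤ x / s := by
        rw [← neg_div]
        exact div_le_div_of_nonneg_right hx.1 hs0.le
      linarith
    · have h2 : x / s ≤ M / s := div_le_div_of_nonneg_right hx.2 hs0.le
      have h3 : (⌊x / s⌋ : ℝ) ≤ N := (Int.floor_le _).trans (h2.trans h1)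
      exact_mod_cast h3
  set cells : Finset (X → ℤ × ℤ) := Fintype.piFinset fun _ : X => Finset.Icc (-N) N ×ˢ Finset.Icc (-N) N with hcells
  have hmem : ∀ t ∈ S, φ t ∈ cells := by
    intro t ht
    rw [hcells, Fintype.mem_piFinset]
    intro i
    rw [Finset.mem_product]
    exact ⟨hcell _ ((Complex.abs_re_le_norm _).trans (hS t ht i)), hcell _ ((Complex.abs_im_le_norm _).trans (hS t ht i))⟩
  set used : Finset (X → ℤ × ℤ) := cells.filter fun p => ∃ t ∈ S, φ t = p with hused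
  have hch : ∀ p ∈ used, ∃ t ∈ S, φ t = p := fun p hp => (Finset.mem_filter.1 hp).2
  choose! ch hch1 hch2 using hch
  refine ⟨used.image ch, ?_, ?_, ?_⟩
  · intro τ hτ
    obtain ⟨p, hp, rfl⟩ := Finset.mem_image.1 hτ
    exact hch1 p hp
  · have hN0 : 0 ≤ N := Int.ceil_nonneg (by positivity)
    have h3 : (used.image ch).card ≤ ((2 * N + 1).toNat * (2 * N + 1).toNat) ^ Fintype.card X := by
      refine Finset.card_image_le.trans ((Finset.card_filter_le _ _).trans ?_)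
      rw [hcells, Fintype.card_piFinset, Finset.prod_const, Finset.card_univ, Finset.card_product, Int.card_Icc]
      have : N + 1 - -N = 2 * N + 1 := by ring
      rw [this]
    have h4 : (((2 * N + 1).toNat : ℕ) : ℝ) = 2 * N + 1 := by
      have : (((2 * N + 1).toNat : ℤ) : ℝ) = ((2 * N + 1 : ℤ) : ℝ) := by
        rw [Int.toNat_of_nonneg (by omega)]
      push_cast at this
      exact this
    have h5 : (2 * (N : ℝ) + 1) ≤ (4 * M + 3) * r⁻¹ := by
      have h6 : (N : ℝ) ≤ M / s + 1 := (Int.ceil_lt_add_one _).le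
      have h7 : M / s = 2 * M * r⁻¹ := by rw [hs]; field_simp
      have h8 : 1 ≤ r⁻¹ := (one_le_inv₀ hr).2 hr1
      rw [h7] at h6
      nlinarith
    calc ((used.image ch).card : ℝ) ≤ ((((2 * N + 1).toNat * (2 * N + 1).toNat) ^ Fintype.card X : ℕ) : ℝ) := by
          exact_mod_cast h3
      _ = ((2 * N + 1) * (2 * N + 1)) ^ Fintype.card X := by rw [Nat.cast_pow, Nat.cast_mul, h4]
      _ ≤ (((4 * M + 3) * r⁻¹) * ((4 * M + 3) * r⁻¹)) ^ Fintype.card X := by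
          have : (0 : ℝ) ≤ N := by exact_mod_cast hN0
          refine pow_le_pow_left₀ (by positivity) ?_ _
          exact mul_le_mul h5 h5 (by linarith) (by positivity)
      _ = _ := by
          congr 1
          rw [← inv_pow]
          ring
  · intro t ht
    have hp : φ t ∈ used := Finset.mem_filter.2 ⟨hmem t ht, t, ht, rfl⟩
    refine ⟨ch (φ t), Finset.mem_image_of_mem _ hp, ?_⟩
    rw [pi_norm_le_iff_of_nonneg hr.le]
    intro i
    have h1 := congrFun (hch2 (φ t) hp) i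
    have h2 : ⌊(t i).re / s⌋ = ⌊(ch (φ t) i).re / s⌋ := (congrArg Prod.fst h1).symm
    have h3 : ⌊(t i).im / s⌋ = ⌊(ch (φ t) i).im / s⌋ := (congrArg Prod.snd h1).symm
    have key : ∀ x y : ℝ, ⌊x / s⌋ = ⌊y / s⌋ → |x - y| ≤ s := by
      intro x y hxy
      have h4 := Int.abs_sub_lt_one_of_floor_eq_floor hxy
      rw [← sub_div, abs_div, abs_of_pos hs0, div_lt_one hs0] at h4
      exact h4.le
    rw [Pi.sub_apply]
    calc ‖t i - ch (φ t) i‖ ≤ |(t i - ch (φ t) i).re| + |(t i - ch (φ t) i).im| := Complex.norm_le_abs_re_add_abs_im _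
      _ ≤ s + s := add_le_add (by rw [Complex.sub_re]; exact key _ _ h2) (by rw [Complex.sub_im]; exact key _ _ h3)
      _ = r := by rw [hs]; ring

/-- the exceptional points lie on at most `C T^ε` hypersurfaces of degree at most `D`, over rings of integers of
degree `g + 1` and for arbitrary constants -/
theorem oneRM (hZ0 : StmZ) (hCl : StmClose) (hCh : StmCharts) (g : ℕ) {X σ : Type} [Fintype X] [DecidableEq X]
    [Nonempty X] [Fintype σ] [DecidableEq σ] (f : σ → (X → ℂ) → ℂ) (K : Set (X → ℂ)) (hK : IsCompact K)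
    (han : ∀ i, ∀ t ∈ K, AnalyticAt ℂ (f i) t) (hind : ∀ t ∈ K, LocIndM f t) (h : Type) [Fintype h] [DecidableEq h]
    (d : ℕ) (A ε : ℝ) (hε : 0 < ε) :
    ∃ (D : ℕ) (B C T2 : ℝ), 0 < C ∧ 2 ≤ T2 ∧ ∀ T : ℝ, T2 ≤ T → ∀ R : Subring (Fin (g + 1) → ℂ), NormRing R →
      ∀ ξ : h → ℂ, Cov D ⌊C * T ^ ε⌋₊ {t : X → ℂ | t ∈ K ∧ (∀ i, Pt R T (t i)) ∧
        RelR R ξ (fun l : σ → Fin (d + 1) => ∏ i, f i t ^ (l i : ℕ)) (T ^ A) (T ^ (-B))} := by
  classical
  obtain ⟨Ch, δ, hδ, hCh'⟩ := hCh X σ f K hK han hind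
  set A₀ : ℕ := ⌈A⌉₊ with hA₀
  set fB : ℕ := flagC g (Fintype.card h) A₀ with hfB
  set B' : ℕ := fB + 1 with hB'
  obtain ⟨M, hM⟩ := hK.isBounded.exists_norm_le
  have hMb : ∀ t ∈ K, ∀ i, ‖t i‖ ≤ max M 0 := fun t ht i => ((norm_le_pi_norm t i).trans (hM t ht)).trans (le_max_left _ _)
  have hM0 : 0 ≤ max M 0 := le_max_right _ _
  set nX : ℕ := Fintype.card X with hnX
  have hnX0 : 0 < (nX : ℝ) := by
    have : 0 < nX := Fintype.card_pos
    exact_mod_cast this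
  set η : ℝ := ε / (2 * nX) with hη
  have hη0 : 0 < η := by positivity
  obtain ⟨B₂, C₂, D₂, T₀, hT₀2, hloc⟩ := local_thmM hZ0 hCl (g := g) (S := h) Ch (EE0 σ d) η hη0 A₀ B'
  set nh : ℝ := (Fintype.card h : ℝ) with hnh
  have hnh0 : 0 ≤ nh := by positivity
  refine ⟨D₂, B₂ + A₀ + 1, nh * (C₂ * ((4 * max M 0 + 3) ^ 2) ^ nX) + 1,
    max (max T₀ ((1 / δ) ^ (1 / η))) (max nh 2), ?_, le_max_of_le_right (le_max_right _ _), ?_⟩
  · positivity
  intro T hT R hR ξ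
  have hTT₀ : T₀ ≤ T := (le_max_left _ _).trans ((le_max_left _ _).trans hT)
  have hTδ : (1 / δ) ^ (1 / η) ≤ T := (le_max_right _ _).trans ((le_max_left _ _).trans hT)
  have hTh : nh ≤ T := (le_max_left _ _).trans ((le_max_right _ _).trans hT)
  have hT2 : 2 ≤ T := (le_max_right _ _).trans ((le_max_right _ _).trans hT)
  have hT1 : 1 ≤ T := by linarith
  have hTp : 0 < T := by linarith
  obtain ⟨𝒦, h𝒦card, h𝒦1, h𝒦⟩ := flagR hR A₀ hT2 ξ
  set B : ℝ := B₂ + A₀ + 1 with hB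
  have hr : T ^ (-η) ≤ δ := by
    have h1 : 0 < 1 / δ := by positivity
    have h2 : 1 / δ ≤ T ^ η := by
      calc 1 / δ = ((1 / δ) ^ (1 / η)) ^ η := by
            rw [← Real.rpow_mul h1.le]
            have : 1 / η * η = 1 := by field_simp
            rw [this, Real.rpow_one]
        _ ≤ T ^ η := Real.rpow_le_rpow (by positivity) hTδ hη0.le
    rw [Real.rpow_neg hTp.le, inv_le_comm₀ (Real.rpow_pos_of_pos hTp _) hδ]
    rwa [← one_div]
  have hrpos : 0 < T ^ (-η) := Real.rpow_pos_of_pos hTp _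
  have hr1 : T ^ (-η) ≤ 1 := Real.rpow_le_one_of_one_le_of_nonpos hT1 (by linarith)
  set S : Set (X → ℂ) := {t : X → ℂ | t ∈ K ∧ (∀ i, Pt R T (t i)) ∧
        RelR R ξ (fun l : σ → Fin (d + 1) => ∏ i, f i t ^ (l i : ℕ)) (T ^ A) (T ^ (-B))} with hS
  -- the relation for one of the systems
  set P : (h → ℂ) → (X → ℂ) → Prop := fun K' t => ExcN R T A₀ B₂ B' K' (EE0 σ d) (fun i => f i t) with hP
  have hcov : ∀ q ∈ S, ∃ K' ∈ 𝒦, P K' q := by
    intro q hq
    obtain ⟨-, -, c, hcR, hcA, l₀, hl₀, hcs⟩ := hq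
    have hcA' : ∀ e s i, ‖c e s i‖ ≤ T ^ A₀ := fun e s i => (hcA e s i).trans (by
      calc T ^ A ≤ T ^ (A₀ : ℝ) := Real.rpow_le_rpow_of_exponent_le hT1 (Nat.le_ceil _)
        _ = T ^ A₀ := Real.rpow_natCast _ _)
    obtain ⟨K', hK', l, hl, hKc, l₁, hl₁⟩ := h𝒦 _ c hcR hcA' ⟨l₀, hl₀⟩
    refine ⟨K', hK', ?_⟩
    refine ⟨fun x => c ((encE σ d).symm x.2) x.1, fun x => hcR _ _, ⟨encE σ d l₁, ?_⟩, ?_, ?_⟩
    · simp only [Equiv.symm_apply_apply]
      refine lt_of_lt_of_le ?_ hl₁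
      refine inv_strictAnti₀ (pow_pos hTp _) ?_
      exact pow_lt_pow_right₀ (by linarith) (Nat.lt_succ_self _)
    · intro x j
      exact hcA' _ _ _
    · have h2 : ∑ e : EE0 σ d, (∑ s, K' s * c ((encE σ d).symm e) s 0) *
          mv (fun i => f i q) (e : σ →₀ ℕ) =
          ∑ l, (∑ s, K' s * c l s 0) * ∏ i, f i q ^ (l i : ℕ) := by
        rw [← Equiv.sum_comp (encE σ d)]
        refine Finset.sum_congr rfl fun e _ => ?_
        rw [encE_val, mv_enc, Equiv.symm_apply_apply]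
      have h3 : l * ∑ l', (∑ s, K' s * c l' s 0) * ∏ i, f i q ^ (l' i : ℕ) =
          ∑ l', (∑ s, ξ s * c l' s 0) * ∏ i, f i q ^ (l' i : ℕ) := by
        rw [Finset.mul_sum]
        refine Finset.sum_congr rfl fun l' _ => ?_
        rw [hKc l', mul_assoc]
      have hlpos : 0 < ‖l‖ := norm_pos_iff.2 hl
      have h4 : ‖∑ l', (∑ s, K' s * c l' s 0) * ∏ i, f i q ^ (l' i : ℕ)‖ ≤
          T ^ (-B) * ‖∑ s, K' s * c l₀ s 0‖ := by
        have h5 := hcs
        rw [← h3, hKc l₀, norm_mul, norm_mul] at h5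
        have h6 : ‖l‖ * ‖∑ l', (∑ s, K' s * c l' s 0) * ∏ i, f i q ^ (l' i : ℕ)‖ ≤
            ‖l‖ * (T ^ (-B) * ‖∑ s, K' s * c l₀ s 0‖) := by
          calc _ ≤ T ^ (-B) * (‖l‖ * ‖∑ s, K' s * c l₀ s 0‖) := h5
            _ = _ := by ring
        exact le_of_mul_le_mul_left h6 hlpos
      have h5 : ‖∑ s, K' s * c l₀ s 0‖ ≤ nh * T ^ A₀ := by
        calc ‖∑ s, K' s * c l₀ s 0‖ ≤ ∑ s, ‖K' s * c l₀ s 0‖ := norm_sum_le _ _
          _ ≤ ∑ s : h, T ^ A₀ := by
              refine Finset.sum_le_sum fun s _ => ?_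
              rw [norm_mul]
              calc ‖K' s‖ * ‖c l₀ s 0‖ ≤ 1 * T ^ A₀ :=
                    mul_le_mul (h𝒦1 K' hK' s) (hcA' _ _ _) (norm_nonneg _) zero_le_one
                _ = T ^ A₀ := one_mul _
          _ = nh * T ^ A₀ := by rw [Finset.sum_const, Finset.card_univ, nsmul_eq_mul]
      rw [h2]
      refine h4.trans ?_
      calc T ^ (-B) * ‖∑ s, K' s * c l₀ s 0‖ ≤ T ^ (-B) * (nh * T ^ A₀) :=
            mul_le_mul_of_nonneg_left h5 (Real.rpow_pos_of_pos hTp _).le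
        _ ≤ T ^ (-B) * (T * T ^ A₀) := by
            refine mul_le_mul_of_nonneg_left ?_ (Real.rpow_pos_of_pos hTp _).le
            exact mul_le_mul_of_nonneg_right hTh (pow_nonneg hTp.le _)
        _ = T ^ (-(B₂ : ℝ)) := by
            rw [← pow_succ', ← Real.rpow_natCast, ← Real.rpow_add hTp]
            congr 1
            rw [hB]
            push_cast
            ring
        _ = (T ^ B₂)⁻¹ := by rw [Real.rpow_neg hTp.le, Real.rpow_natCast]
  obtain ⟨J, hJS, hJcard, hJ⟩ := exists_net hM0 hrpos hr1 S (fun t ht => hMb t ht.1)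
  have hpiece : ∀ x ∈ 𝒦 ×ˢ J, Cov D₂ C₂ {t : X → ℂ | t ∈ S ∧ ‖t - x.2‖ ≤ T ^ (-η) ∧ P x.1 t} := by
    rintro ⟨K', τ⟩ hx
    obtain ⟨hK', hτ⟩ := Finset.mem_product.1 hx
    obtain ⟨θ, hθ, hdom, hu⟩ := hCh' τ (hJS τ hτ).1
    refine (hloc T hTT₀ R hR K' (fun s => (h𝒦1 K' hK' s).trans (one_le_pow₀ hT1)) θ).mono le_rfl le_rfl ?_
    rintro t ⟨htS, htτ, htP⟩
    simp only at htτ htP
    refine ⟨hdom ?_, ?_, htS.2.1, ?_⟩
    · rw [Metric.mem_closedBall, dist_eq_norm]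
      exact htτ.trans hr
    · rw [hθ]
      exact htτ
    · rw [hu]
      exact htP
  have hcovS := Cov.biUnion (𝒦 ×ˢ J) (fun x => {t : X → ℂ | t ∈ S ∧ ‖t - x.2‖ ≤ T ^ (-η) ∧ P x.1 t}) hpiece
  refine hcovS.mono le_rfl ?_ ?_
  · apply Nat.le_floor
    rw [Finset.card_product]
    push_cast
    have h5 : (((T ^ (-η)) ^ 2)⁻¹) ^ nX = T ^ ε := by
      rw [← Real.rpow_natCast (T ^ (-η)) 2, ← Real.rpow_mul hTp.le, ← Real.rpow_neg hTp.le, ← Real.rpow_natCast,
        ← Real.rpow_mul hTp.le]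
      congr 1
      rw [hη]
      push_cast
      field_simp
    have h6 : 0 ≤ T ^ ε := (Real.rpow_pos_of_pos hTp _).le
    have hKh : (𝒦.card : ℝ) ≤ nh := by rw [hnh]; exact_mod_cast h𝒦card
    calc (𝒦.card : ℝ) * J.card * C₂ ≤ nh * ((4 * max M 0 + 3) ^ 2 * ((T ^ (-η)) ^ 2)⁻¹) ^ nX * C₂ := by
          refine mul_le_mul_of_nonneg_right ?_ (Nat.cast_nonneg _)
          exact mul_le_mul hKh hJcard (Nat.cast_nonneg _) hnh0
      _ = nh * (C₂ * ((4 * max M 0 + 3) ^ 2) ^ nX) * T ^ ε := by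
          rw [mul_pow, h5]
          ring
      _ ≤ (nh * (C₂ * ((4 * max M 0 + 3) ^ 2) ^ nX) + 1) * T ^ ε := by
          refine mul_le_mul_of_nonneg_right (by linarith) h6
  · intro t ht
    obtain ⟨K', hK', hPt⟩ := hcov t ht
    obtain ⟨τ, hτ, htτ⟩ := hJ t ht
    refine Set.mem_biUnion (x := (K', τ)) (Finset.mem_coe.2 (Finset.mem_product.2 ⟨hK', hτ⟩)) ?_
    exact ⟨ht, htτ, hPt⟩

end Pool.Agent.Y890.MV
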