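import Pool.Agent.Y890.SP.Int
import Pool.Agent.Y890.MV.OneRM
import Pool.Agent.Y124.NFPoly

/-!
# Homogenization and number fields, several variables
-/

set_option autoImplicit false
set_option linter.unusedSectionVars false

open NumberField

namespace Pool.Agent.Y890.MV

open Pool.Agent.Y120 (HtLe NormRing Pt RK RK_norm gK Pt_of_HtLe)
open Pool.Agent.Y124 (Cov RelR RelK RelR_of_RelK RelR_mono gK_lt exists_sV' eval_eq_box sV)

section
variable {X Λ h : Type} [Fintype X] [DecidableEq X] [Fintype Λ] [DecidableEq Λ] [Fintype h] [DecidableEq h]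

/-- the homogenized polynomial in the numerators, the denominator and the integral coordinates of the coefficients -/
noncomputable def hmgM (ξ : h → ℂ) (J : ℕ) (r : MvPolynomial Λ (MvPolynomial X ℂ)) :
    MvPolynomial (Option X ⊕ (Λ × h)) ℂ :=
  ∑ ν ∈ r.support, ∑ α ∈ (r.coeff ν).support, MvPolynomial.C ((r.coeff ν).coeff α) *
    (∏ i, (MvPolynomial.X (Sum.inl (some i))) ^ (α i)) * (MvPolynomial.X (Sum.inl none)) ^ (J - ∑ i, α i) *
      ∏ l, (∑ i, MvPolynomial.C (ξ i) * MvPolynomial.X (Sum.inr (l, i))) ^ (ν l)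

theorem hmgM_eval (ξ : h → ℂ) (J : ℕ) (r : MvPolynomial Λ (MvPolynomial X ℂ))
    (hJ : ∀ ν, (r.coeff ν).totalDegree ≤ J)
    (w : Option X ⊕ (Λ × h) → ℂ) (hw : w (Sum.inl none) ≠ 0) :
    MvPolynomial.eval w (hmgM ξ J r) = w (Sum.inl none) ^ J *
      MvPolynomial.eval₂ (MvPolynomial.eval fun i => w (Sum.inl (some i)) / w (Sum.inl none))
        (fun l => ∑ i, ξ i * w (Sum.inr (l, i))) r := by
  classical
  rw [MvPolynomial.eval₂_eq', hmgM, map_sum, Finset.mul_sum]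
  refine Finset.sum_congr rfl fun ν _ => ?_
  rw [map_sum, MvPolynomial.eval_eq' _ (r.coeff ν), Finset.sum_mul, Finset.mul_sum]
  refine Finset.sum_congr rfl fun α hα => ?_
  have hj' : ∑ i, α i ≤ J := by
    have h3 := MvPolynomial.le_totalDegree hα
    rw [Finsupp.sum_fintype _ _ (fun _ => rfl)] at h3
    exact h3.trans (hJ ν)
  simp only [map_mul, map_pow, map_prod, map_sum, MvPolynomial.eval_C, MvPolynomial.eval_X]
  have h1 : w (Sum.inl none) ^ J = w (Sum.inl none) ^ (∑ i, α i) * w (Sum.inl none) ^ (J - ∑ i, α i) := by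
    rw [← pow_add]
    congr 1
    omega
  have h2 : w (Sum.inl none) ^ (∑ i, α i) * ∏ i, (w (Sum.inl (some i)) / w (Sum.inl none)) ^ α i =
      ∏ i, w (Sum.inl (some i)) ^ α i := by
    rw [← Finset.prod_pow_eq_pow_sum, ← Finset.prod_mul_distrib]
    refine Finset.prod_congr rfl fun i _ => ?_
    rw [← mul_pow, mul_div_cancel₀ _ hw]
  rw [h1, ← h2]
  ring

theorem hmgM_degree (ξ : h → ℂ) (J : ℕ) (r : MvPolynomial Λ (MvPolynomial X ℂ))
    (hJ : ∀ ν, (r.coeff ν).totalDegree ≤ J) : (hmgM ξ J r).totalDegree ≤ J + r.totalDegree := by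
  classical
  rw [hmgM]
  refine MvPolynomial.totalDegree_finsetSum_le fun ν hν => ?_
  refine MvPolynomial.totalDegree_finsetSum_le fun α hα => ?_
  have hj' : ∑ i, α i ≤ J := by
    have h3 := MvPolynomial.le_totalDegree hα
    rw [Finsupp.sum_fintype _ _ (fun _ => rfl)] at h3
    exact h3.trans (hJ ν)
  have h1 : (∏ l, (∑ i, MvPolynomial.C (ξ i) * MvPolynomial.X (Sum.inr (l, i)) :
      MvPolynomial (Option X ⊕ (Λ × h)) ℂ) ^ (ν l)).totalDegree ≤ r.totalDegree := by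
    refine (MvPolynomial.totalDegree_finsetProd _ _).trans ?_
    have h2 : ∑ l, ν l ≤ r.totalDegree := by
      have h3 := MvPolynomial.le_totalDegree hν
      rwa [Finsupp.sum_fintype _ _ (fun _ => rfl)] at h3
    refine le_trans (Finset.sum_le_sum fun l _ => ?_) h2
    refine (MvPolynomial.totalDegree_pow _ _).trans ?_
    have h4 : (∑ i, MvPolynomial.C (ξ i) * MvPolynomial.X (Sum.inr (l, i)) :
      MvPolynomial (Option X ⊕ (Λ × h)) ℂ).totalDegree ≤ 1 := by
      refine MvPolynomial.totalDegree_finsetSum_le fun i _ => ?_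
      refine (MvPolynomial.totalDegree_mul _ _).trans ?_
      rw [MvPolynomial.totalDegree_C, MvPolynomial.totalDegree_X]
    nlinarith
  refine (MvPolynomial.totalDegree_mul _ _).trans ?_
  refine add_le_add ?_ h1
  refine (MvPolynomial.totalDegree_mul _ _).trans ?_
  have h5 : (MvPolynomial.C ((r.coeff ν).coeff α) * (∏ i, (MvPolynomial.X (Sum.inl (some i))) ^ (α i)) :
      MvPolynomial (Option X ⊕ (Λ × h)) ℂ).totalDegree ≤ ∑ i, α i := by
    refine (MvPolynomial.totalDegree_mul _ _).trans ?_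
    rw [MvPolynomial.totalDegree_C, zero_add]
    refine (MvPolynomial.totalDegree_finsetProd _ _).trans ?_
    refine Finset.sum_le_sum fun i _ => ?_
    rw [MvPolynomial.totalDegree_X_pow]
  have h6 : ((MvPolynomial.X (Sum.inl none)) ^ (J - ∑ i, α i) :
      MvPolynomial (Option X ⊕ (Λ × h)) ℂ).totalDegree ≤ J - ∑ i, α i := by
    rw [MvPolynomial.totalDegree_X_pow]
  omega

end

theorem relK_of_poly1 {h κ : Type} [Fintype h] [Fintype κ] [DecidableEq κ] {d : ℕ} (K : Type) [Field K] [NumberField K]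
    (io : K →+* ℂ) (ξ : h → ℂ) (v : κ → ℂ) (H δ : ℝ) (P : MvPolynomial κ ℂ)
    (hd : ∀ x, P.degreeOf x ≤ d)
    (hP : ∀ s, ∃ c : h → 𝓞 K, (∀ i (φ : K →+* ℂ), ‖φ (c i : K)‖ ≤ H) ∧ P.coeff s = ∑ i, ξ i * io (c i : K))
    (s₀ : κ →₀ ℕ) (hs₀ : P.coeff s₀ ≠ 0)
    (hs : ‖MvPolynomial.aeval v P‖ ≤ δ * ‖P.coeff s₀‖) :
    RelK K io ξ (fun e : κ → Fin (d + 1) => ∏ i, v i ^ (e i : ℕ)) H δ := by
  classical
  choose c hc1 hc2 using hP
  obtain ⟨z₀, hz₀⟩ := exists_sV' P hd s₀ (MvPolynomial.mem_support_iff.2 hs₀)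
  refine ⟨fun e => c (sV e), fun l s φ => hc1 _ _ _, z₀, ?_, ?_⟩
  · rw [← hc2, hz₀]
    exact hs₀
  · rw [← hc2, hz₀]
    refine le_trans (le_of_eq ?_) hs
    congr 1
    rw [eval_eq_box _ P hd]
    refine Finset.sum_congr rfl fun z _ => ?_
    rw [← hc2]

/-- all number fields of bounded degree -/
theorem nfM (hZ0 : StmZ) (hCl : StmClose) (hCh : StmCharts) (m : ℕ) {X σ : Type} [Fintype X] [DecidableEq X]
    [Nonempty X] [Fintype σ] [DecidableEq σ] (f : σ → (X → ℂ) → ℂ) (L : Set (X → ℂ)) (hL : IsCompact L)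
    (han : ∀ i, ∀ t ∈ L, AnalyticAt ℂ (f i) t) (hind : ∀ t ∈ L, LocIndM f t) (h : Type) [Fintype h] [DecidableEq h]
    (d : ℕ) (A ε : ℝ) (hε : 0 < ε) :
    ∃ (D : ℕ) (B C T₀ : ℝ), 0 ≤ C ∧ 2 ≤ T₀ ∧ ∀ (K : Type) [Field K] [NumberField K], Module.finrank ℚ K ≤ m →
      ∀ (io : K →+* ℂ) (ξ : h → ℂ) (T : ℝ), T₀ ≤ T → Cov D ⌊C * T ^ ε⌋₊ {t : X → ℂ | t ∈ L ∧ ∃ s : X → K,
        (∀ i, HtLe K T (s i)) ∧ (t = fun i => io (s i)) ∧
          RelK K io ξ (fun l : σ → Fin (d + 1) => ∏ i, f i t ^ (l i : ℕ)) (T ^ A) (T ^ (-B))} := by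
  classical
  choose D B C T2 hC hT2 H using fun g : ℕ => oneRM hZ0 hCl hCh g f L hL han hind h d A ε hε
  refine ⟨∑ g ∈ Finset.range m, D g, ∑ g ∈ Finset.range m, |B g|, ∑ g ∈ Finset.range m, C g,
    2 + ∑ g ∈ Finset.range m, T2 g, Finset.sum_nonneg fun g _ => (hC g).le, ?_, ?_⟩
  · have : 0 ≤ ∑ g ∈ Finset.range m, T2 g := Finset.sum_nonneg fun g _ => by linarith [hT2 g]
    linarith
  intro K _ _ hm io ξ T hT
  set g := gK K with hg
  have hgm : g ∈ Finset.range m := Finset.mem_range.2 (gK_lt K hm)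
  have hTT : T2 g ≤ T := by
    have h1 := Finset.single_le_sum (f := T2) (fun g _ => by linarith [hT2 g]) hgm
    linarith
  have hBB : B g ≤ ∑ g ∈ Finset.range m, |B g| :=
    (le_abs_self _).trans (Finset.single_le_sum (f := fun g => |B g|) (fun g _ => abs_nonneg _) hgm)
  have hCC : C g ≤ ∑ g ∈ Finset.range m, C g := Finset.single_le_sum (f := C) (fun g _ => (hC g).le) hgm
  have hDD : D g ≤ ∑ g ∈ Finset.range m, D g := Finset.single_le_sum (f := D) (fun g _ => Nat.zero_le _) hgm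
  have hT1 : 1 ≤ T := by linarith [hT2 g]
  refine (H g T hTT (RK K io) (RK_norm K io) ξ).mono hDD ?_ ?_
  · apply Nat.floor_le_floor
    exact mul_le_mul_of_nonneg_right hCC (Real.rpow_pos_of_pos (by linarith) _).le
  · rintro t ⟨htL, s, hs, rfl, hrel⟩
    refine ⟨htL, fun i => Pt_of_HtLe K io (hs i), ?_⟩
    refine RelR_mono (Real.rpow_le_rpow_of_exponent_le hT1 (neg_le_neg hBB)) ?_
    exact RelR_of_RelK K io ξ _ _ _ hrel

end Pool.Agent.Y890.MV
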