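import Pool.Agent.Y890.MV.Abs
import Pool.Agent.Y890.MV.Ar
import Pool.Agent.Y890.MV.GP

/-!
# The local theorem in several variables: the exceptional points in a small ball lie on a bounded number of
# hypersurfaces of bounded degree (adapted from `Y120.Loc`)
-/

set_option autoImplicit false

open Finset Filter Topology

namespace Pool.Agent.Y890.MV

open Pool.Agent.Y120 (cm mv map_cm map_mv NormRing Pt ExcN Scale OO evj pr pr_surj pr_eq_zero wK_na wK_le_exp
  wK_ge_exp wK_le mem_OO_of_bdd)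
open Pool.Agent.Y124 (Cov)

/-- the local theorem in several variables, with arbitrary constants `κ` -/
theorem local_thmM (hZ0 : StmZ) (hCl : StmClose) {g : ℕ} {X σ S : Type} [Fintype X] [DecidableEq X] [Nonempty X]
    [Fintype S] (Ch : Charts X σ) (E : Finset (σ →₀ ℕ)) (η : ℝ) (hη : 0 < η) (A B' : ℕ) :
    ∃ (B C D : ℕ) (T₀ : ℝ), 2 ≤ T₀ ∧ ∀ T : ℝ, T₀ ≤ T → ∀ R : Subring (Fin (g + 1) → ℂ), NormRing R →
    ∀ κ : S → ℂ, (∀ s, ‖κ s‖ ≤ T ^ B') → ∀ θ : Ch.Θ,
      Cov D C {t : X → ℂ | t ∈ Ch.dom θ ∧ ‖t - Ch.τ θ‖ ≤ T ^ (-η) ∧ (∀ i, Pt R T (t i)) ∧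
        ExcN R T A B B' κ E (fun i => Ch.u θ i t)} := by
  classical
  by_contra hcon
  push Not at hcon
  choose CC₀ DD₀ hgp₀ using fun j : ℕ => exists_gp (F := ℂ) (X := X) j j
  have h : ∀ j : ℕ, ∃ T : ℝ, max (j : ℝ) 2 ≤ T ∧ ∃ R : Subring (Fin (g + 1) → ℂ), NormRing R ∧
    ∃ κ : S → ℂ, (∀ s, ‖κ s‖ ≤ T ^ B') ∧ ∃ θ : Ch.Θ, ∃ t : ℕ → X → ℂ,
    (∀ k < j, t k ∈ Ch.dom θ ∧ ‖t k - Ch.τ θ‖ ≤ T ^ (-η) ∧ (∀ i, Pt R T (t k i)) ∧
      ExcN R T A j B' κ E (fun i => Ch.u θ i (t k))) ∧ GPos j t j := by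
    intro j
    obtain ⟨T, hT, R, hR, κ, hκ, θ, hc⟩ := hcon j (CC₀ j) (DD₀ j) (max (j : ℝ) 2) (le_max_right _ _)
    obtain ⟨t, ht, hg⟩ := hgp₀ j _ hc
    exact ⟨T, hT, R, hR, κ, hκ, θ, t, ht, hg⟩
  choose T hT R hR κ hκ θ t hpts hGP using h
  have hT2 : ∀ j, 2 ≤ T j := fun j => (le_max_right _ _).trans (hT j)
  have hT1 : ∀ j, 1 ≤ T j := fun j => by have := hT2 j; linarith
  have hTp : ∀ j, 0 < T j := fun j => by have := hT2 j; linarith
  have hUle : ((hyperfilter ℕ : Ultrafilter ℕ) : Filter ℕ) ≤ atTop := Nat.hyperfilter_le_atTop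
  set s : Scale := ⟨hyperfilter ℕ, T, hT2, by
    have h1 : Tendsto T atTop atTop :=
      tendsto_atTop_mono (fun j => (le_max_left _ _).trans (hT j)) tendsto_natCast_atTop_atTop
    exact h1.mono_left hUle⟩ with hs
  have hge : ∀ k : ℕ, ∀ᶠ j in s.U, k < j := fun k => hUle (eventually_gt_atTop k)
  have hdata : ∀ j k : ℕ, ∃ (a b : X → Fin (g + 1) → ℂ) (c : S × E → (Fin (g + 1) → ℂ)), k < j →
      (t j k ∈ Ch.dom (θ j) ∧ ‖t j k - Ch.τ (θ j)‖ ≤ T j ^ (-η)) ∧
      (∀ i, a i ∈ R j ∧ b i ∈ R j ∧ b i 0 ≠ 0 ∧ (∀ s, ‖a i s‖ ≤ T j) ∧ (∀ s, ‖b i s‖ ≤ T j) ∧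
        t j k i = a i 0 / b i 0) ∧
      ((∀ i, c i ∈ R j) ∧ (∃ e : E, (T j ^ B')⁻¹ < ‖∑ s, κ j s * c (s, e) 0‖) ∧ (∀ i j', ‖c i j'‖ ≤ T j ^ A) ∧
        ‖∑ e : E, (∑ s, κ j s * c (s, e) 0) * mv (fun i => Ch.u (θ j) i (t j k)) (e : σ →₀ ℕ)‖ ≤ (T j ^ j)⁻¹) := by
    intro j k
    by_cases hk : k < j
    · obtain ⟨h1, h2, hP, ⟨c, hc⟩⟩ := hpts j k hk
      choose a ha b hb h3 using hP
      exact ⟨a, b, c, fun _ => ⟨⟨h1, h2⟩, fun i => ⟨ha i, hb i, h3 i⟩, hc⟩⟩
    · exact ⟨0, 0, 0, fun h => absurd h hk⟩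
  choose a b c hd using hdata
  -- elements of OO
  have hκO : ∀ x : S, (fun j => κ j x) ∈ OO s := fun x => ⟨B', Eventually.of_forall fun j => hκ j x⟩
  have hcO : ∀ k (i : S × E), (fun j => c j k i 0) ∈ OO s := fun k i => ⟨A, by
    filter_upwards [hge k] with j hj
    exact (hd j k hj).2.2.2.2.1 i 0⟩
  have hτO : ∀ i, (fun j => Ch.τ (θ j) i) ∈ OO s := by
    intro i
    obtain ⟨C, hC⟩ := Ch.τb
    exact mem_OO_of_bdd s (Eventually.of_forall fun j => hC _ i)
  have haO : ∀ (m : X ⊕ σ →₀ ℕ) (p : X → ℕ), (fun j => Ch.a (θ j) m p) ∈ OO s := by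
    intro m p
    obtain ⟨C, hC⟩ := Ch.ab m p
    exact mem_OO_of_bdd s (Eventually.of_forall fun j => hC _)
  have hYO : ∀ (o : X ⊕ σ) k,
      (fun j => (Sum.elim (t j k) (fun i => Ch.u (θ j) i (t j k)) : X ⊕ σ → ℂ) o) ∈ OO s := by
    intro o k
    obtain ⟨C, hC⟩ := Ch.approx (Finsupp.single o 1) 0
    refine mem_OO_of_bdd s (C := C) ?_
    filter_upwards [hge k] with j hj
    have h1 := hC (θ j) (t j k) (hd j k hj).1.1
    have h2 : ∀ z : X ⊕ σ → ℂ, mv z (Finsupp.single o 1) = z o := by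
      intro z
      rw [mv, Finsupp.support_single o one_ne_zero, Finset.prod_singleton]
      simp
    rw [h2] at h1
    simpa using h1
  set Y : X ⊕ σ → ℕ → OO s := fun o k => ⟨_, hYO o k⟩ with hYdef
  set KAP : S → OO s := fun x => ⟨_, hκO x⟩ with hKAP
  set CC : ℕ → S × E → OO s := fun k i => ⟨_, hcO k i⟩ with hCC
  set TAU : X → OO s := fun i => ⟨_, hτO i⟩ with hTAU
  set AA : (X ⊕ σ →₀ ℕ) → (X → ℕ) → OO s := fun m p => ⟨_, haO m p⟩ with hAA
  have hevY : ∀ o k j, evj s j (Y o k) = (Sum.elim (t j k) (fun i => Ch.u (θ j) i (t j k)) : X ⊕ σ → ℂ) o :=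
    fun o k j => rfl
  have hevC : ∀ k i j, evj s j (CC k i) = c j k i 0 := fun k i j => rfl
  have hevK : ∀ x j, evj s j (KAP x) = κ j x := fun x j => rfl
  have hevT : ∀ i j, evj s j (TAU i) = Ch.τ (θ j) i := fun i j => rfl
  have hevA : ∀ m p j, evj s j (AA m p) = Ch.a (θ j) m p := fun m p j => rfl
  have hev : ∀ (x : OO s) j, x.1 j = evj s j x := fun x j => rfl
  set q : ℕ := Fintype.card X with hq
  -- the lower bound for determinants
  have hlowdet : ∀ (D δ N : ℕ) (p : Fin N → ℕ) (m : Fin N → (X → ℕ) × (S × E → ℕ)), (∀ l i, (m l).1 i < D) →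
      (∀ l, ∑ i, (m l).2 i = δ) →
      (∀ᶠ j in s.U, (Matrix.of fun a' l => cm (t j (p a')) (m l).1 * cm (fun i => c j (p a') i 0) (m l).2).det ≠ 0) →
      Real.exp (-((g + 1) * (A + 1) * (q + 1) : ℕ)) ^ (N * (D + δ)) ≤
        Pool.Agent.Y120.wK s (Matrix.of fun a' l => cm (fun i => pr s (Y (Sum.inl i) (p a'))) (m l).1 *
          cm (fun i => pr s (CC (p a') i)) (m l).2).det := by
    intro D δ N p m hm1 hm2 hne
    have h0 : (Matrix.of fun a' l => cm (fun i => pr s (Y (Sum.inl i) (p a'))) (m l).1 *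
        cm (fun i => pr s (CC (p a') i)) (m l).2).det =
        pr s (Matrix.of fun a' l => cm (fun i => Y (Sum.inl i) (p a')) (m l).1 * cm (CC (p a')) (m l).2).det := by
      rw [RingHom.map_det]
      congr 1
      ext a' l
      simp only [Matrix.of_apply, RingHom.mapMatrix_apply, Matrix.map_apply, map_mul, map_cm]
    have h0' : ∀ j, evj s j (Matrix.of fun a' l => cm (fun i => Y (Sum.inl i) (p a')) (m l).1 *
        cm (CC (p a')) (m l).2).det =
        (Matrix.of fun a' l => cm (t j (p a')) (m l).1 * cm (fun i => c j (p a') i 0) (m l).2).det := by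
      intro j
      rw [RingHom.map_det]
      congr 1
      ext a' l
      simp only [Matrix.of_apply, RingHom.mapMatrix_apply, Matrix.map_apply, map_mul, map_cm, hevY, hevC]
      rfl
    rw [h0, ← Real.exp_nat_mul]
    refine wK_ge_exp s (C := ((N.factorial : ℝ) ^ g)⁻¹) (by
      have : (0 : ℝ) < N.factorial := by exact_mod_cast N.factorial_pos
      positivity) ?_
    have hall : ∀ᶠ j in s.U, ∀ a' : Fin N, p a' < j := Filter.eventually_all.2 fun a' => hge (p a')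
    filter_upwards [hall, hne] with j hj hj'
    rw [hev, h0']
    have h1 : ∀ a', t j (p a') = fun i => a j (p a') i 0 / b j (p a') i 0 := fun a' =>
      funext fun i => ((hd j (p a') (hj a')).2.1 i).2.2.2.2.2
    simp only [h1] at hj' ⊢
    have h2 := det_lowM (hR j) (hT1 j) A D δ (fun a' => a j (p a')) (fun a' => b j (p a'))
      (fun a' i => ((hd j (p a') (hj a')).2.1 i).1) (fun a' i => ((hd j (p a') (hj a')).2.1 i).2.1)
      (fun a' i => ((hd j (p a') (hj a')).2.1 i).2.2.1) (fun a' i => ((hd j (p a') (hj a')).2.1 i).2.2.2.1)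
      (fun a' i => ((hd j (p a') (hj a')).2.1 i).2.2.2.2.1) (fun a' => c j (p a'))
      (fun a' x => (hd j (p a') (hj a')).2.2.1 x) (fun a' x s' => (hd j (p a') (hj a')).2.2.2.2.1 x s') m hm1 hm2 hj'
    refine le_trans ?_ h2
    refine mul_le_mul_of_nonneg_left ?_ (by positivity)
    rw [← Real.rpow_natCast, ← Real.rpow_neg (hTp j).le]
    refine Real.rpow_le_rpow_of_exponent_le (hT1 j) ?_
    have h3 : N * (g + 1) * (q * D + A * δ) ≤ N * (D + δ) * ((g + 1) * (A + 1) * (q + 1)) := by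
      have h4 : q * D + A * δ ≤ (D + δ) * ((A + 1) * (q + 1)) := by nlinarith [Nat.zero_le (A * q * D), Nat.zero_le (A * q * δ), Nat.zero_le (q * δ), Nat.zero_le (A * D)]
      calc N * (g + 1) * (q * D + A * δ) ≤ N * (g + 1) * ((D + δ) * ((A + 1) * (q + 1))) := Nat.mul_le_mul_left _ h4
        _ = N * (D + δ) * ((g + 1) * (A + 1) * (q + 1)) := by ring
    have h5 : ((N * (g + 1) * (q * D + A * δ) : ℕ) : ℝ) ≤ ((N * (D + δ) * ((g + 1) * (A + 1) * (q + 1)) : ℕ) : ℝ) := by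
      exact_mod_cast h3
    have h6 : ((N * (D + δ) : ℕ) : ℝ) * -(((g + 1) * (A + 1) * (q + 1) : ℕ) : ℝ) =
        -((N * (D + δ) * ((g + 1) * (A + 1) * (q + 1)) : ℕ) : ℝ) := by push_cast; ring
    rw [h6]
    linarith
  refine abstract_false hZ0 hCl (wK_na s) (σ := σ) (S := S) E (ρ := Real.exp (-η))
    (Real.exp_pos _) (by rw [Real.exp_lt_one_iff]; linarith)
    (fun k i => pr s (Y (Sum.inl i) k)) (fun k i => pr s (Y (Sum.inr i) k)) (fun i => pr s (TAU i)) ?_ ?_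
    (fun m p => pr s (AA m p)) ?_ ?_ ?_
    (fun x => pr s (KAP x)) (fun k i => pr s (CC k i)) (Real.exp A) (Real.one_le_exp (by positivity)) ?_ ?_ ?_
    (Real.exp (-((g + 1) * (A + 1) * (q + 1) : ℕ))) (Real.exp_pos _) ?_ ?_
  · -- hτ
    intro i
    obtain ⟨C, hC⟩ := Ch.τb
    have hC' : 0 < max C 1 := lt_max_of_lt_right one_pos
    have h1 := wK_le_exp s (x := TAU i) (C := max C 1) (a := 0) hC' (Eventually.of_forall fun j => by
      rw [Real.rpow_zero, mul_one]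
      exact (hC _ i).trans (le_max_left _ _))
    rwa [Real.exp_zero] at h1
  · -- hx
    intro k i
    rw [← map_sub]
    refine wK_le_exp s (C := 1) one_pos ?_
    filter_upwards [hge k] with j hj
    rw [one_mul, hev, map_sub, hevY, hevT]
    exact (norm_le_pi_norm (t j k - Ch.τ (θ j)) i).trans (hd j k hj).1.2
  · -- ha
    intro m p
    obtain ⟨C, hC⟩ := Ch.ab m p
    have hC' : 0 < max C 1 := lt_max_of_lt_right one_pos
    have h1 := wK_le_exp s (x := AA m p) (C := max C 1) (a := 0) hC' (Eventually.of_forall fun j => by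
      rw [Real.rpow_zero, mul_one]
      exact (hC _).trans (le_max_left _ _))
    rwa [Real.exp_zero] at h1
  · -- hf
    intro m P k
    obtain ⟨C, hC⟩ := Ch.approx m P
    have hC' : 0 < max C 1 := lt_max_of_lt_right one_pos
    have hse : (Sum.elim (fun i => pr s (Y (Sum.inl i) k)) (fun i => pr s (Y (Sum.inr i) k)) : X ⊕ σ → _) =
        fun o => pr s (Y o k) := by
      funext o
      rcases o with i | i <;> rfl
    have h0 : mv (fun o => pr s (Y o k)) m - ∑ p : X → Fin P, pr s (AA m fun i => (p i : ℕ)) *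
        cm (fun i => pr s (Y (Sum.inl i) k) - pr s (TAU i)) (fun i => (p i : ℕ)) =
        pr s (mv (fun o => Y o k) m - ∑ p : X → Fin P, AA m (fun i => (p i : ℕ)) *
          cm (fun i => Y (Sum.inl i) k - TAU i) (fun i => (p i : ℕ))) := by
      simp only [map_sub, map_sum, map_mul, map_mv, map_cm]
    rw [hse, h0, ← Real.exp_nat_mul]
    refine wK_le_exp s (C := max C 1) hC' ?_
    filter_upwards [hge k] with j hj
    rw [hev]
    simp only [map_sub, map_sum, map_mul, map_mv, map_cm, hevA, hevY, hevT]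
    have h1 := hC (θ j) (t j k) (hd j k hj).1.1
    have h2 : ‖t j k - Ch.τ (θ j)‖ ^ P ≤ T j ^ ((P : ℝ) * (-η)) := by
      rw [mul_comm, Real.rpow_mul (hTp j).le, Real.rpow_natCast]
      exact pow_le_pow_left₀ (norm_nonneg _) (hd j k hj).1.2 _
    calc _ ≤ C * ‖t j k - Ch.τ (θ j)‖ ^ P := h1
      _ ≤ max C 1 * ‖t j k - Ch.τ (θ j)‖ ^ P := mul_le_mul_of_nonneg_right (le_max_left _ _) (by positivity)
      _ ≤ max C 1 * T j ^ ((P : ℝ) * (-η)) := mul_le_mul_of_nonneg_left h2 hC'.le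
  · -- hND
    intro 𝓜
    obtain ⟨N₀, c₀, hc₀, hnd⟩ := Ch.nd 𝓜
    refine ⟨N₀, fun G => ?_⟩
    choose G' hG' using fun m => pr_surj s (G m)
    have h1 : ∀ᶠ j in s.U, ∃ p : X → Fin (N₀ + 1), ∀ m ∈ 𝓜, c₀ * ‖evj s j (G' m)‖ ≤
        ‖∑ m' ∈ 𝓜, evj s j (G' m') * Ch.a (θ j) m' (fun i => (p i : ℕ))‖ := Eventually.of_forall fun j => by
      obtain ⟨p, hp, hpp⟩ := hnd (θ j) (fun m => evj s j (G' m))
      exact ⟨fun i => ⟨p i, Nat.lt_succ_of_le (hp i)⟩, hpp⟩
    have h2 : ∃ p : X → Fin (N₀ + 1), ∀ᶠ j in s.U, ∀ m ∈ 𝓜, c₀ * ‖evj s j (G' m)‖ ≤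
        ‖∑ m' ∈ 𝓜, evj s j (G' m') * Ch.a (θ j) m' (fun i => (p i : ℕ))‖ := by
      by_contra hne
      push Not at hne
      have h3 : ∀ p : X → Fin (N₀ + 1), ∀ᶠ j in s.U, ¬ ∀ m ∈ 𝓜, c₀ * ‖evj s j (G' m)‖ ≤
          ‖∑ m' ∈ 𝓜, evj s j (G' m') * Ch.a (θ j) m' (fun i => (p i : ℕ))‖ := fun p => (hne p).mono fun j hj hall => by
        obtain ⟨m, hm, hlt⟩ := hj
        exact absurd (hall m hm) (not_le.2 hlt)
      have h4 := (Filter.eventually_all.2 h3).and h1
      obtain ⟨j, hj1, p, hj2⟩ := h4.exists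
      exact hj1 p hj2
    obtain ⟨p, hp⟩ := h2
    refine ⟨fun i => (p i : ℕ), fun i => Nat.lt_succ_iff.1 (p i).2, fun m hm => ?_⟩
    have h0 : ∑ m' ∈ 𝓜, G m' * pr s (AA m' fun i => (p i : ℕ)) =
        pr s (∑ m' ∈ 𝓜, G' m' * AA m' fun i => (p i : ℕ)) := by
      simp only [map_sum, map_mul, hG']
    rw [h0, ← hG' m]
    have h5 := wK_le s (x := G' m) (y := ∑ m' ∈ 𝓜, G' m' * AA m' fun i => (p i : ℕ)) (C := c₀⁻¹) (a := 0)
      (inv_pos.2 hc₀) (by
      filter_upwards [hp] with j hj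
      have h6 := hj m hm
      rw [Real.rpow_zero, mul_one, hev, hev, map_sum]
      simp only [map_mul, hevA]
      rw [le_inv_mul_iff₀ hc₀]
      exact h6)
    rwa [Real.exp_zero, one_mul] at h5
  · -- hcY
    intro k i
    refine wK_le_exp s (C := 1) one_pos ?_
    filter_upwards [hge k] with j hj
    rw [one_mul, Real.rpow_natCast]
    exact (hd j k hj).2.2.2.2.1 i 0
  · -- hrel
    intro k
    have h0 : ∑ e : E, (∑ x, pr s (KAP x) * pr s (CC k (x, e))) * mv (fun i => pr s (Y (Sum.inr i) k)) (e : σ →₀ ℕ) =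
        pr s (∑ e : E, (∑ x, KAP x * CC k (x, e)) * mv (fun i => Y (Sum.inr i) k) (e : σ →₀ ℕ)) := by
      simp only [map_sum, map_mul, map_mv]
    rw [h0, pr_eq_zero]
    intro n
    filter_upwards [hge k, hge n] with j hj hj'
    rw [hev]
    simp only [map_sum, map_mul, map_mv, hevK, hevC, hevY]
    refine (hd j k hj).2.2.2.2.2.trans ?_
    exact inv_anti₀ (pow_pos (hTp j) _) (pow_le_pow_right₀ (hT1 j) hj'.le)
  · -- hgood
    intro k
    by_contra hne
    push Not at hne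
    have h1 : ∀ e : E, ∀ᶠ j in s.U, ‖∑ x, κ j x * c j k (x, e) 0‖ ≤ (T j ^ B')⁻¹ := by
      intro e
      have h2 := hne e
      have h0 : ∑ x, pr s (KAP x) * pr s (CC k (x, e)) = pr s (∑ x, KAP x * CC k (x, e)) := by
        simp only [map_sum, map_mul]
      rw [h0, pr_eq_zero] at h2
      filter_upwards [h2 B'] with j hj
      rw [hev] at hj
      simpa only [map_sum, map_mul, hevK, hevC] using hj
    have h2 := (Filter.eventually_all.2 h1).and (hge k)
    obtain ⟨j, hj1, hj2⟩ := h2.exists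
    obtain ⟨hcR, ⟨e, h3⟩, hcT, -⟩ := (hd j k hj2).2.2
    exact absurd (hj1 e) (not_le.2 h3)
  · -- hgp
    intro N D m hminj hmD p hpinj
    have h1 := hlowdet D 0 N p (fun l => (m l, fun _ => 0)) hmD (fun l => by simp) (by
      have hall : ∀ᶠ j in s.U, ∀ a' : Fin N, p a' < j := Filter.eventually_all.2 fun a' => hge (p a')
      filter_upwards [hall, hge D] with j hj hjD
      have h2 := (hGP j).det_ne m hminj (fun l i => (hmD l i).trans hjD) p hpinj hj
      have h3 : (Matrix.of fun a' l => cm (t j (p a')) (m l) * cm (fun i => c j (p a') i 0) (fun _ => 0)) =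
          (Matrix.of fun a' l => cm (t j (p a')) (m l)) := by
        ext a' l
        simp [cm]
      rw [h3]
      exact h2)
    have h3 : (Matrix.of fun a' l => cm (fun i => pr s (Y (Sum.inl i) (p a'))) (m l) *
        cm (fun i => pr s (CC (p a') i)) (fun _ => 0)) =
        (Matrix.of fun a' l => cm (fun i => pr s (Y (Sum.inl i) (p a'))) (m l)) := by
      ext a' l
      simp [cm]
    simp only [add_zero] at h1
    rw [h3] at h1
    exact h1
  · -- harith
    intro D δ N p m hm1 hm2 hdet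
    refine hlowdet D δ N p m hm1 hm2 ?_
    by_contra hcon'
    push Not at hcon'
    apply hdet
    have h0 : (Matrix.of fun a' l => cm (fun i => pr s (Y (Sum.inl i) (p a'))) (m l).1 *
        cm (fun i => pr s (CC (p a') i)) (m l).2).det =
        pr s (Matrix.of fun a' l => cm (fun i => Y (Sum.inl i) (p a')) (m l).1 * cm (CC (p a')) (m l).2).det := by
      rw [RingHom.map_det]
      congr 1
      ext a' l
      simp only [Matrix.of_apply, RingHom.mapMatrix_apply, Matrix.map_apply, map_mul, map_cm]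
    have h0' : ∀ j, evj s j (Matrix.of fun a' l => cm (fun i => Y (Sum.inl i) (p a')) (m l).1 *
        cm (CC (p a')) (m l).2).det =
        (Matrix.of fun a' l => cm (t j (p a')) (m l).1 * cm (fun i => c j (p a') i 0) (m l).2).det := by
      intro j
      rw [RingHom.map_det]
      congr 1
      ext a' l
      simp only [Matrix.of_apply, RingHom.mapMatrix_apply, Matrix.map_apply, map_mul, map_cm, hevY, hevC]
      rfl
    rw [h0, pr_eq_zero]
    intro n
    filter_upwards [hcon'] with j hj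
    rw [hev, h0', hj, norm_zero]
    exact inv_nonneg.2 (pow_nonneg (hTp j).le _)

end Pool.Agent.Y890.MV
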