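import Pool.Agent.Y890.SP.Omega
import Pool.Agent.Y890.MV.One

/-!
# Systems of relations over bases of any dimension
-/

set_option autoImplicit false
set_option linter.unusedSectionVars false

open NumberField Filter

namespace Pool.Agent.Y890.MV

open Pool.Agent.Y890.SP (exists_lift' Qbar ioQ ioQ_coe exists_omega)
open Pool.Agent.Y124 (Cov)

/-- a finite system of polynomial relations between the values of the functions at `x`, whose coefficients are complex
linear combinations (given by `Ξ`) of the elements `c i` -/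
def SysM {X σ h r : Type} [Fintype σ] [DecidableEq σ] [Fintype h] {δ : ℕ} (f : σ → (X → ℂ) → ℂ)
    (Ξ : r → (σ → Fin (δ + 1)) → h → ℂ) (x : X → ℂ) (c : h → ℂ) : Prop :=
  ∀ ρ, ∑ l, (∑ i, Ξ ρ l i * c i) * ∏ y, f y x ^ (l y : ℕ) = 0

/-- points with coordinates in `K` of height at most `T`, in a given compact set, at which a solution in integers of
`K` of size at most `T ^ A` of the system is not the specialization of a solution in polynomials over the field of
algebraic numbers -/
def ExcM {X σ h r : Type} [Fintype σ] [DecidableEq σ] [Fintype h] {δ : ℕ} (U : Set (X → ℂ))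
    (f : σ → (X → ℂ) → ℂ) (Lc : Set (X → ℂ)) (K : Type) [Field K] [NumberField K] (io : K →+* ℂ)
    (Ξ : r → (σ → Fin (δ + 1)) → h → ℂ) (A T : ℝ) : Set (X → K) :=
  {s | (∀ j, Y120.HtLe K T (s j)) ∧ (fun j => io (s j)) ∈ Lc ∧ ∃ c : h → 𝓞 K,
    (∀ i (φ : K →+* ℂ), ‖φ (c i : K)‖ ≤ T ^ A) ∧
    SysM f Ξ (fun j => io (s j)) (fun i => io (c i : K)) ∧
    ¬ ∃ G : h → MvPolynomial X Qbar,
      (∀ i, MvPolynomial.aeval (fun j => io (s j)) (G i) = io (c i : K)) ∧
      ∀ x ∈ U, SysM f Ξ x (fun i => MvPolynomial.aeval x (G i))}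

/-- **Specialization of systems of relations, bases of any dimension.** -/
theorem excM_cov (hZ0 : StmZ) (hCl : StmClose) (hCh : StmCharts) {X σ : Type} [Fintype X] [DecidableEq X] [Nonempty X]
    [Fintype σ] [DecidableEq σ] {U : Set (X → ℂ)} {f : σ → (X → ℂ) → ℂ} (hU : IsPreconnected U)
    (hUo : IsOpen U) (hne : U.Nonempty) (hf : ∀ i, AnalyticOnNhd ℂ (f i) U) (hreg : RegularM U f) (Lc : Set (X → ℂ))
    (hLc : IsCompact Lc) (hLU : Lc ⊆ U) (δ : ℕ) (h r : Type) [Fintype h]
    [DecidableEq h] [Fintype r] [DecidableEq r] (m : ℕ) (A ε : ℝ) (hε : 0 < ε) : ∃ (D : ℕ) (C T₀ : ℝ), 0 ≤ C ∧ 2 ≤ T₀ ∧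
      ∀ (K : Type) [Field K] [NumberField K], Module.finrank ℚ K ≤ m → ∀ (io : K →+* ℂ)
        (Ξ : r → (σ → Fin (δ + 1)) → h → ℂ) (T : ℝ), T₀ ≤ T →
        Cov D ⌊C * T ^ ε⌋₊ ((fun (s : X → K) j => io (s j)) '' ExcM U f Lc K io Ξ A T) := by
  classical
  obtain ⟨N, _, _, M, hM, hcount⟩ := oneM hZ0 hCl hCh hU hUo hne hf hreg Lc hLc hLU δ
  obtain ⟨D₀, C, T₀, hC, hT₀, H⟩ := hcount ((σ → Fin (δ + 1)) × h) m A ε hε
  set d : ℕ := ∑ κ, ∑ l, (M κ l).totalDegree with hd
  have hd' : ∀ κ l, (M κ l).totalDegree ≤ d := by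
    intro κ l
    have h1 : (M κ l).totalDegree ≤ ∑ l, (M κ l).totalDegree :=
      Finset.single_le_sum (f := fun l => (M κ l).totalDegree) (fun _ _ => Nat.zero_le _) (Finset.mem_univ l)
    exact h1.trans (Finset.single_le_sum (f := fun κ => ∑ l, (M κ l).totalDegree) (fun _ _ => Nat.zero_le _)
      (Finset.mem_univ κ))
  set dd : ℕ := Fintype.card h * d with hdd
  refine ⟨max D₀ dd, Fintype.card r * C + 1, T₀, by positivity, hT₀, ?_⟩
  intro K _ _ hK io Ξ T hT
  have hT1 : 1 ≤ T := by linarith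
  have HK := fun ρ => H K hK io (fun p => Ξ ρ p.1 p.2) T hT
  let LL : r × N → h → MvPolynomial X ℂ := fun q i => ∑ l, MvPolynomial.C (Ξ q.1 l i) * M q.2 l
  have hLL : ∀ q i, (LL q i).totalDegree ≤ d := by
    intro q i
    refine MvPolynomial.totalDegree_finsetSum_le fun l _ => ?_
    refine (MvPolynomial.totalDegree_mul _ _).trans ?_
    rw [MvPolynomial.totalDegree_C, zero_add]
    exact hd' _ _
  obtain ⟨D, hD, hDd, hlift⟩ := exists_lift' (Q := Qbar) (Module.Basis.ofVectorSpace Qbar ℂ) LL d hLL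
  set D' : MvPolynomial X ℂ := MvPolynomial.map (algebraMap Qbar ℂ) D with hD'
  have hD'0 : D' ≠ 0 := by
    intro h0
    apply hD
    exact MvPolynomial.map_injective _ (algebraMap Qbar ℂ).injective (by rw [map_zero]; exact h0)
  have hD'd : D'.totalDegree ≤ dd := by
    refine le_trans ?_ hDd
    exact Finset.sup_mono (MvPolynomial.support_map_subset _ _)
  set Z : Set (X → ℂ) := {t | MvPolynomial.eval t D' = 0} with hZ
  have hZcov : Cov (max D₀ dd) 1 Z := by
    refine ⟨{D'}, by simp, ?_, ?_⟩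
    · intro P hP
      rw [Finset.mem_singleton] at hP
      subst hP
      exact ⟨hD'0, hD'd.trans (le_max_right _ _)⟩
    · intro t ht
      exact ⟨D', Finset.mem_singleton_self _, ht⟩
  set W : Set (X → ℂ) := ⋃ ρ ∈ (Finset.univ : Finset r), (fun (s : X → K) j => io (s j)) ''
    BadM δ M f Lc K io (fun p : (σ → Fin (δ + 1)) × h => Ξ ρ p.1 p.2) A T with hW
  have hWcov : Cov D₀ (Fintype.card r * ⌊C * T ^ ε⌋₊) W := by
    have h1 := Cov.biUnion (Finset.univ : Finset r) (fun ρ => (fun (s : X → K) j => io (s j)) ''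
      BadM δ M f Lc K io (fun p : (σ → Fin (δ + 1)) × h => Ξ ρ p.1 p.2) A T) (fun ρ _ => HK ρ)
    rwa [Finset.card_univ] at h1
  have hsub : (fun (s : X → K) j => io (s j)) '' ExcM U f Lc K io Ξ A T ⊆ W ∪ Z := by
    rintro _ ⟨s, ⟨h1, h1', c, h2, h3, h4⟩, rfl⟩
    by_contra h5
    rw [Set.mem_union, not_or] at h5
    obtain ⟨h6, h7⟩ := h5
    apply h4
    have h8 : MvPolynomial.eval (fun j => ioQ io (s j)) D ≠ 0 := by
      intro h0
      apply h7
      change MvPolynomial.eval (fun j => io (s j)) D' = 0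
      have h11 := MvPolynomial.eval₂_comp_left (algebraMap Qbar ℂ) (RingHom.id Qbar) (fun j => ioQ io (s j)) D
      rw [RingHom.comp_id, MvPolynomial.eval₂_id, h0, map_zero] at h11
      have h12 : (algebraMap Qbar ℂ) ∘ (fun j => ioQ io (s j)) = fun j => io (s j) := by
        funext j
        exact ioQ_coe _ _
      rw [h12] at h11
      rw [hD', MvPolynomial.eval_map]
      exact h11.symm
    have hsum : ∀ (ρ : r) (l : σ → Fin (δ + 1)),
        ∑ p : (σ → Fin (δ + 1)) × h, Ξ ρ p.1 p.2 * io (((if p.1 = l then c p.2 else 0 : 𝓞 K) : 𝓞 K) : K) =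
          ∑ i, Ξ ρ l i * io (c i : K) := by
      intro ρ l
      rw [Fintype.sum_prod_type, Finset.sum_eq_single l]
      · simp
      · intro b _ hb
        simp [hb]
      · simp
    have h9 : ∀ (ρ : r) (κ : N), ∑ l, (∑ i, Ξ ρ l i * io (c i : K)) *
        MvPolynomial.eval (fun j => io (s j)) (M κ l) = 0 := by
      intro ρ κ
      by_contra h0
      apply h6
      rw [hW, Set.mem_iUnion₂]
      refine ⟨ρ, Finset.mem_univ _, s, ⟨h1, h1', fun l p => if p.1 = l then c p.2 else 0, ?_, ?_, κ, ?_⟩, rfl⟩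
      · intro l p φ
        beta_reduce
        split_ifs
        · exact h2 _ φ
        · simp
          positivity
      · simp only [hsum]
        exact h3 ρ
      · simp only [hsum]
        intro h10
        apply h0
        rw [← h10]
        exact Finset.sum_congr rfl fun l _ => mul_comm _ _
    obtain ⟨G, hG1, hG2⟩ := hlift (fun j => ioQ io (s j)) (fun i => ioQ io (c i : K)) h8 (by
      rintro ⟨ρ, κ⟩
      simp only [ioQ_coe, LL]
      refine Eq.trans ?_ (h9 ρ κ)
      simp only [map_sum, map_mul, MvPolynomial.eval_C, Finset.sum_mul, Finset.mul_sum]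
      rw [Finset.sum_comm]
      refine Finset.sum_congr rfl fun l _ => Finset.sum_congr rfl fun i _ => ?_
      ring)
    refine ⟨G, ?_, ?_⟩
    · intro i
      have h10 := congrArg (algebraMap Qbar ℂ) (hG1 i)
      rw [ioQ_coe] at h10
      rw [← h10, MvPolynomial.aeval_def]
      have h11 := MvPolynomial.eval₂_comp_left (algebraMap Qbar ℂ) (RingHom.id Qbar) (fun j => ioQ io (s j)) (G i)
      rw [RingHom.comp_id] at h11
      rw [← MvPolynomial.eval₂_id, h11]
      rfl
    · intro x hx ρ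
      have h10 := hM (fun l => ∑ i, MvPolynomial.C (Ξ ρ l i) *
        MvPolynomial.map (algebraMap Qbar ℂ) (G i)) (fun κ => by
          refine Eq.trans ?_ (hG2 (ρ, κ))
          simp only [LL, Finset.sum_mul, Finset.mul_sum]
          rw [Finset.sum_comm]
          refine Finset.sum_congr rfl fun i _ => Finset.sum_congr rfl fun l _ => ?_
          ring) x hx
      refine Eq.trans ?_ h10
      refine Finset.sum_congr rfl fun l _ => ?_
      congr 1
      rw [map_sum]
      refine Finset.sum_congr rfl fun i _ => ?_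
      rw [map_mul, MvPolynomial.eval_C, MvPolynomial.eval_map]
      rfl
  have hcov := (hWcov.mono (le_max_left D₀ dd) le_rfl (Set.Subset.refl _)).union hZcov
  refine hcov.mono le_rfl ?_ hsub
  have h6 : (1 : ℝ) ≤ T ^ ε := Real.one_le_rpow hT1 hε.le
  have h7 : 0 ≤ C * T ^ ε := by positivity
  apply Nat.le_floor
  push_cast
  have h8 : ((⌊C * T ^ ε⌋₊ : ℕ) : ℝ) ≤ C * T ^ ε := Nat.floor_le h7
  have h9 : (0 : ℝ) ≤ Fintype.card r := Nat.cast_nonneg _
  calc (Fintype.card r : ℝ) * (⌊C * T ^ ε⌋₊ : ℝ) + 1 ≤ Fintype.card r * (C * T ^ ε) + T ^ ε :=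
        add_le_add (mul_le_mul_of_nonneg_left h8 h9) h6
    _ = (Fintype.card r * C + 1) * T ^ ε := by ring

end Pool.Agent.Y890.MV
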