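import Pool.Agent.Y890.MV.Main

/-!
# Families whose relations are those of a rational torsor
-/

set_option autoImplicit false
set_option linter.unusedSectionVars false

open NumberField Filter Topology Polynomial

namespace Pool.Agent.Y890.MV

/-- the value at `x`, `Y` of a polynomial in the variables `Y` with coefficients in `ℂ[x]` -/
noncomputable def evX {X σ : Type} (x : X → ℂ) (Y : σ → ℂ) (p : MvPolynomial σ (MvPolynomial X ℂ)) : ℂ :=
  MvPolynomial.eval₂ (MvPolynomial.eval x) Y p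

theorem evM_eq {X σ : Type} (f : σ → (X → ℂ) → ℂ) (x : X → ℂ) (p : MvPolynomial σ (MvPolynomial X ℂ)) :
    evM f x p = evX x (fun i => f i x) p := rfl

/-- the relations between the functions `f` on `U` hold on the sets `Tor x`, which are connected to the values of `f`
by polynomial paths and have many rational sections -/
structure TorM {X σ : Type} [Fintype X] (U : Set (X → ℂ)) (f : σ → (X → ℂ) → ℂ) (Tor : (X → ℂ) → Set (σ → ℂ)) :
    Prop where
  self : ∀ x ∈ U, (fun s => f s x) ∈ Tor x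
  inv : ∀ p : MvPolynomial σ (MvPolynomial X ℂ), (∀ x ∈ U, evM f x p = 0) → ∀ x ∈ U, ∀ Y ∈ Tor x, evX x Y p = 0
  path : ∀ x ∈ U, ∀ Y ∈ Tor x, ∃ γ : σ → ℂ[X], (∀ s, (γ s).eval 0 = f s x) ∧ (∀ s, (γ s).eval 1 = Y s) ∧
    ∀ t, (fun s => (γ s).eval t) ∈ Tor x
  sec : ∃ c : MvPolynomial X ℂ, c ≠ 0 ∧ ∀ x0 ∈ U, MvPolynomial.eval x0 c ≠ 0 → ∀ Y0 ∈ Tor x0,
    ∃ v : σ → MvPolynomial X ℂ, (∀ x ∈ U, MvPolynomial.eval x c ≠ 0 →
      (fun s => MvPolynomial.eval x (v s) / MvPolynomial.eval x c) ∈ Tor x) ∧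
      ∀ s, MvPolynomial.eval x0 (v s) / MvPolynomial.eval x0 c = Y0 s

/-- an algebraic relation between two polynomials in one variable with constant coefficients -/
theorem const_ratio {a b : ℂ[X]} (hb : b ≠ 0) (N : ℕ) (ρ : ℕ → ℂ) (hN : ρ N ≠ 0)
    (h : ∑ k ∈ Finset.range (N + 1), C (ρ k) * a ^ k * b ^ (N - k) = 0) : ∃ r : ℂ, a = C r * b := by
  classical
  let L := FractionRing ℂ[X]
  let φ : ℂ[X] →+* L := algebraMap ℂ[X] L
  have hφ : Function.Injective φ := IsFractionRing.injective ℂ[X] L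
  have hb' : φ b ≠ 0 := by
    rw [Ne, map_eq_zero_iff φ hφ]
    exact hb
  set z : L := φ a / φ b with hz
  let R : ℂ[X] := ∑ k ∈ Finset.range (N + 1), C (ρ k) * X ^ k
  have hR0 : R ≠ 0 := by
    intro h0
    apply hN
    have h1 : R.coeff N = ρ N := by
      simp only [R, finsetSum_coeff, coeff_C_mul, coeff_X_pow]
      rw [Finset.sum_eq_single N]
      · simp
      · intro k _ hk
        rw [if_neg (Ne.symm hk), mul_zero]
      · intro h
        exact absurd (Finset.mem_range.2 (Nat.lt_succ_self N)) h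
    rw [← h1, h0, coeff_zero]
  have hRz : aeval z R = 0 := by
    have h0 : aeval z R = ∑ k ∈ Finset.range (N + 1), algebraMap ℂ L (ρ k) * z ^ k := by
      simp only [R, map_sum, map_mul, map_pow, aeval_C, aeval_X]
    have h1 : φ b ^ N * aeval z R = φ (∑ k ∈ Finset.range (N + 1), C (ρ k) * a ^ k * b ^ (N - k)) := by
      rw [h0, map_sum, Finset.mul_sum]
      refine Finset.sum_congr rfl fun k hk => ?_
      rw [map_mul, map_mul, map_pow, map_pow]
      have hk' : k ≤ N := Nat.lt_succ_iff.1 (Finset.mem_range.1 hk)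
      have h2 : φ b ^ N = φ b ^ (N - k) * φ b ^ k := by rw [← pow_add, Nat.sub_add_cancel hk']
      have h3 : algebraMap ℂ L (ρ k) = φ (C (ρ k)) := IsScalarTower.algebraMap_apply ℂ ℂ[X] L (ρ k)
      have hbk : φ b ^ k ≠ 0 := pow_ne_zero _ hb'
      rw [h2, h3, hz, div_pow]
      calc φ b ^ (N - k) * φ b ^ k * (φ (C (ρ k)) * (φ a ^ k / φ b ^ k))
          = φ (C (ρ k)) * (φ a ^ k / φ b ^ k * φ b ^ k) * φ b ^ (N - k) := by ring
        _ = _ := by rw [div_mul_cancel₀ _ hbk]
    rw [h, map_zero] at h1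
    exact (mul_eq_zero.1 h1).resolve_left (pow_ne_zero _ hb')
  have hint : IsIntegral ℂ z := isAlgebraic_iff_isIntegral.1 ⟨R, hR0, hRz⟩
  have hdeg : (minpoly ℂ z).degree = 1 :=
    IsAlgClosed.degree_eq_one_of_irreducible ℂ (minpoly.irreducible hint)
  obtain ⟨r, hr⟩ := minpoly.mem_range_of_degree_eq_one ℂ z hdeg
  refine ⟨r, hφ ?_⟩
  have h3 : algebraMap ℂ L r = φ (C r) := IsScalarTower.algebraMap_apply ℂ ℂ[X] L r
  rw [map_mul, ← h3, hr, hz, div_mul_cancel₀ _ hb']

/-- substitution of fractions with a common denominator -/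
noncomputable def clear {X σ : Type} [Fintype σ] (M : ℕ) (v : σ → MvPolynomial X ℂ) (c : MvPolynomial X ℂ)
    (p : MvPolynomial σ (MvPolynomial X ℂ)) : MvPolynomial X ℂ :=
  ∑ s ∈ p.support, p.coeff s * (∏ i, v i ^ s i) * c ^ (M - s.degree)

theorem clear_eval {X σ : Type} [Fintype σ] (M : ℕ) (v : σ → MvPolynomial X ℂ) (c : MvPolynomial X ℂ)
    (p : MvPolynomial σ (MvPolynomial X ℂ)) (hM : p.totalDegree ≤ M) (x : X → ℂ) (hc : MvPolynomial.eval x c ≠ 0) :
    MvPolynomial.eval x (clear M v c p) =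
      MvPolynomial.eval x c ^ M * evX x (fun s => MvPolynomial.eval x (v s) / MvPolynomial.eval x c) p := by
  classical
  rw [evX, MvPolynomial.eval₂_eq', Finset.mul_sum, clear, map_sum]
  refine Finset.sum_congr rfl fun s hs => ?_
  have h1 : s.degree ≤ M := (MvPolynomial.le_totalDegree hs).trans hM
  have h2 : MvPolynomial.eval x c ^ M = MvPolynomial.eval x c ^ (M - s.degree) * ∏ i, MvPolynomial.eval x c ^ s i := by
    rw [Finset.prod_pow_eq_pow_sum, ← pow_add]
    congr 1
    have h3 : s.degree = ∑ i, s i := Finsupp.degree_eq_sum s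
    omega
  rw [map_mul, map_mul, map_prod, map_pow, h2]
  simp only [map_pow, div_pow]
  rw [Finset.prod_div_distrib]
  have h4 : (∏ i, MvPolynomial.eval x c ^ s i) ≠ 0 := Finset.prod_ne_zero_iff.2 fun i _ => pow_ne_zero _ hc
  field_simp

theorem TorM.reg {X σ : Type} [Fintype X] [DecidableEq X] [Fintype σ] {U : Set (X → ℂ)} {f : σ → (X → ℂ) → ℂ}
    {Tor : (X → ℂ) → Set (σ → ℂ)} (hU : IsPreconnected U) (hf : ∀ i, AnalyticOnNhd ℂ (f i) U)
    (hT : TorM U f Tor) : RegularM U f := by
  classical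
  intro V g P Q R hVo hVne hVU hg hR hQ hPQ hRg
  set N := R.natDegree with hN
  set W : MvPolynomial σ (MvPolynomial X ℂ) :=
    ∑ k ∈ Finset.range (N + 1), MvPolynomial.C (R.coeff k) * P ^ k * Q ^ (N - k) with hW
  have hWev : ∀ (x : X → ℂ) (Y : σ → ℂ), evX x Y W =
      ∑ k ∈ Finset.range (N + 1), MvPolynomial.eval x (R.coeff k) * evX x Y P ^ k * evX x Y Q ^ (N - k) := by
    intro x Y
    have h1 : ∀ p, evX x Y p = MvPolynomial.eval₂Hom (MvPolynomial.eval x) Y p := fun p => rfl
    simp only [h1, hW, map_sum, map_mul, map_pow, MvPolynomial.eval₂Hom_C]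
  have hWV : ∀ x ∈ V, evM f x W = 0 := by
    intro x hx
    rw [evM_eq, hWev]
    have h1 : evX x (fun i => f i x) P = evX x (fun i => f i x) Q * g x := (hPQ x hx).symm
    have h2 := hRg x hx
    rw [Polynomial.eval_map, Polynomial.eval₂_eq_sum_range] at h2
    calc ∑ k ∈ Finset.range (N + 1), MvPolynomial.eval x (R.coeff k) * evX x (fun i => f i x) P ^ k *
          evX x (fun i => f i x) Q ^ (N - k)
        = evX x (fun i => f i x) Q ^ N * ∑ k ∈ Finset.range (N + 1), MvPolynomial.eval x (R.coeff k) * g x ^ k := by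
          rw [Finset.mul_sum]
          refine Finset.sum_congr rfl fun k hk => ?_
          have hk' : k ≤ N := Nat.lt_succ_iff.1 (Finset.mem_range.1 hk)
          have h3 : evX x (fun i => f i x) Q ^ N =
              evX x (fun i => f i x) Q ^ (N - k) * evX x (fun i => f i x) Q ^ k := by
            rw [← pow_add, Nat.sub_add_cancel hk']
          rw [h1, h3, mul_pow]
          ring
      _ = 0 := by rw [h2, mul_zero]
  have hWU : ∀ x ∈ U, evM f x W = 0 := by
    obtain ⟨x0, hx0⟩ := hVne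
    have h1 : (fun x => evM f x W) =ᶠ[𝓝 x0] 0 := by
      filter_upwards [hVo.mem_nhds hx0] with x hx
      exact hWV x hx
    exact (evM_an hf W).eqOn_zero_of_preconnected_of_eventuallyEq_zero hU (hVU hx0) h1
  have hWT := hT.inv W hWU
  -- on `Tor x` the quotient is constant
  have hconst : ∀ x ∈ V, MvPolynomial.eval x R.leadingCoeff ≠ 0 → ∀ Y ∈ Tor x, evX x Y P = g x * evX x Y Q := by
    intro x hx hr Y hY
    obtain ⟨γ, h0, h1, h2⟩ := hT.path x (hVU hx) Y hY
    set a : ℂ[X] := MvPolynomial.eval₂ (C.comp (MvPolynomial.eval x)) γ P with ha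
    set b : ℂ[X] := MvPolynomial.eval₂ (C.comp (MvPolynomial.eval x)) γ Q with hb
    have hev : ∀ (p : MvPolynomial σ (MvPolynomial X ℂ)) (t : ℂ),
        (MvPolynomial.eval₂ (C.comp (MvPolynomial.eval x)) γ p).eval t = evX x (fun s => (γ s).eval t) p := by
      intro p t
      have h3 := MvPolynomial.eval₂_comp_left (Polynomial.evalRingHom t) (C.comp (MvPolynomial.eval x)) γ p
      rw [Polynomial.coe_evalRingHom] at h3
      rw [h3, evX]
      congr 1
      exact RingHom.ext fun y => by simp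
    have h00 : (fun s => (γ s).eval 0) = fun s => f s x := funext h0
    have h11 : (fun s => (γ s).eval 1) = Y := funext h1
    have hb0 : b ≠ 0 := by
      intro h3
      have h4 := hev Q 0
      rw [← hb, h3, Polynomial.eval_zero, h00] at h4
      exact hQ x hx h4.symm
    obtain ⟨r, hr'⟩ := const_ratio (a := a) hb0 N (fun k => MvPolynomial.eval x (R.coeff k)) hr (by
      refine Polynomial.funext fun t => ?_
      rw [Polynomial.eval_zero, Polynomial.eval_finsetSum, ← hWT x (hVU hx) _ (h2 t), hWev]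
      refine Finset.sum_congr rfl fun k _ => ?_
      rw [Polynomial.eval_mul, Polynomial.eval_mul, Polynomial.eval_pow, Polynomial.eval_pow, Polynomial.eval_C,
        ha, hb, hev, hev])
    have h3 := congrArg (Polynomial.eval 0) hr'
    have h4 := congrArg (Polynomial.eval 1) hr'
    rw [Polynomial.eval_mul, Polynomial.eval_C, ha, hb, hev, hev, h00] at h3
    rw [Polynomial.eval_mul, Polynomial.eval_C, ha, hb, hev, hev, h11] at h4
    have h5 : r = g x := by
      have h6 := hPQ x hx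
      rw [evM_eq, evM_eq, h3, mul_comm] at h6
      exact (mul_right_cancel₀ (hQ x hx) h6).symm
    rw [h4, h5]
  obtain ⟨c, hc, hsec⟩ := hT.sec
  have hcr : c * R.leadingCoeff ≠ 0 := mul_ne_zero hc (Polynomial.leadingCoeff_ne_zero.2 hR)
  obtain ⟨x0, hx0, hx0'⟩ : ∃ x0 ∈ V, MvPolynomial.eval x0 (c * R.leadingCoeff) ≠ 0 := by
    by_contra hcon
    push Not at hcon
    exact hcr (poly_zero hVo hVne _ hcon)
  rw [map_mul, mul_ne_zero_iff] at hx0'
  obtain ⟨v, hv, hv0⟩ := hsec x0 (hVU hx0) hx0'.1 _ (hT.self x0 (hVU hx0))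
  set M := max P.totalDegree Q.totalDegree with hM
  refine ⟨clear M v c P, clear M v c Q, ?_, ?_⟩
  · intro h0
    have h1 := clear_eval M v c Q (le_max_right _ _) x0 hx0'.1
    rw [h0, map_zero] at h1
    have h2 : (fun s => MvPolynomial.eval x0 (v s) / MvPolynomial.eval x0 c) = fun s => f s x0 := funext hv0
    rw [h2] at h1
    exact mul_ne_zero (pow_ne_zero _ hx0'.1) (hQ x0 hx0) h1.symm
  · intro x hx
    by_contra hne
    have hcont : ContinuousOn (fun x => MvPolynomial.eval x (clear M v c Q) * g x -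
        MvPolynomial.eval x (clear M v c P)) V :=
      ((MvPolynomial.continuous_eval _).continuousOn.mul hg.continuousOn).sub
        (MvPolynomial.continuous_eval _).continuousOn
    have h1 : ∀ᶠ y in 𝓝 x, MvPolynomial.eval y (clear M v c Q) * g y - MvPolynomial.eval y (clear M v c P) ≠ 0 :=
      (hcont.continuousAt (hVo.mem_nhds hx)).eventually_ne (sub_ne_zero.2 hne)
    obtain ⟨O, hO, hOo, hxO⟩ := eventually_nhds_iff.1 (h1.and (hVo.mem_nhds hx))
    apply hcr
    refine poly_zero hOo ⟨x, hxO⟩ _ fun y hy => ?_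
    by_contra hy0
    rw [map_mul, mul_eq_zero, not_or] at hy0
    obtain ⟨h2, h3⟩ := hO y hy
    apply h2
    rw [clear_eval M v c Q (le_max_right _ _) y hy0.1, clear_eval M v c P (le_max_left _ _) y hy0.1,
      hconst y h3 hy0.2 _ (hv y (hVU h3) hy0.1)]
    ring

end Pool.Agent.Y890.MV
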