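import Pool.Agent.Y890.MV.Tor

/-!
# Products of families with torsors
-/

set_option autoImplicit false
set_option linter.unusedSectionVars false

open NumberField Filter Topology

namespace Pool.Agent.Y890.MV

variable {ι : Type} [Fintype ι] [DecidableEq ι] {X' σ' : ι → Type} [∀ j, Fintype (X' j)] [∀ j, Fintype (σ' j)]

/-- the component -/
def pj {Z : ι → Type} {R : Type} (x : (Σ j, Z j) → R) (j : ι) : Z j → R := fun i => x ⟨j, i⟩

/-- replacement of a component -/
def gl {Z : ι → Type} {R : Type} (x : (Σ j, Z j) → R) (j0 : ι) (z : Z j0 → R) : (Σ j, Z j) → R :=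
  fun q => Function.update (β := fun j => Z j → R) (pj x) j0 z q.1 q.2

theorem gl_self {Z : ι → Type} {R : Type} (x : (Σ j, Z j) → R) (j0 : ι) (z : Z j0 → R) (i : Z j0) :
    gl x j0 z ⟨j0, i⟩ = z i := by
  simp [gl]

theorem gl_ne {Z : ι → Type} {R : Type} (x : (Σ j, Z j) → R) {j0 j : ι} (z : Z j0 → R) (h : j ≠ j0) (i : Z j) :
    gl x j0 z ⟨j, i⟩ = x ⟨j, i⟩ := by
  simp [gl, Function.update_of_ne h, pj]

theorem pj_gl_self {Z : ι → Type} {R : Type} (x : (Σ j, Z j) → R) (j0 : ι) (z : Z j0 → R) : pj (gl x j0 z) j0 = z :=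
  funext fun i => gl_self x j0 z i

theorem pj_gl_ne {Z : ι → Type} {R : Type} (x : (Σ j, Z j) → R) {j0 j : ι} (z : Z j0 → R) (h : j ≠ j0) :
    pj (gl x j0 z) j = pj x j := funext fun i => gl_ne x z h i

theorem gl_pj {Z : ι → Type} {R : Type} (x : (Σ j, Z j) → R) (j0 : ι) : gl x j0 (pj x j0) = x := by
  funext ⟨j, i⟩
  by_cases h : j = j0
  · subst h
    rw [gl_self]
    rfl
  · rw [gl_ne x _ h]

/-- products of domains -/
def USig (U' : ∀ j, Set (X' j → ℂ)) : Set ((Σ j, X' j) → ℂ) := {x | ∀ j, pj x j ∈ U' j}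

/-- the functions on a product -/
def fSig (f' : ∀ j, σ' j → (X' j → ℂ) → ℂ) : (Σ j, σ' j) → ((Σ j, X' j) → ℂ) → ℂ := fun q x => f' q.1 q.2 (pj x q.1)

/-- products of torsors -/
def TSig (Tor' : ∀ j, (X' j → ℂ) → Set (σ' j → ℂ)) : ((Σ j, X' j) → ℂ) → Set ((Σ j, σ' j) → ℂ) :=
  fun x => {Y | ∀ j, pj Y j ∈ Tor' j (pj x j)}

/-- substitution of constants for all variables which do not belong to `j0` -/
noncomputable def sbs (x : (Σ j, X' j) → ℂ) (w : (Σ j, σ' j) → ℂ) (j0 : ι) :
    MvPolynomial (Σ j, σ' j) (MvPolynomial (Σ j, X' j) ℂ) →+* MvPolynomial (σ' j0) (MvPolynomial (X' j0) ℂ) :=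
  MvPolynomial.eval₂Hom (MvPolynomial.eval₂Hom (MvPolynomial.C.comp MvPolynomial.C)
    (gl (fun q => MvPolynomial.C (MvPolynomial.C (x q))) j0 (fun i => MvPolynomial.C (MvPolynomial.X i))))
    (gl (fun q => MvPolynomial.C (MvPolynomial.C (w q))) j0 (fun s => MvPolynomial.X s))

theorem sbs_ev (x : (Σ j, X' j) → ℂ) (w : (Σ j, σ' j) → ℂ) (j0 : ι) (z : X' j0 → ℂ) (Z : σ' j0 → ℂ)
    (p : MvPolynomial (Σ j, σ' j) (MvPolynomial (Σ j, X' j) ℂ)) :
    evX z Z (sbs x w j0 p) = evX (gl x j0 z) (gl w j0 Z) p := by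
  let E : MvPolynomial (σ' j0) (MvPolynomial (X' j0) ℂ) →+* ℂ := MvPolynomial.eval₂Hom (MvPolynomial.eval z) Z
  have h1 : E.comp (sbs x w j0) = MvPolynomial.eval₂Hom (MvPolynomial.eval (gl x j0 z)) (gl w j0 Z) := by
    refine MvPolynomial.ringHom_ext (fun a => ?_) ?_
    · have h2 : (E.comp (sbs x w j0)).comp MvPolynomial.C = MvPolynomial.eval (gl x j0 z) := by
        refine MvPolynomial.ringHom_ext (fun b => ?_) ?_
        · simp [E, sbs]
        · rintro ⟨j, i⟩
          by_cases h : j = j0
          · subst h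
            simp [E, sbs, gl_self]
          · simp [E, sbs, gl_ne _ _ h]
      have h3 := congrArg (fun g => g a) h2
      simp only [RingHom.comp_apply] at h3
      rw [RingHom.comp_apply, h3]
      exact (MvPolynomial.eval₂Hom_C _ _ _).symm
    · rintro ⟨j, s⟩
      by_cases h : j = j0
      · subst h
        simp [E, sbs, gl_self]
      · simp [E, sbs, gl_ne _ _ h]
  exact congrArg (fun g => g p) h1

theorem TorM.sig {U' : ∀ j, Set (X' j → ℂ)} {f' : ∀ j, σ' j → (X' j → ℂ) → ℂ}
    {Tor' : ∀ j, (X' j → ℂ) → Set (σ' j → ℂ)} (hT : ∀ j, TorM (U' j) (f' j) (Tor' j)) :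
    TorM (USig U') (fSig f') (TSig Tor') := by
  classical
  refine ⟨fun x hx j => (hT j).self _ (hx j), ?_, ?_, ?_⟩
  · intro p hp
    have key : ∀ (A : Finset ι), ∀ x ∈ USig U', ∀ Y ∈ TSig Tor' x,
        evX x (fun q => if q.1 ∈ A then Y q else fSig f' q x) p = 0 := by
      intro A
      induction A using Finset.induction_on with
      | empty =>
        intro x hx Y _
        simp only [Finset.notMem_empty, if_false]
        exact hp x hx
      | insert j0 A hj0 ih =>
        intro x hx Y hY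
        set w : (Σ j, σ' j) → ℂ := fun q => if q.1 ∈ A then Y q else fSig f' q x with hw
        have h1 : ∀ z ∈ U' j0, evM (f' j0) z (sbs x w j0 p) = 0 := by
          intro z hz
          rw [evM_eq, sbs_ev]
          have hx1 : gl x j0 z ∈ USig U' := by
            intro j
            by_cases h : j = j0
            · subst h
              rw [pj_gl_self]
              exact hz
            · rw [pj_gl_ne x z h]
              exact hx j
          have hY1 : gl Y j0 (fun s => f' j0 s z) ∈ TSig Tor' (gl x j0 z) := by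
            intro j
            by_cases h : j = j0
            · subst h
              rw [pj_gl_self, pj_gl_self]
              exact (hT j).self z hz
            · rw [pj_gl_ne _ _ h, pj_gl_ne _ _ h]
              exact hY j
          have h2 := ih _ hx1 _ hY1
          rw [← h2]
          congr 1
          funext ⟨j, s⟩
          by_cases h : j = j0
          · subst h
            rw [gl_self]
            simp only [hj0, if_false]
            rw [fSig, pj_gl_self]
          · rw [gl_ne _ _ h, gl_ne _ _ h]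
            simp only [hw]
            split_ifs
            · rfl
            · rw [fSig, fSig, pj_gl_ne _ _ h]
        have h2 := (hT j0).inv _ h1 (pj x j0) (hx j0) (pj Y j0) (hY j0)
        rw [sbs_ev, gl_pj] at h2
        rw [← h2]
        congr 1
        funext ⟨j, s⟩
        by_cases h : j = j0
        · subst h
          rw [gl_self]
          simp [pj]
        · rw [gl_ne _ _ h]
          simp only [hw, Finset.mem_insert, h, false_or]
    intro x hx Y hY
    have := key Finset.univ x hx Y hY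
    simpa using this
  · intro x hx Y hY
    choose γ h0 h1 h2 using fun j => (hT j).path (pj x j) (hx j) (pj Y j) (hY j)
    exact ⟨fun q => γ q.1 q.2, fun q => h0 q.1 q.2, fun q => h1 q.1 q.2, fun t j => h2 j t⟩
  · choose c hc hsec using fun j => (hT j).sec
    have hev : ∀ (x : (Σ j, X' j) → ℂ) (j : ι) (a : MvPolynomial (X' j) ℂ),
        MvPolynomial.eval x (MvPolynomial.rename (Sigma.mk j) a) = MvPolynomial.eval (pj x j) a := by
      intro x j a
      rw [MvPolynomial.eval_rename]
      rfl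
    have hevc : ∀ x : (Σ j, X' j) → ℂ, MvPolynomial.eval x (∏ j, MvPolynomial.rename (Sigma.mk j) (c j)) =
        ∏ j, MvPolynomial.eval (pj x j) (c j) := by
      intro x
      rw [map_prod]
      exact Finset.prod_congr rfl fun j _ => hev x j _
    refine ⟨∏ j, MvPolynomial.rename (Sigma.mk j) (c j), ?_, ?_⟩
    · refine Finset.prod_ne_zero_iff.2 fun j _ => ?_
      rw [Ne, (MvPolynomial.rename_injective _ sigma_mk_injective).eq_iff' (map_zero _)]
      exact hc j
    · intro x0 hx0 hc0 Y0 hY0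
      rw [hevc] at hc0
      have hc0' : ∀ j, MvPolynomial.eval (pj x0 j) (c j) ≠ 0 := fun j =>
        Finset.prod_ne_zero_iff.1 hc0 j (Finset.mem_univ j)
      choose v hv hv0 using fun j => hsec j (pj x0 j) (hx0 j) (hc0' j) (pj Y0 j) (hY0 j)
      have hq : ∀ (x : (Σ j, X' j) → ℂ), (∀ j, MvPolynomial.eval (pj x j) (c j) ≠ 0) → ∀ (j : ι) (s : σ' j),
          MvPolynomial.eval x (MvPolynomial.rename (Sigma.mk j) (v j s) *
            ∏ k ∈ Finset.univ.erase j, MvPolynomial.rename (Sigma.mk k) (c k)) /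
            MvPolynomial.eval x (∏ j, MvPolynomial.rename (Sigma.mk j) (c j)) =
          MvPolynomial.eval (pj x j) (v j s) / MvPolynomial.eval (pj x j) (c j) := by
        intro x hx j s
        rw [hevc, map_mul, map_prod, hev, ← Finset.mul_prod_erase Finset.univ _ (Finset.mem_univ j)]
        have h1 : ∏ k ∈ Finset.univ.erase j, MvPolynomial.eval x (MvPolynomial.rename (Sigma.mk k) (c k)) =
            ∏ k ∈ Finset.univ.erase j, MvPolynomial.eval (pj x k) (c k) :=
          Finset.prod_congr rfl fun k _ => hev x k _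
        rw [h1]
        have h2 : ∏ k ∈ Finset.univ.erase j, MvPolynomial.eval (pj x k) (c k) ≠ 0 :=
          Finset.prod_ne_zero_iff.2 fun k _ => hx k
        exact mul_div_mul_right _ _ h2
      refine ⟨fun q => MvPolynomial.rename (Sigma.mk q.1) (v q.1 q.2) *
        ∏ k ∈ Finset.univ.erase q.1, MvPolynomial.rename (Sigma.mk k) (c k), ?_, ?_⟩
      · intro x hx hcx j
        rw [hevc] at hcx
        have hcx' : ∀ j, MvPolynomial.eval (pj x j) (c j) ≠ 0 := fun j =>
          Finset.prod_ne_zero_iff.1 hcx j (Finset.mem_univ j)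
        have h1 := hv j (pj x j) (hx j) (hcx' j)
        have h2 : pj (fun q : Σ j, σ' j => MvPolynomial.eval x (MvPolynomial.rename (Sigma.mk q.1) (v q.1 q.2) *
            ∏ k ∈ Finset.univ.erase q.1, MvPolynomial.rename (Sigma.mk k) (c k)) /
            MvPolynomial.eval x (∏ j, MvPolynomial.rename (Sigma.mk j) (c j))) j =
            fun s => MvPolynomial.eval (pj x j) (v j s) / MvPolynomial.eval (pj x j) (c j) :=
          funext fun s => hq x hcx' j s
        rw [h2]
        exact h1
      · rintro ⟨j, s⟩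
        rw [hq x0 hc0' j s]
        exact hv0 j s

theorem USig_open {U' : ∀ j, Set (X' j → ℂ)} (h : ∀ j, IsOpen (U' j)) : IsOpen (USig U') := by
  have h1 : USig U' = ⋂ j, (fun x : (Σ j, X' j) → ℂ => pj x j) ⁻¹' U' j := by
    ext x
    simp [USig]
  rw [h1]
  refine isOpen_iInter_of_finite fun j => (h j).preimage ?_
  exact continuous_pi fun i => continuous_apply _

theorem USig_convex {U' : ∀ j, Set (X' j → ℂ)} (h : ∀ j, Convex ℝ (U' j)) : Convex ℝ (USig U') := by
  intro x hx y hy a b ha hb hab j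
  exact h j (hx j) (hy j) ha hb hab

theorem USig_nonempty {U' : ∀ j, Set (X' j → ℂ)} (h : ∀ j, (U' j).Nonempty) : (USig U').Nonempty := by
  choose x hx using h
  exact ⟨fun q => x q.1 q.2, fun j => hx j⟩

theorem fSig_an {U' : ∀ j, Set (X' j → ℂ)} {f' : ∀ j, σ' j → (X' j → ℂ) → ℂ}
    (h : ∀ j s, AnalyticOnNhd ℂ (f' j s) (U' j)) (q : Σ j, σ' j) : AnalyticOnNhd ℂ (fSig f' q) (USig U') := by
  intro x hx
  let L : ((Σ j, X' j) → ℂ) →L[ℂ] (X' q.1 → ℂ) :=
    ContinuousLinearMap.pi fun i => ContinuousLinearMap.proj (R := ℂ) (φ := fun _ : (Σ j, X' j) => ℂ) ⟨q.1, i⟩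
  exact AnalyticAt.comp (g := f' q.1 q.2) (f := fun x => L x) (h q.1 q.2 _ (hx q.1)) (L.analyticAt x)

end Pool.Agent.Y890.MV
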